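import Mathlib

/-!
# Abstract face lattices: basic facts
-/

set_option autoImplicit false

namespace Pool.Agent.Sallee

open Finset Relation

/-- `F` is a facet of `H` above `E` that does not contain `V`. -/
def IsFac {L : Type*} [SemilatticeInf L] (rk : L → ℕ) (E V H F : L) : Prop :=
  E ≤ F ∧ F ≤ H ∧ rk F + 1 = rk H ∧ ¬ V ≤ F

/-- Abstract properties of the face lattice of a polytope that are used in the proof. -/
structure FaceLat (L : Type*) [SemilatticeInf L] where
  /-- the rank function (dimension plus one) -/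
  rk : L → ℕ
  rk_lt : ∀ {a b : L}, a < b → rk a < rk b
  facet : ∀ {G V H : L}, G ≤ H → V ≤ H → ¬ V ≤ G →
    ∃ F, G ≤ F ∧ F ≤ H ∧ rk F + 1 = rk H ∧ ¬ V ≤ F
  conn : ∀ {E V H F₁ F₂ : L}, E ≤ V → V ≤ H → rk V = rk E + 1 →
    IsFac rk E V H F₁ → IsFac rk E V H F₂ →
    ReflTransGen (fun F F' => IsFac rk E V H F ∧ IsFac rk E V H F' ∧ rk (F ⊓ F') + 2 = rk H) F₁ F₂

variable {L : Type*} [SemilatticeInf L] (S : FaceLat L)

namespace FaceLat

lemma rk_le {a b : L} (h : a ≤ b) : S.rk a ≤ S.rk b := by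
  rcases eq_or_lt_of_le h with h | h
  · rw [h]
  · exact (S.rk_lt h).le

lemma eq_of_le_of_rk_le {a b : L} (h : a ≤ b) (hr : S.rk b ≤ S.rk a) : a = b := by
  rcases eq_or_lt_of_le h with h | h
  · exact h
  · exact absurd (S.rk_lt h) (by omega)

lemma lt_of_rk_lt {a b : L} (h : a ≤ b) (hr : S.rk a < S.rk b) : a < b :=
  lt_of_le_of_ne h (fun he => by rw [he] at hr; omega)

lemma not_le_of_rk_lt {a b : L} (hr : S.rk a < S.rk b) : ¬ b ≤ a :=
  fun h => by have := S.rk_le h; omega

/-- A facet of `H` above a proper face. -/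
lemma exists_facet {G H : L} (h : G < H) : ∃ F, G ≤ F ∧ F ≤ H ∧ S.rk F + 1 = S.rk H := by
  obtain ⟨F, h1, h2, h3, _⟩ := S.facet h.le le_rfl (not_le_of_gt h)
  exact ⟨F, h1, h2, h3⟩

/-- Faces of every intermediate rank exist. -/
lemma exists_rank {E H : L} (h : E ≤ H) {k : ℕ} (h1 : S.rk E ≤ k) (h2 : k ≤ S.rk H) :
    ∃ G, E ≤ G ∧ G ≤ H ∧ S.rk G = k := by
  induction' hn : S.rk H - k with n ih generalizing H
  · exact ⟨H, h, le_rfl, by omega⟩
  · have hlt : E < H := S.lt_of_rk_lt h (by omega)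
    obtain ⟨F, hF1, hF2, hF3⟩ := S.exists_facet hlt
    obtain ⟨G, hG1, hG2, hG3⟩ := ih hF1 (by omega) (by omega)
    exact ⟨G, hG1, hG2.trans hF2, hG3⟩

/-- Atoms of an interval exist. -/
lemma exists_atom {E H : L} (h : E < H) : ∃ V, E ≤ V ∧ V ≤ H ∧ S.rk V = S.rk E + 1 := by
  exact S.exists_rank h.le (by omega) (by have := S.rk_lt h; omega)

/-- An atom outside a given coatom. -/
lemma exists_atom_not_le {E K H : L} (hEK : E ≤ K) (hKH : K ≤ H) (hr : S.rk K + 1 = S.rk H) :
    ∃ V, E ≤ V ∧ V ≤ H ∧ S.rk V = S.rk E + 1 ∧ ¬ V ≤ K := by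
  induction' hn : S.rk H - S.rk E with n ih generalizing K H
  · have := S.rk_le hEK; omega
  · rcases eq_or_lt_of_le hEK with h | h
    · refine ⟨H, hEK.trans hKH, le_rfl, by rw [h]; omega, S.not_le_of_rk_lt (by omega)⟩
    · obtain ⟨V₁, a1, a2, a3⟩ := S.exists_atom h
      obtain ⟨F', b1, b2, b3, b4⟩ := S.facet (hEK.trans hKH) (a2.trans hKH)
        (S.not_le_of_rk_lt (by omega) : ¬ V₁ ≤ E)
      -- `K ⊓ F'` is a proper face of `F'`
      have hne : ¬ F' ≤ K := by
        intro hle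
        have := S.eq_of_le_of_rk_le hle (by omega)
        rw [this] at b4
        exact b4 a2
      have hlt : K ⊓ F' < F' := lt_of_le_of_ne inf_le_right (fun he => hne (he ▸ inf_le_left))
      obtain ⟨K', c1, c2, c3⟩ := S.exists_facet hlt
      obtain ⟨V, d1, d2, d3, d4⟩ := ih ((le_inf hEK b1).trans c1) c2 c3 (by omega)
      refine ⟨V, d1, d2.trans b2, d3, fun hVK => d4 ((le_inf hVK d2).trans c1)⟩

/-- An atom outside a given proper face. -/
lemma exists_atom_not_le' {E K H : L} (hEK : E ≤ K) (hKH : K < H) :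
    ∃ V, E ≤ V ∧ V ≤ H ∧ S.rk V = S.rk E + 1 ∧ ¬ V ≤ K := by
  obtain ⟨F, h1, h2, h3⟩ := S.exists_facet hKH
  obtain ⟨V, a1, a2, a3, a4⟩ := S.exists_atom_not_le (hEK.trans h1) h2 h3
  exact ⟨V, a1, a2, a3, fun h => a4 (h.trans h1)⟩

/-- If `J` has corank one in `G`, and `J ≤ K`, `G ≰ K` then `G ⊓ K = J`. -/
lemma inf_eq_of_cover {J G K : L} (hJG : J ≤ G) (hJK : J ≤ K) (hr : S.rk J + 1 = S.rk G)
    (hG : ¬ G ≤ K) : G ⊓ K = J := by
  have h1 : J ≤ G ⊓ K := le_inf hJG hJK
  have h2 : G ⊓ K < G := lt_of_le_of_ne inf_le_left (fun he => hG (he ▸ inf_le_right))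
  have h3 := S.rk_lt h2
  exact (S.eq_of_le_of_rk_le h1 (by omega)).symm

/-- Distinct atoms of an interval are incomparable. -/
lemma atom_not_le {E V U : L} (hV : S.rk V = S.rk E + 1) (hU : S.rk U = S.rk E + 1)
    (hne : V ≠ U) : ¬ V ≤ U :=
  fun h => hne (S.eq_of_le_of_rk_le h (by omega))

section Finite

variable [Fintype L]

open Classical in
/-- Faces of absolute rank `k` in the interval `[E, H]`. -/
noncomputable def lev (E H : L) (k : ℕ) : Finset L :=
  Finset.univ.filter (fun G => E ≤ G ∧ G ≤ H ∧ S.rk G = k)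

lemma mem_lev {E H G : L} {k : ℕ} : G ∈ S.lev E H k ↔ E ≤ G ∧ G ≤ H ∧ S.rk G = k := by
  simp [lev]

lemma card_lev {E H : L} (h : E ≤ H) {k : ℕ} (h1 : S.rk E ≤ k) (h2 : k ≤ S.rk H) :
    (S.rk H - S.rk E).choose (k - S.rk E) ≤ (S.lev E H k).card := by
  classical
  induction' hn : S.rk H - S.rk E with n ih generalizing E H
  · have hk : k - S.rk E = 0 := by omega
    rw [hk, Nat.choose_zero_right, Finset.one_le_card]
    exact ⟨E, S.mem_lev.2 ⟨le_rfl, h, by omega⟩⟩
  · rcases Nat.eq_zero_or_pos (k - S.rk E) with hk | hk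
    · rw [hk, Nat.choose_zero_right, Finset.one_le_card]
      exact ⟨E, S.mem_lev.2 ⟨le_rfl, h, by omega⟩⟩
    rcases Nat.lt_or_ge k (S.rk H) with hkH | hkH
    · have hlt : E < H := S.lt_of_rk_lt h (by omega)
      obtain ⟨V, v1, v2, v3⟩ := S.exists_atom hlt
      obtain ⟨F, f1, f2, f3, f4⟩ := S.facet h v2 (S.not_le_of_rk_lt (by omega) : ¬ V ≤ E)
      have ih1 := ih v2 (by omega) h2 (by omega)
      have ih2 := ih f1 h1 (by omega) (by omega)
      have hsub : S.lev V H k ∪ S.lev E F k ⊆ S.lev E H k := by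
        intro G hG
        rw [Finset.mem_union, S.mem_lev, S.mem_lev] at hG
        rw [S.mem_lev]
        rcases hG with ⟨a, b, c⟩ | ⟨a, b, c⟩
        · exact ⟨v1.trans a, b, c⟩
        · exact ⟨a, b.trans f2, c⟩
      have hdisj : Disjoint (S.lev V H k) (S.lev E F k) := by
        rw [Finset.disjoint_left]
        intro G hG1 hG2
        rw [S.mem_lev] at hG1 hG2
        exact f4 (hG1.1.trans hG2.2.1)
      have hcard := Finset.card_le_card hsub
      rw [Finset.card_union_of_disjoint hdisj] at hcard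
      have hsplit : k - S.rk E = (k - S.rk V) + 1 := by omega
      rw [hsplit] at ih2 ⊢
      rw [Nat.choose_succ_succ]
      simp only [Nat.succ_eq_add_one]
      omega
    · have hk2 : k - S.rk E = n + 1 := by omega
      rw [hk2, Nat.choose_self, Finset.one_le_card]
      exact ⟨H, S.mem_lev.2 ⟨h, le_rfl, by omega⟩⟩

end Finite

/-- Independent lists of faces over `E`. -/
inductive Indep (E : L) : List L → Prop
  | nil : Indep E []
  | cons {l : List L} {V C : L} : Indep E l → E ≤ C → (∀ W ∈ l, W ≤ C) → ¬ V ≤ C →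
      Indep E (V :: l)

variable {S}

lemma Indep.tail {E V : L} {l : List L} (h : Indep E (V :: l)) : Indep E l := by
  cases h with
  | cons h _ _ _ => exact h

lemma Indep.drop {E : L} {l : List L} (h : Indep E l) (k : ℕ) : Indep E (l.drop k) := by
  induction k generalizing l with
  | zero => simpa using h
  | succ k ih =>
    cases l with
    | nil => simpa using h
    | cons a l => simpa using ih h.tail

variable (S)

/-- A face of relative rank `ρ` contains at most `ρ` members of an independent list. -/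
lemma Indep.countP_le {E : L} {l : List L} (h : Indep E l) :
    ∀ R : L, E ≤ R → ∀ [DecidablePred (· ≤ R)], l.countP (· ≤ R) ≤ S.rk R - S.rk E := by
  induction h with
  | nil => intro R _ _; simp
  | @cons l V C hl hEC hlC hVC ih =>
    intro R hER _
    by_cases hVR : V ≤ R
    · have hlt : R ⊓ C < R := lt_of_le_of_ne inf_le_left
        (fun he => hVC (hVR.trans (he ▸ inf_le_right)))
      have hE : E ≤ R ⊓ C := le_inf hER hEC
      classical
      have h1 := ih (R ⊓ C) hE
      have h2 := S.rk_lt hlt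
      have h3 := S.rk_le hE
      have h4 : l.countP (· ≤ R) = l.countP (· ≤ R ⊓ C) := by
        apply List.countP_congr
        intro W hW
        simp only [decide_eq_true_eq]
        exact ⟨fun h => le_inf h (hlC W hW), fun h => h.trans inf_le_left⟩
      rw [List.countP_cons_of_pos (by simpa using hVR), h4]
      omega
    · rw [List.countP_cons_of_neg (by simpa using hVR)]
      exact ih R hER

/-- Every face contains an independent list of atoms of full length. -/
lemma exists_indep {E J : L} (h : E ≤ J) : ∃ l : List L, Indep E l ∧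
    l.length = S.rk J - S.rk E ∧ ∀ V ∈ l, E ≤ V ∧ V ≤ J ∧ S.rk V = S.rk E + 1 := by
  induction' hn : S.rk J - S.rk E with n ih generalizing J
  · exact ⟨[], Indep.nil, rfl, by simp⟩
  · have hlt : E < J := S.lt_of_rk_lt h (by omega)
    obtain ⟨K, k1, k2, k3⟩ := S.exists_facet hlt
    obtain ⟨l, l1, l2, l3⟩ := ih k1 (by omega)
    obtain ⟨V, v1, v2, v3, v4⟩ := S.exists_atom_not_le k1 k2 k3
    refine ⟨V :: l, Indep.cons l1 k1 (fun W hW => (l3 W hW).2.1) v4, by simp [l2], ?_⟩
    intro W hW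
    rcases List.mem_cons.1 hW with rfl | hW
    · exact ⟨v1, v2, v3⟩
    · exact ⟨(l3 W hW).1, (l3 W hW).2.1.trans k2, (l3 W hW).2.2⟩

/-- Lifting an independent list from the interval above an atom `V`. -/
lemma Indep.lift {E V : L} (hEV : E ≤ V) (hV : S.rk V = S.rk E + 1) {l : List L}
    (h : Indep V l) (hl : ∀ W ∈ l, V ≤ W ∧ S.rk W = S.rk V + 1) :
    ∃ l' : List L, Indep E l' ∧ l'.length = l.length + 1 ∧ (∀ U ∈ l', E ≤ U ∧ S.rk U = S.rk E + 1 ∧
      (U = V ∨ ∃ W ∈ l, U ≤ W)) ∧ (∀ C, V ≤ C → (∀ W ∈ l, W ≤ C) → ∀ U ∈ l', U ≤ C) := by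
  induction h with
  | nil =>
    refine ⟨[V], ?_, rfl, ?_, ?_⟩
    · exact Indep.cons Indep.nil (le_refl E) (by simp) (S.not_le_of_rk_lt (by omega))
    · intro U hU
      rw [List.mem_singleton] at hU
      subst hU
      exact ⟨hEV, hV, Or.inl rfl⟩
    · intro C hC _ U hU
      rw [List.mem_singleton] at hU
      subst hU
      exact hC
  | @cons l W C hl' hVC hlC hWC ih =>
    obtain ⟨l', a1, a2, a3, a4⟩ := ih (fun U hU => hl U (List.mem_cons_of_mem _ hU))
    obtain ⟨hVW, hWr⟩ := hl W List.mem_cons_self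
    obtain ⟨U, u1, u2, u3, u4⟩ := S.exists_atom_not_le hEV hVW (by omega)
    refine ⟨U :: l', ?_, by simp [a2], ?_, ?_⟩
    · refine Indep.cons a1 (hEV.trans hVC) (fun U' hU' => a4 C hVC hlC U' hU') ?_
      intro hUC
      -- `C ⊓ W` contains `V` and `U`, so it is `W`
      have h1 : V ≤ C ⊓ W := le_inf hVC hVW
      have h2 : V < C ⊓ W := lt_of_le_of_ne h1 (fun he => u4 (by
        rw [he]; exact le_inf hUC u2))
      have h3 := S.rk_lt h2
      have h4 : C ⊓ W = W := S.eq_of_le_of_rk_le inf_le_right (by omega)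
      exact hWC (h4 ▸ inf_le_left)
    · intro U' hU'
      rcases List.mem_cons.1 hU' with rfl | hU'
      · exact ⟨u1, u3, Or.inr ⟨W, List.mem_cons_self, u2⟩⟩
      · obtain ⟨b1, b2, b3⟩ := a3 U' hU'
        refine ⟨b1, b2, b3.imp id ?_⟩
        rintro ⟨W', hW', hle⟩
        exact ⟨W', List.mem_cons_of_mem _ hW', hle⟩
    · intro C' hC' hall U' hU'
      rcases List.mem_cons.1 hU' with rfl | hU'
      · exact u2.trans (hall W List.mem_cons_self)
      · exact a4 C' hC' (fun W' hW' => hall W' (List.mem_cons_of_mem _ hW')) U' hU'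

end FaceLat

end Pool.Agent.Sallee
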