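import Mathlib
import Pool.Agent.Lib.MP_db3372_co.Basics

/-!
# The one-coloured inequality
-/

set_option autoImplicit false

namespace Pool.Agent.Sallee

open Finset Relation

/-- `C(n, k) * (k + 1) / (n + 1)`-type identities over the reals. -/
lemma choose_pred_pred (n k : ℕ) (hn : 1 ≤ n) (hk : 1 ≤ k) :
    (((n - 1).choose (k - 1) : ℕ) : ℝ) = (n.choose k : ℝ) * (k / n) := by
  obtain ⟨n, rfl⟩ : ∃ m, n = m + 1 := ⟨n - 1, by omega⟩
  obtain ⟨k, rfl⟩ : ∃ m, k = m + 1 := ⟨k - 1, by omega⟩
  have h := Nat.add_one_mul_choose_eq n k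
  have h' : ((n : ℝ) + 1) * (n.choose k : ℝ) = ((n + 1).choose (k + 1) : ℝ) * ((k : ℝ) + 1) := by
    exact_mod_cast h
  simp only [Nat.add_sub_cancel]
  push_cast
  have hn0 : (n : ℝ) + 1 ≠ 0 := by positivity
  rw [← mul_div_assoc, eq_div_iff hn0, ← h']
  ring

lemma choose_pred (n k : ℕ) (hn : 1 ≤ n) (hk : k ≤ n) :
    (((n - 1).choose k : ℕ) : ℝ) = (n.choose k : ℝ) * ((n - k) / n) := by
  obtain ⟨n, rfl⟩ : ∃ m, n = m + 1 := ⟨n - 1, by omega⟩
  have h := Nat.choose_mul_succ_eq n k
  have h' : (n.choose k : ℝ) * ((n : ℝ) + 1) = ((n + 1).choose k : ℝ) * (((n : ℝ) + 1) - k) := by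
    have h2 : ((n.choose k * (n + 1) : ℕ) : ℝ) = (((n + 1).choose k * (n + 1 - k) : ℕ) : ℝ) := by
      exact_mod_cast h
    rw [Nat.cast_mul, Nat.cast_mul, Nat.cast_sub hk] at h2
    push_cast at h2
    exact h2
  simp only [Nat.add_sub_cancel]
  push_cast
  have hn0 : (n : ℝ) + 1 ≠ 0 := by positivity
  rw [← mul_div_assoc, eq_div_iff hn0, ← h']

/-- Numerical part: a member that is not light gives a contradiction. -/
lemma light_aux (N σ κ ρ x₁ x₂ y₁ y₂ : ℝ) (hσ : 0 < σ) (hσN : σ < N) (hρ : 0 < ρ) (hρκ : ρ < κ)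
    (hcond : N - σ ≤ κ - ρ) (hρσ : ρ ≤ σ)
    (h1 : 1 ≤ N / σ * x₁ + κ / ρ * y₁) (h2 : 1 ≤ N / (N - σ) * x₂ + κ / (κ - ρ) * y₂)
    (hlt : x₁ + x₂ < 1 - (y₁ + y₂)) : (N - σ) / N * (1 - (y₁ + y₂)) ≤ x₂ := by
  by_contra hcon
  rw [not_le] at hcon
  set W := 1 - (y₁ + y₂) with hW
  have hN : 0 < N := by linarith
  have hκ : 0 < κ := by linarith
  have hNσ : 0 < N - σ := by linarith
  have hκρ : 0 < κ - ρ := by linarith
  set a₁ := ρ * N / (κ * σ) with ha₁
  set a₂ := (κ - ρ) * N / (κ * (N - σ)) with ha₂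
  have h1' : ρ / κ ≤ a₁ * x₁ + y₁ := by
    have := mul_le_mul_of_nonneg_left h1 (show 0 ≤ ρ / κ by positivity)
    have e : ρ / κ * (N / σ * x₁ + κ / ρ * y₁) = a₁ * x₁ + y₁ := by
      rw [ha₁]; field_simp
    rw [mul_one, e] at this
    exact this
  have h2' : (κ - ρ) / κ ≤ a₂ * x₂ + y₂ := by
    have := mul_le_mul_of_nonneg_left h2 (show 0 ≤ (κ - ρ) / κ by positivity)
    have e : (κ - ρ) / κ * (N / (N - σ) * x₂ + κ / (κ - ρ) * y₂) = a₂ * x₂ + y₂ := by
      rw [ha₂]; field_simp
    rw [mul_one, e] at this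
    exact this
  have hsum : ρ / κ + (κ - ρ) / κ = 1 := by field_simp; ring
  have hWle : W ≤ a₁ * x₁ + a₂ * x₂ := by rw [hW]; linarith
  have ha₁pos : 0 < a₁ := by positivity
  have ha : a₁ ≤ a₂ := by
    rw [ha₁, ha₂, div_le_div_iff₀ (by positivity) (by positivity)]
    have : ρ * (N - σ) ≤ (κ - ρ) * σ := by nlinarith
    nlinarith [mul_le_mul_of_nonneg_left this (show 0 ≤ N * κ by positivity)]
  have hid : a₁ * (σ / N) + a₂ * ((N - σ) / N) = 1 := by
    rw [ha₁, ha₂]
    have hne : N - σ ≠ 0 := hNσ.ne'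
    field_simp
    ring
  have e1 : a₁ * (x₁ + x₂) < a₁ * W := mul_lt_mul_of_pos_left hlt ha₁pos
  have e2 : (a₂ - a₁) * x₂ ≤ (a₂ - a₁) * ((N - σ) / N * W) :=
    mul_le_mul_of_nonneg_left hcon.le (by linarith)
  have e3 : (σ / N) + ((N - σ) / N) = 1 := by field_simp; ring
  have e4 : a₁ * W + (a₂ - a₁) * ((N - σ) / N * W) = W := by
    have : a₁ * W + (a₂ - a₁) * ((N - σ) / N * W) =
      (a₁ * (1 - (N - σ) / N) + a₂ * ((N - σ) / N)) * W := by ring
    rw [this, show 1 - (N - σ) / N = σ / N by linarith, hid, one_mul]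
  nlinarith

namespace FaceLat

variable {L : Type*} [SemilatticeInf L] (S : FaceLat L)

open Classical in
lemma sum_card_filter_le {E : L} {l : List L} (h : Indep E l) (T : Finset L) (ρ : ℕ)
    (hT : ∀ R ∈ T, E ≤ R ∧ S.rk R - S.rk E ≤ ρ) :
    (l.map (fun V => (T.filter (fun R => V ≤ R)).card)).sum ≤ ρ * T.card := by
  induction T using Finset.induction_on with
  | empty => simp
  | @insert R T hR ih =>
    have ih' := ih (fun R' hR' => hT R' (Finset.mem_insert_of_mem hR'))
    have hle := h.countP_le S R (hT R (Finset.mem_insert_self _ _)).1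
    have hle2 := (hT R (Finset.mem_insert_self _ _)).2
    have hsum : (l.map (fun V => ((insert R T).filter (fun R' => V ≤ R')).card)).sum =
        l.countP (· ≤ R) + (l.map (fun V => (T.filter (fun R => V ≤ R)).card)).sum := by
      clear ih ih' hle h
      induction l with
      | nil => simp
      | cons V l ihl =>
        rw [List.map_cons, List.sum_cons, ihl, List.map_cons, List.sum_cons]
        by_cases hV : V ≤ R
        · rw [List.countP_cons_of_pos (by simpa using hV), Finset.filter_insert, if_pos hV,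
            Finset.card_insert_of_notMem (by simp [hR])]
          omega
        · rw [List.countP_cons_of_neg (by simpa using hV), Finset.filter_insert, if_neg hV]
          omega
    rw [hsum, Finset.card_insert_of_notMem hR, mul_add, mul_one]
    omega

open Classical in
lemma length_mul_le {E : L} {l : List L} (h : Indep E l) (T : Finset L) (ρ : ℕ)
    (hT : ∀ R ∈ T, E ≤ R ∧ S.rk R - S.rk E ≤ ρ) (c : ℝ)
    (hc : ∀ V ∈ l, c ≤ ((T.filter (fun R => V ≤ R)).card : ℝ)) :
    (l.length : ℝ) * c ≤ ρ * T.card := by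
  have h1 := S.sum_card_filter_le h T ρ hT
  have h2 : (l.length : ℝ) * c ≤
      ((l.map (fun V => (T.filter (fun R => V ≤ R)).card)).sum : ℕ) := by
    clear h1 h
    induction l with
    | nil => simp
    | cons V l ih =>
      rw [List.map_cons, List.sum_cons, List.length_cons]
      push_cast
      have := hc V List.mem_cons_self
      have := ih (fun W hW => hc W (List.mem_cons_of_mem _ hW))
      push_cast at this
      linarith
  refine h2.trans ?_
  exact_mod_cast h1

variable [Fintype L]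

/-- `R` lies in a face of rank `t` satisfying `A`, inside `H`. -/
def Sees (A : L → Prop) (t : ℕ) (H R : L) : Prop := ∃ G, A G ∧ R ≤ G ∧ G ≤ H ∧ S.rk G = t

open Classical in
/-- Faces of rank `t` in `[E, F]` outside `A`. -/
noncomputable def zset (A : L → Prop) (t : ℕ) (E F : L) : Finset L :=
  (S.lev E F t).filter (fun G => ¬ A G)

open Classical in
/-- Faces of rank `q` in `[E, J]` that see `A` inside `F`. -/
noncomputable def yset (A : L → Prop) (t q : ℕ) (E J F : L) : Finset L :=
  (S.lev E J q).filter (fun R => S.Sees A t F R)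

theorem lym1 (A : L → Prop) (t q : ℕ) : ∀ (n : ℕ) (E J F : L), S.rk F - S.rk E = n → E ≤ J →
    J ≤ F → S.rk E ≤ q → q ≤ S.rk J → S.rk J < t → t ≤ S.rk F → S.rk F + q ≤ S.rk J + t →
    (1 : ℝ) ≤ ((S.zset A t E F).card : ℝ) / ((S.rk F - S.rk E).choose (t - S.rk E) : ℕ) +
      ((S.yset A t q E J F).card : ℝ) / ((S.rk J - S.rk E).choose (q - S.rk E) : ℕ) := by
  classical
  intro n
  induction n with
  | zero =>
    intro E J F hn hEJ hJF h1 h2 h3 h4 h5
    have := S.rk_le hEJ
    omega
  | succ n ih =>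
    intro E J F hn hEJ hJF hEq hqJ hJt htF hcond
    have hrEJ := S.rk_le hEJ
    have hrJF := S.rk_le hJF
    -- base case `q = rk E`
    have hMpos : (0 : ℝ) < ((S.rk J - S.rk E).choose (q - S.rk E) : ℕ) := by
      exact_mod_cast Nat.choose_pos (by omega)
    have hDpos : (0 : ℝ) < ((S.rk F - S.rk E).choose (t - S.rk E) : ℕ) := by
      exact_mod_cast Nat.choose_pos (by omega)
    rcases eq_or_lt_of_le hEq with hq0 | hq0
    · by_cases hA : ∃ G, A G ∧ E ≤ G ∧ G ≤ F ∧ S.rk G = t
      · have hy : 1 ≤ (S.yset A t q E J F).card := by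
          rw [Finset.one_le_card]
          refine ⟨E, ?_⟩
          rw [yset, Finset.mem_filter, S.mem_lev]
          exact ⟨⟨le_rfl, hEJ, hq0⟩, hA⟩
        have hM1 : ((S.rk J - S.rk E).choose (q - S.rk E) : ℕ) = 1 := by
          rw [show q - S.rk E = 0 by omega, Nat.choose_zero_right]
        rw [hM1, Nat.cast_one, div_one]
        have : (0 : ℝ) ≤ ((S.zset A t E F).card : ℝ) /
            ((S.rk F - S.rk E).choose (t - S.rk E) : ℕ) := by positivity
        have h1 : (1 : ℝ) ≤ ((S.yset A t q E J F).card : ℝ) := by exact_mod_cast hy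
        linarith
      · have hz : S.zset A t E F = S.lev E F t := by
          rw [zset, Finset.filter_true_of_mem]
          intro G hG hAG
          rw [S.mem_lev] at hG
          exact hA ⟨G, hAG, hG.1, hG.2.1, hG.2.2⟩
        have hc := S.card_lev (hEJ.trans hJF) (show S.rk E ≤ t by omega) htF
        rw [← hz] at hc
        have : (1 : ℝ) ≤ ((S.zset A t E F).card : ℝ) /
            ((S.rk F - S.rk E).choose (t - S.rk E) : ℕ) := by
          rw [one_le_div hDpos]
          exact_mod_cast hc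
        have h2 : (0 : ℝ) ≤ ((S.yset A t q E J F).card : ℝ) /
            ((S.rk J - S.rk E).choose (q - S.rk E) : ℕ) := by positivity
        linarith
    -- base case `t = rk F`
    rcases eq_or_lt_of_le htF with htF' | htF'
    · by_cases hA : A F
      · have hy : S.yset A t q E J F = S.lev E J q := by
          rw [yset, Finset.filter_true_of_mem]
          intro R hR
          rw [S.mem_lev] at hR
          exact ⟨F, hA, hR.2.1.trans hJF, le_rfl, htF'.symm⟩
        have hc := S.card_lev hEJ hEq hqJ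
        rw [← hy] at hc
        have : (1 : ℝ) ≤ ((S.yset A t q E J F).card : ℝ) /
            ((S.rk J - S.rk E).choose (q - S.rk E) : ℕ) := by
          rw [one_le_div hMpos]
          exact_mod_cast hc
        have h2 : (0 : ℝ) ≤ ((S.zset A t E F).card : ℝ) /
            ((S.rk F - S.rk E).choose (t - S.rk E) : ℕ) := by positivity
        linarith
      · have hz : 1 ≤ (S.zset A t E F).card := by
          rw [Finset.one_le_card]
          refine ⟨F, ?_⟩
          rw [zset, Finset.mem_filter, S.mem_lev]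
          exact ⟨⟨hEJ.trans hJF, le_rfl, htF'.symm⟩, hA⟩
        have hD1 : ((S.rk F - S.rk E).choose (t - S.rk E) : ℕ) = 1 := by
          rw [htF', Nat.choose_self]
        rw [hD1, Nat.cast_one, div_one]
        have : (0 : ℝ) ≤ ((S.yset A t q E J F).card : ℝ) /
            ((S.rk J - S.rk E).choose (q - S.rk E) : ℕ) := by positivity
        have h1 : (1 : ℝ) ≤ ((S.zset A t E F).card : ℝ) := by exact_mod_cast hz
        linarith
    have hqJ' : q < S.rk J := by omega
    -- real parameters
    set N : ℝ := ((S.rk F - S.rk E : ℕ) : ℝ) with hN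
    set σ : ℝ := ((t - S.rk E : ℕ) : ℝ) with hσ
    set κ : ℝ := ((S.rk J - S.rk E : ℕ) : ℝ) with hκ
    set ρ : ℝ := ((q - S.rk E : ℕ) : ℝ) with hρ
    set D : ℝ := (((S.rk F - S.rk E).choose (t - S.rk E) : ℕ) : ℝ) with hD
    set M : ℝ := (((S.rk J - S.rk E).choose (q - S.rk E) : ℕ) : ℝ) with hM
    have hσ0 : 0 < σ := by rw [hσ]; exact_mod_cast (show 0 < t - S.rk E by omega)
    have hσN : σ < N := by rw [hσ, hN]; exact_mod_cast (show t - S.rk E < S.rk F - S.rk E by omega)
    have hρ0 : 0 < ρ := by rw [hρ]; exact_mod_cast (show 0 < q - S.rk E by omega)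
    have hρκ : ρ < κ := by rw [hρ, hκ]; exact_mod_cast (show q - S.rk E < S.rk J - S.rk E by omega)
    have hρσ : ρ ≤ σ := by rw [hρ, hσ]; exact_mod_cast (show q - S.rk E ≤ t - S.rk E by omega)
    have hcond' : N - σ ≤ κ - ρ := by
      have : (S.rk F - S.rk E) + (q - S.rk E) ≤ (S.rk J - S.rk E) + (t - S.rk E) := by omega
      have : N + ρ ≤ κ + σ := by
        rw [hN, hρ, hκ, hσ]; exact_mod_cast this
      linarith
    have hN0 : 0 < N := by linarith
    have hκ0 : 0 < κ := by linarith
    have hNσ : 0 < N - σ := by linarith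
    have hκρ : 0 < κ - ρ := by linarith
    by_contra hcon
    rw [not_le] at hcon
    set Z : ℝ := ((S.zset A t E F).card : ℝ) / D with hZ
    set Y : ℝ := ((S.yset A t q E J F).card : ℝ) / M with hY
    -- every atom of `J` is light
    have hlight : ∀ V, E ≤ V → V ≤ J → S.rk V = S.rk E + 1 →
        (1 : ℝ) ≤ N / σ * ((((S.zset A t E F).filter (fun G => V ≤ G)).card : ℝ) / D) +
          κ / ρ * ((((S.yset A t q E J F).filter (fun R => V ≤ R)).card : ℝ) / M) ∧
        (N - σ) / N * (1 - Y) ≤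
          ((((S.zset A t E F).filter (fun G => ¬ V ≤ G)).card : ℝ) / D) := by
      intro V hEV hVJ hVr
      -- the interval above `V`
      have i1 := ih V J F (by omega) hVJ hJF (by omega) hqJ hJt htF hcond
      have ez : S.zset A t V F = (S.zset A t E F).filter (fun G => V ≤ G) := by
        ext G
        simp only [zset, Finset.mem_filter, S.mem_lev]
        exact ⟨fun ⟨⟨a, b, c⟩, e⟩ => ⟨⟨⟨hEV.trans a, b, c⟩, e⟩, a⟩,
          fun ⟨⟨⟨_, b, c⟩, e⟩, a⟩ => ⟨⟨a, b, c⟩, e⟩⟩
      have ey : S.yset A t q V J F = (S.yset A t q E J F).filter (fun G => V ≤ G) := by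
        ext G
        simp only [yset, Finset.mem_filter, S.mem_lev]
        exact ⟨fun ⟨⟨a, b, c⟩, e⟩ => ⟨⟨⟨hEV.trans a, b, c⟩, e⟩, a⟩,
          fun ⟨⟨⟨_, b, c⟩, e⟩, a⟩ => ⟨⟨a, b, c⟩, e⟩⟩
      rw [ez, ey] at i1
      have c1 : (((S.rk F - S.rk V).choose (t - S.rk V) : ℕ) : ℝ) = D * (σ / N) := by
        rw [show S.rk F - S.rk V = (S.rk F - S.rk E) - 1 by omega,
          show t - S.rk V = (t - S.rk E) - 1 by omega]
        exact choose_pred_pred _ _ (by omega) (by omega)
      have c2 : (((S.rk J - S.rk V).choose (q - S.rk V) : ℕ) : ℝ) = M * (ρ / κ) := by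
        rw [show S.rk J - S.rk V = (S.rk J - S.rk E) - 1 by omega,
          show q - S.rk V = (q - S.rk E) - 1 by omega]
        exact choose_pred_pred _ _ (by omega) (by omega)
      rw [c1, c2] at i1
      have i1' : (1 : ℝ) ≤ N / σ * ((((S.zset A t E F).filter (fun G => V ≤ G)).card : ℝ) / D) +
          κ / ρ * ((((S.yset A t q E J F).filter (fun R => V ≤ R)).card : ℝ) / M) := by
        refine i1.trans (le_of_eq ?_)
        field_simp
      refine ⟨i1', ?_⟩
      -- the part avoiding `V`
      have hVE : ¬ V ≤ E := S.not_le_of_rk_lt (by omega)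
      obtain ⟨J', a1, a2, a3, a4⟩ := S.facet hEJ hVJ hVE
      obtain ⟨F', b1, b2, b3, b4⟩ := S.facet (a2.trans hJF) (hVJ.trans hJF) a4
      have i2 := ih E J' F' (by omega) a1 b1 hEq (by omega) (by omega) (by omega) (by omega)
      have c3 : (((S.rk F' - S.rk E).choose (t - S.rk E) : ℕ) : ℝ) = D * ((N - σ) / N) := by
        rw [show S.rk F' - S.rk E = (S.rk F - S.rk E) - 1 by omega]
        exact choose_pred _ _ (by omega) (by omega)
      have c4 : (((S.rk J' - S.rk E).choose (q - S.rk E) : ℕ) : ℝ) = M * ((κ - ρ) / κ) := by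
        rw [show S.rk J' - S.rk E = (S.rk J - S.rk E) - 1 by omega]
        exact choose_pred _ _ (by omega) (by omega)
      have sz : (S.zset A t E F').card ≤ ((S.zset A t E F).filter (fun G => ¬ V ≤ G)).card := by
        apply Finset.card_le_card
        intro G
        simp only [zset, Finset.mem_filter, S.mem_lev]
        exact fun ⟨⟨a, b, c⟩, e⟩ => ⟨⟨⟨a, b.trans b2, c⟩, e⟩, fun h => b4 (h.trans b)⟩
      have sy : (S.yset A t q E J' F').card ≤
          ((S.yset A t q E J F).filter (fun G => ¬ V ≤ G)).card := by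
        apply Finset.card_le_card
        intro G
        simp only [yset, Finset.mem_filter, S.mem_lev]
        rintro ⟨⟨a, b, c⟩, ⟨G', g1, g2, g3, g4⟩⟩
        exact ⟨⟨⟨a, b.trans a2, c⟩, ⟨G', g1, g2, g3.trans b2, g4⟩⟩, fun h => a4 (h.trans b)⟩
      rw [c3, c4] at i2
      have i2' : (1 : ℝ) ≤ N / (N - σ) *
            ((((S.zset A t E F).filter (fun G => ¬ V ≤ G)).card : ℝ) / D) +
          κ / (κ - ρ) * ((((S.yset A t q E J F).filter (fun R => ¬ V ≤ R)).card : ℝ) / M) := by
        have e1 : ((S.zset A t E F').card : ℝ) / (D * ((N - σ) / N)) ≤ N / (N - σ) *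
            ((((S.zset A t E F).filter (fun G => ¬ V ≤ G)).card : ℝ) / D) := by
          have : ((S.zset A t E F').card : ℝ) ≤
            (((S.zset A t E F).filter (fun G => ¬ V ≤ G)).card : ℝ) := by exact_mod_cast sz
          rw [show N / (N - σ) * ((((S.zset A t E F).filter (fun G => ¬ V ≤ G)).card : ℝ) / D) =
            (((S.zset A t E F).filter (fun G => ¬ V ≤ G)).card : ℝ) / (D * ((N - σ) / N)) by
              field_simp]
          exact div_le_div_of_nonneg_right this (by positivity)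
        have e2 : ((S.yset A t q E J' F').card : ℝ) / (M * ((κ - ρ) / κ)) ≤ κ / (κ - ρ) *
            ((((S.yset A t q E J F).filter (fun G => ¬ V ≤ G)).card : ℝ) / M) := by
          have : ((S.yset A t q E J' F').card : ℝ) ≤
            (((S.yset A t q E J F).filter (fun G => ¬ V ≤ G)).card : ℝ) := by exact_mod_cast sy
          rw [show κ / (κ - ρ) * ((((S.yset A t q E J F).filter (fun G => ¬ V ≤ G)).card : ℝ) / M) =
            (((S.yset A t q E J F).filter (fun G => ¬ V ≤ G)).card : ℝ) / (M * ((κ - ρ) / κ)) by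
              field_simp]
          exact div_le_div_of_nonneg_right this (by positivity)
        linarith
      have hyy : Y = ((((S.yset A t q E J F).filter (fun R => V ≤ R)).card : ℝ) / M) +
          ((((S.yset A t q E J F).filter (fun R => ¬ V ≤ R)).card : ℝ) / M) := by
        rw [hY, ← add_div, ← Nat.cast_add, Finset.card_filter_add_card_filter_not]
      have hzz : Z = ((((S.zset A t E F).filter (fun R => V ≤ R)).card : ℝ) / D) +
          ((((S.zset A t E F).filter (fun R => ¬ V ≤ R)).card : ℝ) / D) := by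
        rw [hZ, ← add_div, ← Nat.cast_add, Finset.card_filter_add_card_filter_not]
      rw [hyy]
      apply light_aux N σ κ ρ _ _ _ _ hσ0 hσN hρ0 hρκ hcond' hρσ i1' i2'
      rw [← hyy, ← hzz]
      linarith
    -- averaging
    obtain ⟨l, l1, l2, l3⟩ := S.exists_indep hEJ
    set W := 1 - Y with hW
    have hlen : (l.length : ℝ) = κ := by rw [l2]
    have hb : ∀ V ∈ l, M * (ρ / κ) * (1 - N / σ * (Z - (N - σ) / N * W)) ≤
        (((S.yset A t q E J F).filter (fun R => V ≤ R)).card : ℝ) := by
      intro V hV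
      obtain ⟨v1, v2, v3⟩ := l3 V hV
      obtain ⟨h1, h2⟩ := hlight V v1 v2 v3
      have hzz : Z = ((((S.zset A t E F).filter (fun R => V ≤ R)).card : ℝ) / D) +
          ((((S.zset A t E F).filter (fun R => ¬ V ≤ R)).card : ℝ) / D) := by
        rw [hZ, ← add_div, ← Nat.cast_add, Finset.card_filter_add_card_filter_not]
      set x₁ := ((((S.zset A t E F).filter (fun R => V ≤ R)).card : ℝ) / D) with hx₁
      have hx : x₁ ≤ Z - (N - σ) / N * W := by linarith
      have h3 : 1 - N / σ * (Z - (N - σ) / N * W) ≤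
          κ / ρ * ((((S.yset A t q E J F).filter (fun R => V ≤ R)).card : ℝ) / M) := by
        have := mul_le_mul_of_nonneg_left hx (show 0 ≤ N / σ by positivity)
        linarith
      have h4 := mul_le_mul_of_nonneg_left h3 (show 0 ≤ M * (ρ / κ) by positivity)
      refine h4.trans (le_of_eq ?_)
      field_simp
    have havg := S.length_mul_le l1 (S.yset A t q E J F) (q - S.rk E) (by
      intro R hR
      simp only [yset, Finset.mem_filter, S.mem_lev] at hR
      exact ⟨hR.1.1, by rw [hR.1.2.2]⟩) _ hb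
    rw [hlen] at havg
    have hYM : ((S.yset A t q E J F).card : ℝ) = Y * M := by
      rw [hY]; field_simp
    rw [hYM, ← hρ] at havg
    -- `κ * (M * (ρ/κ) * (1 - ...)) ≤ ρ * (Y * M)`
    have h5 : 1 - N / σ * (Z - (N - σ) / N * W) ≤ Y := by
      have e : κ * (M * (ρ / κ) * (1 - N / σ * (Z - (N - σ) / N * W))) =
        (ρ * M) * (1 - N / σ * (Z - (N - σ) / N * W)) := by field_simp
      rw [e, show ρ * (Y * M) = (ρ * M) * Y by ring] at havg
      exact le_of_mul_le_mul_left havg (by positivity)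
    have h6 : W ≤ N / σ * (Z - (N - σ) / N * W) := by rw [hW]; linarith
    have h7 : N / σ * (Z - (N - σ) / N * W) = (N * Z - (N - σ) * W) / σ := by field_simp
    rw [h7, le_div_iff₀ hσ0] at h6
    have h8 : N * W ≤ N * Z := by linarith
    have h9 : W ≤ Z := le_of_mul_le_mul_left h8 hN0
    rw [hW] at h9
    linarith

end FaceLat

end Pool.Agent.Sallee
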