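import Mathlib
import Pool.Agent.Lib.MP_db3372_co.Lym1

/-!
# Two-coloured atoms
-/

set_option autoImplicit false

namespace Pool.Agent.Sallee

open Finset Relation

lemma exists_edge_of_reflTransGen {α : Type*} {R : α → α → Prop} {a b : α}
    (h : ReflTransGen R a b) {p : α → Prop} (ha : p a) (hb : ¬ p b) :
    ∃ c d, R c d ∧ p c ∧ ¬ p d := by
  induction h with
  | refl => exact absurd ha hb
  | @tail c d hac hcd ih =>
    by_cases hc : p c
    · exact ⟨c, d, hcd, hc, hb⟩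
    · exact ih hc

namespace FaceLat

variable {L : Type*} [SemilatticeInf L] (S : FaceLat L)

/-- `G` contains atoms of both types. -/
def Bi (p : L → Prop) (E G : L) : Prop :=
  (∃ V, E ≤ V ∧ V ≤ G ∧ S.rk V = S.rk E + 1 ∧ p V) ∧
  (∃ V, E ≤ V ∧ V ≤ G ∧ S.rk V = S.rk E + 1 ∧ ¬ p V)

variable {S}

lemma Bi.mono {p : L → Prop} {E G G' : L} (h : S.Bi p E G) (hle : G ≤ G') : S.Bi p E G' := by
  obtain ⟨⟨V, a, b, c, d⟩, ⟨V', a', b', c', d'⟩⟩ := h
  exact ⟨⟨V, a, b.trans hle, c, d⟩, ⟨V', a', b'.trans hle, c', d'⟩⟩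

variable (S)

/-- If no facet avoiding the atom `u` has both types, all other atoms have the same type. -/
lemma mono_type (p : L → Prop) {E H u : L} (hEu : E ≤ u) (huH : u ≤ H) (hu : S.rk u = S.rk E + 1)
    (hr : S.rk E + 3 ≤ S.rk H) (hmono : ∀ F, IsFac S.rk E u H F → ¬ S.Bi p E F)
    {V W : L} (hV : E ≤ V ∧ V ≤ H ∧ S.rk V = S.rk E + 1 ∧ V ≠ u)
    (hW : E ≤ W ∧ W ≤ H ∧ S.rk W = S.rk E + 1 ∧ W ≠ u) (hpV : p V) : p W := by
  obtain ⟨F₁, a1, a2, a3, a4⟩ := S.facet hV.2.1 huH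
    (S.atom_not_le hu hV.2.2.1 (Ne.symm hV.2.2.2))
  obtain ⟨F₂, b1, b2, b3, b4⟩ := S.facet hW.2.1 huH
    (S.atom_not_le hu hW.2.2.1 (Ne.symm hW.2.2.2))
  have f1 : IsFac S.rk E u H F₁ := ⟨hV.1.trans a1, a2, a3, a4⟩
  have f2 : IsFac S.rk E u H F₂ := ⟨hW.1.trans b1, b2, b3, b4⟩
  by_contra hpW
  obtain ⟨F, F', hadj, hF, hF'⟩ := exists_edge_of_reflTransGen (S.conn hEu huH hu f1 f2)
    (p := fun F => ∃ U, E ≤ U ∧ U ≤ F ∧ S.rk U = S.rk E + 1 ∧ p U)
    ⟨V, hV.1, a1, hV.2.2.1, hpV⟩ (by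
      rintro ⟨U, u1, u2, u3, u4⟩
      exact hmono F₂ f2 ⟨⟨U, u1, u2, u3, u4⟩, ⟨W, hW.1, b1, hW.2.2.1, hpW⟩⟩)
  obtain ⟨g1, g2, g3⟩ := hadj
  have hlt : E < F ⊓ F' := S.lt_of_rk_lt (le_inf g1.1 g2.1) (by omega)
  obtain ⟨U, u1, u2, u3⟩ := S.exists_atom hlt
  by_cases hpU : p U
  · exact hF' ⟨U, u1, u2.trans inf_le_right, u3, hpU⟩
  · exact hmono F g1 ⟨hF, ⟨U, u1, u2.trans inf_le_left, u3, hpU⟩⟩

variable [Fintype L]

open Classical in
theorem bitype (n : ℕ) : ∀ (p : L → Prop) (E H : L) (t : ℕ), S.rk H - S.rk E = n → E ≤ H →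
    S.rk E + 2 ≤ t → t ≤ S.rk H → S.Bi p E H →
    (n - 1).choose (t - S.rk E - 1) ≤ ((S.lev E H t).filter (fun G => S.Bi p E G)).card := by
  induction n with
  | zero =>
    intro p E H t hn hEH h1 h2
    omega
  | succ n ih =>
    intro p E H t hn hEH h1 h2 hBi
    rcases eq_or_lt_of_le h2 with h2 | h2
    · rw [show t - S.rk E - 1 = n + 1 - 1 by omega, Nat.choose_self, Finset.one_le_card]
      exact ⟨H, Finset.mem_filter.2 ⟨S.mem_lev.2 ⟨hEH, le_rfl, h2.symm⟩, hBi⟩⟩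
    by_contra hcon
    rw [not_le] at hcon
    -- every atom is avoided by a facet with both types
    have key : ∀ u, E ≤ u → u ≤ H → S.rk u = S.rk E + 1 →
        ∃ F, IsFac S.rk E u H F ∧ S.Bi p E F := by
      intro u hEu huH hu
      by_contra hno
      push Not at hno
      apply absurd hcon
      rw [not_lt]
      have hc := S.card_lev huH (show S.rk u ≤ t by omega) h2.le
      rw [show S.rk H - S.rk u = n + 1 - 1 by omega,
        show t - S.rk u = t - S.rk E - 1 by omega] at hc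
      refine hc.trans (Finset.card_le_card ?_)
      intro G hG
      rw [S.mem_lev] at hG
      obtain ⟨g1, g2, g3⟩ := hG
      rw [Finset.mem_filter, S.mem_lev]
      refine ⟨⟨hEu.trans g1, g2, g3⟩, ?_⟩
      -- another atom of `G`
      have hEG : E ≤ G := hEu.trans g1
      obtain ⟨J, j1, j2, j3, j4⟩ := S.facet hEG g1 (S.not_le_of_rk_lt (by omega) : ¬ u ≤ E)
      obtain ⟨V, v1, v2, v3⟩ := S.exists_atom (S.lt_of_rk_lt j1 (by omega))
      have hVu : V ≠ u := fun h => j4 (h ▸ v2)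
      have hVH : V ≤ H := (v2.trans j2).trans g2
      obtain ⟨⟨P, p1, p2, p3, p4⟩, ⟨Q, q1, q2, q3, q4⟩⟩ := hBi
      by_cases hpu : p u
      · refine ⟨⟨u, hEu, g1, hu, hpu⟩, ⟨V, v1, v2.trans j2, v3, ?_⟩⟩
        intro hpV
        have hQu : Q ≠ u := fun h => q4 (h ▸ hpu)
        exact q4 (S.mono_type p hEu huH hu (by omega) hno ⟨v1, hVH, v3, hVu⟩
          ⟨q1, q2, q3, hQu⟩ hpV)
      · refine ⟨⟨V, v1, v2.trans j2, v3, ?_⟩, ⟨u, hEu, g1, hu, hpu⟩⟩
        have hPu : P ≠ u := fun h => hpu (h ▸ p4)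
        exact S.mono_type p hEu huH hu (by omega) hno ⟨p1, p2, p3, hPu⟩
          ⟨v1, hVH, v3, hVu⟩ p4
    -- an edge with both types
    obtain ⟨u₀, a1, a2, a3⟩ := S.exists_atom (S.lt_of_rk_lt hEH (by omega))
    obtain ⟨F₀, f1, f2⟩ := key u₀ a1 a2 a3
    obtain ⟨f11, f12, f13, f14⟩ := f1
    have ih0 := ih p E F₀ (S.rk E + 2) (by omega) f11 le_rfl (by omega) f2
    have hpos : 0 < (n - 1).choose (S.rk E + 2 - S.rk E - 1) :=
      Nat.choose_pos (by omega)
    obtain ⟨e, he⟩ := Finset.card_pos.1 (lt_of_lt_of_le hpos ih0)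
    rw [Finset.mem_filter, S.mem_lev] at he
    obtain ⟨⟨e1, e2, e3⟩, hebi⟩ := he
    have heH : e ≤ H := e2.trans f12
    obtain ⟨⟨u, u1, u2, u3, u4⟩, _⟩ := id hebi
    have huH : u ≤ H := u2.trans heH
    -- faces containing `u`
    have hNu : (n - 1).choose (t - S.rk E - 1 - 1) ≤
        ((S.lev u H t).filter (fun G => S.Bi p E G)).card := by
      rcases Nat.lt_or_ge t (S.rk E + 3) with ht | ht
      · rw [show t - S.rk E - 1 - 1 = 0 by omega, Nat.choose_zero_right, Finset.one_le_card]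
        refine ⟨e, Finset.mem_filter.2 ⟨S.mem_lev.2 ⟨u2, heH, by omega⟩, hebi⟩⟩
      · by_cases hall : ∀ e', u ≤ e' → e' ≤ H → S.rk e' = S.rk u + 1 → S.Bi p E e'
        · exfalso
          apply absurd hcon
          rw [not_lt]
          have hc := S.card_lev huH (show S.rk u ≤ t by omega) h2.le
          rw [show S.rk H - S.rk u = n + 1 - 1 by omega,
            show t - S.rk u = t - S.rk E - 1 by omega] at hc
          refine hc.trans (Finset.card_le_card ?_)
          intro G hG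
          rw [S.mem_lev] at hG
          obtain ⟨g1, g2, g3⟩ := hG
          rw [Finset.mem_filter, S.mem_lev]
          refine ⟨⟨u1.trans g1, g2, g3⟩, ?_⟩
          obtain ⟨e', b1, b2, b3⟩ := S.exists_atom (S.lt_of_rk_lt g1 (by omega))
          exact (hall e' b1 (b2.trans g2) b3).mono b2
        · push Not at hall
          obtain ⟨e', b1, b2, b3, b4⟩ := hall
          have ih1 := ih (fun G => S.Bi p E G) u H t (by omega) huH (by omega) h2.le
            ⟨⟨e, u2, heH, by omega, hebi⟩, ⟨e', b1, b2, b3, b4⟩⟩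
          rw [show t - S.rk u - 1 = t - S.rk E - 1 - 1 by omega] at ih1
          refine ih1.trans (Finset.card_le_card ?_)
          intro G hG
          rw [Finset.mem_filter] at hG ⊢
          refine ⟨hG.1, ?_⟩
          obtain ⟨⟨e'', c1, c2, c3, c4⟩, _⟩ := hG.2
          exact c4.mono c2
    -- faces avoiding `u`
    obtain ⟨F, g1, g2⟩ := key u u1 huH u3
    obtain ⟨g11, g12, g13, g14⟩ := g1
    have ih2 := ih p E F t (by omega) g11 h1 (by omega) g2
    have hsub : (S.lev u H t).filter (fun G => S.Bi p E G) ∪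
        (S.lev E F t).filter (fun G => S.Bi p E G) ⊆
        (S.lev E H t).filter (fun G => S.Bi p E G) := by
      intro G hG
      rw [Finset.mem_union, Finset.mem_filter, Finset.mem_filter, S.mem_lev, S.mem_lev] at hG
      rw [Finset.mem_filter, S.mem_lev]
      rcases hG with ⟨⟨a, b, c⟩, d⟩ | ⟨⟨a, b, c⟩, d⟩
      · exact ⟨⟨u1.trans a, b, c⟩, d⟩
      · exact ⟨⟨a, b.trans g12, c⟩, d⟩
    have hdisj : Disjoint ((S.lev u H t).filter (fun G => S.Bi p E G))
        ((S.lev E F t).filter (fun G => S.Bi p E G)) := by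
      rw [Finset.disjoint_left]
      intro G hG1 hG2
      rw [Finset.mem_filter, S.mem_lev] at hG1 hG2
      exact g14 (hG1.1.1.trans hG2.1.2.1)
    have hcard := Finset.card_le_card hsub
    rw [Finset.card_union_of_disjoint hdisj] at hcard
    have hp : (n + 1 - 1).choose (t - S.rk E - 1) =
        (n - 1).choose (t - S.rk E - 1 - 1) + (n - 1).choose (t - S.rk E - 1) := by
      obtain ⟨m, hm⟩ : ∃ m, n = m + 1 := ⟨n - 1, by omega⟩
      obtain ⟨j, hj⟩ : ∃ j, t - S.rk E - 1 = j + 1 := ⟨t - S.rk E - 2, by omega⟩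
      rw [hj, hm]
      simp only [Nat.add_sub_cancel]
      rw [Nat.choose_succ_succ]
    omega

end FaceLat

end Pool.Agent.Sallee
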