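import Mathlib
import Pool.Agent.Lib.MP_db3372_co.Vertex

/-!
# Two-coloured configurations
-/

set_option autoImplicit false

namespace Pool.Agent.Sallee

open Finset Relation

namespace FaceLat

variable {L : Type*} [SemilatticeInf L] (S : FaceLat L)

/-- `R` lies in an `A`-face and in a `B`-face of rank `t` inside `H`. -/
def Mixed (A B : L → Prop) (t : ℕ) (H R : L) : Prop := S.Sees A t H R ∧ S.Sees B t H R

variable {S}

lemma Sees.anti {A : L → Prop} {t : ℕ} {H R R' : L} (h : S.Sees A t H R) (hle : R' ≤ R) :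
    S.Sees A t H R' := by
  obtain ⟨G, a, b, c, d⟩ := h
  exact ⟨G, a, hle.trans b, c, d⟩

lemma Sees.mono {A : L → Prop} {t : ℕ} {H H' R : L} (h : S.Sees A t H R) (hle : H ≤ H') :
    S.Sees A t H' R := by
  obtain ⟨G, a, b, c, d⟩ := h
  exact ⟨G, a, b, c.trans hle, d⟩

lemma Mixed.anti {A B : L → Prop} {t : ℕ} {H R R' : L} (h : S.Mixed A B t H R) (hle : R' ≤ R) :
    S.Mixed A B t H R' := ⟨h.1.anti hle, h.2.anti hle⟩

lemma Mixed.mono {A B : L → Prop} {t : ℕ} {H H' R : L} (h : S.Mixed A B t H R) (hle : H ≤ H') :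
    S.Mixed A B t H' R := ⟨h.1.mono hle, h.2.mono hle⟩

lemma Mixed.symm {A B : L → Prop} {t : ℕ} {H R : L} (h : S.Mixed A B t H R) :
    S.Mixed B A t H R := ⟨h.2, h.1⟩

variable (S)

/-- A mixed face has rank below `t`. -/
lemma Mixed.rk_lt {A B : L → Prop} (hAB : ∀ G, A G → ¬ B G) {t : ℕ} {H R : L}
    (h : S.Mixed A B t H R) : S.rk R < t := by
  obtain ⟨⟨G, a, b, c, d⟩, ⟨G', a', b', c', d'⟩⟩ := h
  by_contra hcon
  have h1 := S.eq_of_le_of_rk_le b (by omega)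
  have h2 := S.eq_of_le_of_rk_le b' (by omega)
  rw [← h1] at a
  rw [← h2] at a'
  exact hAB _ a a'

/-- The trichotomy for the facets that avoid a mixed atom. -/
lemma facet_cases (A B : L → Prop) (t : ℕ) {E V H : L} (hEV : E ≤ V) (hVH : V ≤ H)
    (hV : S.rk V = S.rk E + 1) :
    (∃ F, IsFac S.rk E V H F ∧ S.Mixed A B t F E) ∨
    (∃ F, IsFac S.rk E V H F ∧ ¬ S.Sees A t F E ∧ ¬ S.Sees B t F E) ∨
    (∃ F₁ F₂, IsFac S.rk E V H F₁ ∧ IsFac S.rk E V H F₂ ∧ S.rk (F₁ ⊓ F₂) + 2 = S.rk H ∧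
      ¬ S.Sees B t F₁ E ∧ ¬ S.Sees A t F₂ E) ∨
    (∀ F, IsFac S.rk E V H F → ¬ S.Sees B t F E) ∨
    (∀ F, IsFac S.rk E V H F → ¬ S.Sees A t F E) := by
  by_cases h1 : ∃ F, IsFac S.rk E V H F ∧ S.Mixed A B t F E
  · exact Or.inl h1
  by_cases h2 : ∃ F, IsFac S.rk E V H F ∧ ¬ S.Sees A t F E ∧ ¬ S.Sees B t F E
  · exact Or.inr (Or.inl h2)
  by_cases h3 : ∀ F, IsFac S.rk E V H F → ¬ S.Sees B t F E
  · exact Or.inr (Or.inr (Or.inr (Or.inl h3)))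
  by_cases h4 : ∀ F, IsFac S.rk E V H F → ¬ S.Sees A t F E
  · exact Or.inr (Or.inr (Or.inr (Or.inr h4)))
  push Not at h1 h2 h3 h4
  obtain ⟨G₁, g1, g2⟩ := h3
  obtain ⟨G₂, g3, g4⟩ := h4
  obtain ⟨F₁, F₂, ⟨a1, a2, a3⟩, a4, a5⟩ := exists_edge_of_reflTransGen
    (S.conn hEV hVH hV g3 g1) (p := fun F => S.Sees A t F E) g4 (fun h => h1 _ g1 ⟨h, g2⟩)
  exact Or.inr (Or.inr (Or.inl ⟨F₁, F₂, a1, a2, a3, fun h => h1 _ a1 ⟨a4, h⟩, a5⟩))

/-- Data in the case that all `B`-faces contain the mixed atom `V`. -/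
lemma pure_case {B : L → Prop} {t : ℕ} {E V H : L} (hEV : E ≤ V) (hVH : V ≤ H)
    (hV : S.rk V = S.rk E + 1) (hB : S.Sees B t H V)
    (hall : ∀ F, IsFac S.rk E V H F → ¬ S.Sees B t F E) :
    (∀ G, B G → E ≤ G → G ≤ H → S.rk G = t → V ≤ G) ∧
    ∃ G J F, B G ∧ V ≤ G ∧ G ≤ H ∧ S.rk G = t ∧ E ≤ J ∧ J ≤ G ∧ S.rk J + 1 = t ∧ ¬ V ≤ J ∧
      J ≤ F ∧ IsFac S.rk E V H F := by
  have h1 : ∀ G, B G → E ≤ G → G ≤ H → S.rk G = t → V ≤ G := by
    intro G hG hEG hGH hGt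
    by_contra hVG
    obtain ⟨F, f1, f2, f3, f4⟩ := S.facet hGH hVH hVG
    exact hall F ⟨hEG.trans f1, f2, f3, f4⟩ ⟨G, hG, hEG, f1, hGt⟩
  refine ⟨h1, ?_⟩
  obtain ⟨G, g1, g2, g3, g4⟩ := hB
  obtain ⟨J, j1, j2, j3, j4⟩ := S.facet (hEV.trans g2) g2
    (S.not_le_of_rk_lt (by omega) : ¬ V ≤ E)
  obtain ⟨F, f1, f2, f3, f4⟩ := S.facet (j2.trans g3) hVH j4
  exact ⟨G, J, F, g1, g2, g3, g4, j1, j2, by omega, j4, f1, ⟨j1.trans f1, f2, f3, f4⟩⟩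

variable [Fintype L]

open Classical in
/-- Uncoloured faces. -/
noncomputable def unc (A B : L → Prop) (t : ℕ) (E H : L) : Finset L :=
  (S.lev E H t).filter (fun G => ¬ A G ∧ ¬ B G)

open Classical in
/-- Mixed faces of rank `q`. -/
noncomputable def mix (A B : L → Prop) (t q : ℕ) (E H : L) : Finset L :=
  (S.lev E H q).filter (fun R => S.Mixed A B t H R)

lemma unc_comm (A B : L → Prop) (t : ℕ) (E H : L) : S.unc A B t E H = S.unc B A t E H := by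
  ext G
  simp only [unc, Finset.mem_filter]
  tauto

lemma mix_comm (A B : L → Prop) (t q : ℕ) (E H : L) :
    S.mix A B t q E H = S.mix B A t q E H := by
  ext G
  simp only [mix, Finset.mem_filter]
  exact ⟨fun ⟨a, b⟩ => ⟨a, b.symm⟩, fun ⟨a, b⟩ => ⟨a, b.symm⟩⟩

open Classical in
lemma unc_above (A B : L → Prop) (t : ℕ) {E V H : L} (hEV : E ≤ V) :
    S.unc A B t V H = (S.unc A B t E H).filter (fun G => V ≤ G) := by
  ext G
  simp only [unc, Finset.mem_filter, S.mem_lev]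
  exact ⟨fun ⟨⟨a, b, c⟩, e⟩ => ⟨⟨⟨hEV.trans a, b, c⟩, e⟩, a⟩,
    fun ⟨⟨⟨_, b, c⟩, e⟩, a⟩ => ⟨⟨a, b, c⟩, e⟩⟩

open Classical in
lemma mix_above (A B : L → Prop) (t q : ℕ) {E V H : L} (hEV : E ≤ V) :
    S.mix A B t q V H = (S.mix A B t q E H).filter (fun G => V ≤ G) := by
  ext G
  simp only [mix, Finset.mem_filter, S.mem_lev]
  exact ⟨fun ⟨⟨a, b, c⟩, e⟩ => ⟨⟨⟨hEV.trans a, b, c⟩, e⟩, a⟩,
    fun ⟨⟨⟨_, b, c⟩, e⟩, a⟩ => ⟨⟨a, b, c⟩, e⟩⟩

open Classical in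
lemma unc_below (A B : L → Prop) (t : ℕ) {E V H F : L} (hF : IsFac S.rk E V H F) :
    S.unc A B t E F ⊆ (S.unc A B t E H).filter (fun G => ¬ V ≤ G) := by
  intro G
  simp only [unc, Finset.mem_filter, S.mem_lev]
  exact fun ⟨⟨a, b, c⟩, e⟩ => ⟨⟨⟨a, b.trans hF.2.1, c⟩, e⟩, fun h => hF.2.2.2 (h.trans b)⟩

open Classical in
lemma mix_below (A B : L → Prop) (t q : ℕ) {E V H F : L} (hF : IsFac S.rk E V H F) :
    S.mix A B t q E F ⊆ (S.mix A B t q E H).filter (fun G => ¬ V ≤ G) := by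
  intro G
  simp only [mix, Finset.mem_filter, S.mem_lev]
  exact fun ⟨⟨a, b, c⟩, e⟩ =>
    ⟨⟨⟨a, b.trans hF.2.1, c⟩, e.mono hF.2.1⟩, fun h => hF.2.2.2 (h.trans b)⟩

open Classical in
/-- A facet without coloured faces. -/
lemma card_neutral (A B : L → Prop) (t : ℕ) {E V H F : L} (hEt : S.rk E ≤ t) (htH : t < S.rk H)
    (hF : IsFac S.rk E V H F) (hA : ¬ S.Sees A t F E) (hB : ¬ S.Sees B t F E) :
    (S.rk H - S.rk E - 1).choose (t - S.rk E) ≤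
      ((S.unc A B t E H).filter (fun G => ¬ V ≤ G)).card := by
  refine le_trans ?_ (Finset.card_le_card (S.unc_below A B t hF))
  obtain ⟨f1, f2, f3, f4⟩ := hF
  have hc := S.card_lev f1 hEt (show t ≤ S.rk F by omega)
  rw [show S.rk F - S.rk E = S.rk H - S.rk E - 1 by omega] at hc
  refine hc.trans (le_of_eq ?_)
  congr 1
  rw [unc, Finset.filter_true_of_mem]
  intro G hG
  rw [S.mem_lev] at hG
  exact ⟨fun h => hA ⟨G, h, hG.1, hG.2.1, hG.2.2⟩, fun h => hB ⟨G, h, hG.1, hG.2.1, hG.2.2⟩⟩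

open Classical in
/-- Adjacent facets of different pure colours. -/
lemma card_ridge (A B : L → Prop) (t : ℕ) {E V H F₁ F₂ : L} (hEt : S.rk E < t)
    (htH : t < S.rk H) (hF₁ : IsFac S.rk E V H F₁) (hF₂ : IsFac S.rk E V H F₂)
    (hK : S.rk (F₁ ⊓ F₂) + 2 = S.rk H) (h1 : ¬ S.Sees B t F₁ E) (h2 : ¬ S.Sees A t F₂ E)
    (hR : ∀ J, E ≤ J → J ≤ F₁ ⊓ F₂ → S.rk J + 1 = t → ∃ R, E ≤ R ∧ R ≤ J ∧
      ¬ S.Mixed A B t H R) :
    (S.rk H - S.rk E - 2).choose (t - S.rk E - 1) ≤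
      ((S.unc A B t E H).filter (fun G => ¬ V ≤ G)).card := by
  obtain ⟨a1, a2, a3, a4⟩ := hF₁
  obtain ⟨b1, b2, b3, b4⟩ := hF₂
  set K := F₁ ⊓ F₂ with hKdef
  have hEK : E ≤ K := le_inf a1 b1
  have hc := S.card_lev hEK (show S.rk E ≤ t - 1 by omega) (show t - 1 ≤ S.rk K by omega)
  rw [show S.rk K - S.rk E = S.rk H - S.rk E - 2 by omega,
    show t - 1 - S.rk E = t - S.rk E - 1 by omega] at hc
  refine hc.trans ?_
  have hex : ∀ J : L, ∃ G, J ∈ S.lev E K (t - 1) →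
      (G ∈ (S.unc A B t E H).filter (fun G => ¬ V ≤ G) ∧ G ⊓ K = J) := by
    intro J
    by_cases hJ : J ∈ S.lev E K (t - 1)
    · rw [S.mem_lev] at hJ
      obtain ⟨j1, j2, j3⟩ := hJ
      obtain ⟨R, r1, r2, r3⟩ := hR J j1 j2 (by omega)
      by_cases hA : S.Sees A t H R
      · -- then `R` sees no `B`
        have hB : ¬ S.Sees B t H R := fun h => r3 ⟨hA, h⟩
        obtain ⟨G, g1, g2, g3, g4⟩ := S.exists_atom_not_le j2 (inf_le_right : K ≤ F₂) (by omega)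
        refine ⟨G, fun _ => ⟨?_, S.inf_eq_of_cover g1 j2 g3.symm g4⟩⟩
        simp only [unc, Finset.mem_filter, S.mem_lev]
        refine ⟨⟨⟨j1.trans g1, g2.trans b2, by omega⟩, ?_, ?_⟩, fun h => b4 (h.trans g2)⟩
        · exact fun h => h2 ⟨G, h, j1.trans g1, g2, by omega⟩
        · exact fun h => hB ⟨G, h, r2.trans g1, g2.trans b2, by omega⟩
      · obtain ⟨G, g1, g2, g3, g4⟩ := S.exists_atom_not_le j2 (inf_le_left : K ≤ F₁) (by omega)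
        refine ⟨G, fun _ => ⟨?_, S.inf_eq_of_cover g1 j2 g3.symm g4⟩⟩
        simp only [unc, Finset.mem_filter, S.mem_lev]
        refine ⟨⟨⟨j1.trans g1, g2.trans a2, by omega⟩, ?_, ?_⟩, fun h => a4 (h.trans g2)⟩
        · exact fun h => hA ⟨G, h, r2.trans g1, g2.trans a2, by omega⟩
        · exact fun h => h1 ⟨G, h, j1.trans g1, g2, by omega⟩
    · exact ⟨J, fun h => absurd h hJ⟩
  choose f hf using hex
  apply Finset.card_le_card_of_injOn f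
  · intro J hJ
    exact (hf J hJ).1
  · intro J hJ J' hJ' hff
    rw [← (hf J hJ).2, ← (hf J' hJ').2, hff]

open Classical in
/-- Faces above an atom `u` avoiding `V`, all uncoloured. -/
lemma card_avoid (A B : L → Prop) (t : ℕ) {E V H u : L} (hVH : V ≤ H)
    (hEu : E ≤ u) (huH : u ≤ H) (hu : S.rk u = S.rk E + 1) (hVu : ¬ V ≤ u) (hut : S.rk u ≤ t)
    (htH : t < S.rk H)
    (hun : ∀ G, u ≤ G → G ≤ H → S.rk G = t → ¬ V ≤ G → ¬ A G ∧ ¬ B G) :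
    (S.rk H - S.rk E - 2).choose (t - S.rk E - 1) ≤
      ((S.unc A B t E H).filter (fun G => ¬ V ≤ G)).card := by
  obtain ⟨F, f1, f2, f3, f4⟩ := S.facet huH hVH hVu
  have hc := S.card_lev f1 hut (show t ≤ S.rk F by omega)
  rw [show S.rk F - S.rk u = S.rk H - S.rk E - 2 by omega,
    show t - S.rk u = t - S.rk E - 1 by omega] at hc
  refine hc.trans (Finset.card_le_card ?_)
  intro G hG
  rw [S.mem_lev] at hG
  obtain ⟨g1, g2, g3⟩ := hG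
  have hVG : ¬ V ≤ G := fun h => f4 (h.trans g2)
  simp only [unc, Finset.mem_filter, S.mem_lev]
  exact ⟨⟨⟨hEu.trans g1, g2.trans f2, g3⟩, hun G g1 (g2.trans f2) g3 hVG⟩, hVG⟩

end FaceLat

end Pool.Agent.Sallee
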