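import Mathlib
import Pool.Agent.Lib.MP_db3372_co.Basics

/-!
# Faces of a vector configuration: rotating functionals
-/

set_option autoImplicit false

namespace Pool.Agent.Sallee

open Finset Relation

namespace Config

variable {W : Type*} [AddCommGroup W] [Module ℝ W]

/-- Rank of a finite set of vectors. -/
noncomputable def rank (Z : Finset W) : ℕ := Module.finrank ℝ (Submodule.span ℝ (Z : Set W))


lemma zero_of_mem_span {Z : Finset W} {φ : W →ₗ[ℝ] ℝ} (h : ∀ v ∈ Z, φ v = 0) {w : W}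
    (hw : w ∈ Submodule.span ℝ (Z : Set W)) : φ w = 0 := by
  have : Submodule.span ℝ (Z : Set W) ≤ LinearMap.ker φ := by
    rw [Submodule.span_le]
    intro v hv
    exact h v hv
  exact this hw

lemma rank_lt_of_mem {Z H : Finset W} (hZH : Z ⊆ H) {p : W}
    (hp : p ∈ Submodule.span ℝ (H : Set W)) (hpZ : p ∉ Submodule.span ℝ (Z : Set W)) :
    rank Z < rank H := by
  apply Submodule.finrank_lt_finrank_of_lt
  refine lt_of_le_of_ne (Submodule.span_mono (by exact_mod_cast hZH)) ?_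
  intro h
  rw [h] at hpZ
  exact hpZ hp

lemma rank_mono {Z H : Finset W} (hZH : Z ⊆ H) : rank Z ≤ rank H :=
  Submodule.finrank_mono (Submodule.span_mono (by exact_mod_cast hZH))

lemma rank_insert_le [DecidableEq W] (Z : Finset W) (p : W) :
    Module.finrank ℝ (Submodule.span ℝ (insert p (Z : Set W))) ≤ rank Z + 1 := by
  rw [Submodule.span_insert]
  have h1 : Module.finrank ℝ (Submodule.span ℝ ({p} : Set W)) ≤ 1 := by
    have := finrank_span_le_card (R := ℝ) ({p} : Set W)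
    simpa using this
  have h2 := Submodule.finrank_add_le_finrank_add_finrank (Submodule.span ℝ ({p} : Set W))
    (Submodule.span ℝ (Z : Set W))
  unfold rank
  omega

/-- If the span of `Z ∪ {p}` has smaller rank than `H`, there is a functional that is positive
somewhere on `H` and vanishes on `Z ∪ {p}`. -/
lemma exists_functional {Z H : Finset W} {p : W} (h : rank Z + 1 < rank H) :
    ∃ g : W →ₗ[ℝ] ℝ, (∀ v ∈ Z, g v = 0) ∧ g p = 0 ∧ ∃ w ∈ H, 0 < g w := by
  classical
  have h1 := rank_insert_le Z p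
  obtain ⟨w, hw, hwU⟩ : ∃ w ∈ H, w ∉ Submodule.span ℝ (insert p (Z : Set W)) := by
    by_contra hno
    push Not at hno
    have h3 : Submodule.span ℝ (H : Set W) ≤ Submodule.span ℝ (insert p (Z : Set W)) := by
      rw [Submodule.span_le]
      exact hno
    have : Module.Finite ℝ (Submodule.span ℝ (insert p (Z : Set W))) :=
      FiniteDimensional.span_of_finite ℝ (Z.finite_toSet.insert p)
    have := Submodule.finrank_mono h3
    unfold rank at h h1
    omega
  obtain ⟨g, hg, hg'⟩ := Submodule.exists_le_ker_of_notMem hwU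
  have hv : ∀ v ∈ insert p (Z : Set W), g v = 0 := fun v hv =>
    hg' (Submodule.subset_span hv)
  rcases lt_or_gt_of_ne hg with h2 | h2
  · refine ⟨-g, fun v hvZ => ?_, ?_, w, hw, ?_⟩
    · simp [hv v (Set.mem_insert_of_mem _ hvZ)]
    · simp [hv p (Set.mem_insert _ _)]
    · simpa using h2
  · exact ⟨g, fun v hvZ => hv v (Set.mem_insert_of_mem _ hvZ), hv p (Set.mem_insert _ _), w, hw, h2⟩


/-- Pushing a functional until it hits a new vector. -/
lemma push (H : Finset W) (φ g : W →ₗ[ℝ] ℝ) (hφ : ∀ v ∈ H, φ v ≤ 0) (hg : ∃ w ∈ H, 0 < g w)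
    (hZ : ∀ v ∈ H, φ v = 0 → g v ≤ 0) :
    ∃ t : ℝ, 0 < t ∧ (∀ v ∈ H, φ v + t * g v ≤ 0) ∧ ∃ w ∈ H, 0 < g w ∧ φ w + t * g w = 0 := by
  classical
  obtain ⟨w₁, hw₁, hgw₁⟩ := hg
  have hne : (H.filter (fun v => 0 < g v)).Nonempty := ⟨w₁, by simp [hw₁, hgw₁]⟩
  obtain ⟨w, hw, hmin⟩ := Finset.exists_min_image _ (fun v => -φ v / g v) hne
  rw [Finset.mem_filter] at hw
  refine ⟨-φ w / g w, ?_, ?_, w, hw.1, hw.2, ?_⟩
  · apply div_pos _ hw.2
    have h1 := hφ w hw.1
    have h2 : φ w ≠ 0 := fun h => absurd (hZ w hw.1 h) (not_le.2 hw.2)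
    rcases lt_or_eq_of_le h1 with h | h
    · linarith
    · exact absurd h h2
  · intro v hv
    have ht : 0 ≤ -φ w / g w := div_nonneg (by linarith [hφ w hw.1]) hw.2.le
    rcases lt_or_ge 0 (g v) with h | h
    · have := hmin v (by simp [hv, h])
      rw [le_div_iff₀ h] at this
      linarith
    · have := mul_nonpos_of_nonneg_of_nonpos ht h
      linarith [hφ v hv]
  · have := hw.2.ne'
    field_simp
    ring


/-- A small perturbation keeps the strict inequalities. -/
lemma small (V : Finset W) (φ g : W →ₗ[ℝ] ℝ) (hφ : ∀ v ∈ V, φ v ≤ 0)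
    (hZ : ∀ v ∈ V, φ v = 0 → g v ≤ 0) :
    ∃ t : ℝ, 0 < t ∧ ∀ v ∈ V, φ v + t * g v ≤ 0 ∧ (φ v ≠ 0 → φ v + t * g v < 0) := by
  by_cases hg : ∃ w ∈ V, 0 < g w
  · obtain ⟨t, ht, h1, _⟩ := push V φ g hφ hg hZ
    refine ⟨t / 2, by linarith, fun v hv => ?_⟩
    have h2 := h1 v hv
    have h3 := hφ v hv
    refine ⟨by linarith, fun hne => ?_⟩
    have h4 : φ v < 0 := lt_of_le_of_ne h3 hne
    linarith
  · push Not at hg
    refine ⟨1, one_pos, fun v hv => ?_⟩
    have h2 := hg v hv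
    have h3 := hφ v hv
    refine ⟨by linarith, fun hne => ?_⟩
    have h4 : φ v < 0 := lt_of_le_of_ne h3 hne
    linarith

open Classical in
/-- Rotation lemma. -/
lemma rot (H : Finset W) (θ : W →ₗ[ℝ] ℝ) (hθ : ∀ v ∈ H, θ v ≤ 0) (p : W)
    (hp : p ∈ Submodule.span ℝ (H : Set W)) (hθp : θ p ≠ 0) :
    ∃ θ' : W →ₗ[ℝ] ℝ, (∀ v ∈ H, θ' v ≤ 0) ∧ θ' p = θ p ∧ (∀ v ∈ H, θ v = 0 → θ' v = 0) ∧
      rank (H.filter (fun v => θ' v = 0)) + 1 = rank H := by
  set C := H.powerset.filter (fun Z => ∃ θ' : W →ₗ[ℝ] ℝ, (∀ v ∈ H, θ' v ≤ 0) ∧ θ' p = θ p ∧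
    (∀ v ∈ H, θ v = 0 → θ' v = 0) ∧ Z = H.filter (fun v => θ' v = 0)) with hC
  have hne : C.Nonempty := ⟨H.filter (fun v => θ v = 0), by
    rw [hC, Finset.mem_filter, Finset.mem_powerset]
    exact ⟨Finset.filter_subset _ _, θ, hθ, rfl, fun _ _ h => h, rfl⟩⟩
  obtain ⟨Z, hZ, hmax⟩ := Finset.exists_max_image C Finset.card hne
  rw [hC, Finset.mem_filter, Finset.mem_powerset] at hZ
  obtain ⟨hZH, θ', h1, h2, h3, h4⟩ := hZ
  refine ⟨θ', h1, h2, h3, ?_⟩
  rw [← h4]
  have hlt : rank Z < rank H := by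
    apply rank_lt_of_mem hZH hp
    intro hpZ
    have := zero_of_mem_span (φ := θ') (by
      intro v hv
      rw [h4, Finset.mem_filter] at hv
      exact hv.2) hpZ
    rw [h2] at this
    exact hθp this
  by_contra hne'
  obtain ⟨g, g1, g2, g3⟩ := exists_functional (p := p) (show rank Z + 1 < rank H by omega)
  have hgZ : ∀ v ∈ H, θ' v = 0 → g v = 0 := fun v hv h => g1 v (by
    rw [h4, Finset.mem_filter]; exact ⟨hv, h⟩)
  obtain ⟨t, ht, t1, w, w1, w2, w3⟩ := push H θ' g h1 g3 (fun v hv h => (hgZ v hv h).le)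
  have hmem : H.filter (fun v => (θ' + t • g) v = 0) ∈ C := by
    rw [hC, Finset.mem_filter, Finset.mem_powerset]
    refine ⟨Finset.filter_subset _ _, θ' + t • g, ?_, ?_, ?_, rfl⟩
    · intro v hv
      simpa using t1 v hv
    · simp [g2, h2]
    · intro v hv h
      have := h3 v hv h
      simp [this, hgZ v hv this]
  have hle := hmax _ hmem
  have hsub : insert w Z ⊆ H.filter (fun v => (θ' + t • g) v = 0) := by
    intro v hv
    rw [Finset.mem_insert] at hv
    rw [Finset.mem_filter]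
    rcases hv with rfl | hv
    · exact ⟨w1, by simpa using w3⟩
    · have hv' := hv
      rw [h4, Finset.mem_filter] at hv'
      exact ⟨hv'.1, by simp [hv'.2, g1 v hv]⟩
  have hwZ : w ∉ Z := by
    intro hw
    have := g1 w hw
    linarith
  have := Finset.card_le_card hsub
  rw [Finset.card_insert_of_notMem hwZ] at this
  omega

end Config

end Pool.Agent.Sallee
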