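import Mathlib
import Pool.Agent.Lib.MP_db3372_co.Rot

/-!
# The face lattice of a vector configuration
-/

set_option autoImplicit false

namespace Pool.Agent.Sallee

open Finset Relation

namespace Config

variable {W : Type*} [AddCommGroup W] [Module ℝ W]

/-- `Z` is a face of the configuration `V`. -/
def IsFace (V Z : Finset W) : Prop :=
  ∃ φ : W →ₗ[ℝ] ℝ, (∀ v ∈ V, φ v ≤ 0) ∧ ∀ v, v ∈ Z ↔ v ∈ V ∧ φ v = 0

lemma IsFace.subset {V Z : Finset W} (h : IsFace V Z) : Z ⊆ V := by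
  obtain ⟨φ, _, h2⟩ := h
  exact fun v hv => ((h2 v).1 hv).1

lemma IsFace.inter [DecidableEq W] {V Z Z' : Finset W} (h : IsFace V Z) (h' : IsFace V Z') :
    IsFace V (Z ∩ Z') := by
  obtain ⟨φ, h1, h2⟩ := h
  obtain ⟨φ', h1', h2'⟩ := h'
  refine ⟨φ + φ', fun v hv => ?_, fun v => ?_⟩
  · have := h1 v hv
    have := h1' v hv
    simp only [LinearMap.add_apply]
    linarith
  · rw [Finset.mem_inter, h2, h2']
    simp only [LinearMap.add_apply]
    constructor
    · rintro ⟨⟨a, b⟩, _, c⟩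
      exact ⟨a, by rw [b, c, add_zero]⟩
    · rintro ⟨a, b⟩
      have := h1 v a
      have := h1' v a
      exact ⟨⟨a, by linarith⟩, a, by linarith⟩

open Classical in
/-- Faces of faces are faces. -/
lemma IsFace.of_face {V H : Finset W} (h : IsFace V H) (θ : W →ₗ[ℝ] ℝ)
    (hθ : ∀ v ∈ H, θ v ≤ 0) : IsFace V (H.filter (fun v => θ v = 0)) := by
  obtain ⟨φ, h1, h2⟩ := h
  obtain ⟨t, ht, h3⟩ := small V φ θ h1 (fun v hv h => hθ v ((h2 v).2 ⟨hv, h⟩))
  refine ⟨φ + t • θ, fun v hv => ?_, fun v => ?_⟩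
  · simpa using (h3 v hv).1
  · rw [Finset.mem_filter, h2]
    simp only [LinearMap.add_apply, LinearMap.smul_apply, smul_eq_mul]
    constructor
    · rintro ⟨⟨a, b⟩, c⟩
      exact ⟨a, by rw [b, c]; ring⟩
    · rintro ⟨a, b⟩
      have hφ : φ v = 0 := by
        by_contra hne
        have := (h3 v a).2 hne
        linarith
      rw [hφ, zero_add] at b
      refine ⟨⟨a, hφ⟩, ?_⟩
      rcases mul_eq_zero.1 b with h | h
      · exact absurd h ht.ne'
      · exact h

/-- Faces of the configuration. -/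
abbrev Face (V : Finset W) : Type _ := {Z : Finset W // IsFace V Z}

open Classical in
noncomputable instance (V : Finset W) : SemilatticeInf (Face V) :=
  Subtype.semilatticeInf (fun _ _ h h' => h.inter h')

lemma face_le_iff {V : Finset W} {F G : Face V} : F ≤ G ↔ F.1 ⊆ G.1 := Iff.rfl

open Classical in
lemma face_inf {V : Finset W} (F G : Face V) : (F ⊓ G).1 = F.1 ∩ G.1 := by
  rfl

noncomputable instance (V : Finset W) : Fintype (Face V) := by
  classical
  have : Finite (Face V) := by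
    apply Finite.of_injective (fun F : Face V => (⟨F.1, Finset.mem_powerset.2 F.2.subset⟩ :
      {Z // Z ∈ V.powerset}))
    intro F G h
    simpa [Subtype.ext_iff] using h
  exact Fintype.ofFinite _

lemma notMem_span_of_face {V : Finset W} {Z : Finset W} (hZ : IsFace V Z) {v : W} (hv : v ∈ V)
    (hvZ : v ∉ Z) : v ∉ Submodule.span ℝ (Z : Set W) := by
  obtain ⟨φ, h1, h2⟩ := hZ
  intro h
  exact hvZ ((h2 v).2 ⟨hv, zero_of_mem_span (fun w hw => ((h2 w).1 hw).2) h⟩)

lemma face_rank_lt {V : Finset W} {F G : Face V} (h : F < G) : rank F.1 < rank G.1 := by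
  have h1 : F.1 ⊆ G.1 := h.le
  obtain ⟨v, hv, hvF⟩ : ∃ v ∈ G.1, v ∉ F.1 := by
    by_contra hno
    push Not at hno
    exact absurd h (not_lt_of_ge hno)
  exact rank_lt_of_mem h1 (Submodule.subset_span hv) (notMem_span_of_face F.2 (G.2.subset hv) hvF)

open Classical in
lemma face_facet {V : Finset W} {G P H : Face V} (hGH : G ≤ H) (hPH : P ≤ H) (hPG : ¬ P ≤ G) :
    ∃ F : Face V, G ≤ F ∧ F ≤ H ∧ rank F.1 + 1 = rank H.1 ∧ ¬ P ≤ F := by
  obtain ⟨p, hp, hpG⟩ : ∃ p ∈ P.1, p ∉ G.1 := by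
    by_contra hno
    push Not at hno
    exact hPG hno
  obtain ⟨φ, h1, h2⟩ := G.2
  have hpH : p ∈ H.1 := hPH hp
  have hφp : φ p ≠ 0 := fun h => hpG ((h2 p).2 ⟨H.2.subset hpH, h⟩)
  obtain ⟨θ, t1, t2, t3, t4⟩ := rot H.1 φ (fun v hv => h1 v (H.2.subset hv)) p
    (Submodule.subset_span hpH) hφp
  refine ⟨⟨H.1.filter (fun v => θ v = 0), H.2.of_face θ t1⟩, ?_, ?_, t4, ?_⟩
  · intro v hv
    have hvH : v ∈ H.1 := hGH hv
    exact Finset.mem_filter.2 ⟨hvH, t3 v hvH ((h2 v).1 hv).2⟩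
  · exact Finset.filter_subset _ _
  · intro h
    have := h hp
    rw [Finset.mem_filter, t2] at this
    exact hφp this.2

end Config

end Pool.Agent.Sallee
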