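import Mathlib
import Pool.Agent.Lib.MP_db3372_co.ConfigLat

/-!
# Connectivity of the antistar; the face lattice of a configuration
-/

set_option autoImplicit false

namespace Pool.Agent.Sallee

open Finset Relation

namespace Config

variable {W : Type*} [AddCommGroup W] [Module ℝ W]

/-- A normalised functional for the facet `F` of `H`. -/
def Norm (H F : Finset W) (v : W) (φ : W →ₗ[ℝ] ℝ) : Prop :=
  (∀ w ∈ H, φ w ≤ 0) ∧ φ v = -1 ∧ ∀ w ∈ H, (φ w = 0 ↔ w ∈ F)

lemma exists_norm {V : Finset W} {F H : Face V} {v : W} (hv : v ∈ H.1)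
    (hvF : v ∉ F.1) : ∃ φ : W →ₗ[ℝ] ℝ, Norm H.1 F.1 v φ := by
  obtain ⟨φ, h1, h2⟩ := F.2
  have hvV := H.2.subset hv
  have h3 : φ v < 0 := lt_of_le_of_ne (h1 v hvV) (fun h => hvF ((h2 v).2 ⟨hvV, h⟩))
  have hc : 0 < -(φ v)⁻¹ := by
    have := inv_lt_zero.2 h3
    linarith
  refine ⟨(-(φ v)⁻¹) • φ, fun w hw => ?_, ?_, fun w hw => ?_⟩
  · have := h1 w (H.2.subset hw)
    simp only [LinearMap.smul_apply, smul_eq_mul]
    exact mul_nonpos_of_nonneg_of_nonpos hc.le this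
  · simp only [LinearMap.smul_apply, smul_eq_mul]
    rw [neg_mul, inv_mul_cancel₀ h3.ne]
  · simp only [LinearMap.smul_apply, smul_eq_mul]
    rw [h2, mul_eq_zero]
    constructor
    · rintro (h | h)
      · exact absurd h hc.ne'
      · exact ⟨H.2.subset hw, h⟩
    · rintro ⟨_, h⟩
      exact Or.inr h

lemma span_insert_eq {F H : Finset W} {v : W} (hFH : F ⊆ H) (hv : v ∈ H)
    (hvF : v ∉ Submodule.span ℝ (F : Set W)) (hr : rank F + 1 = rank H) :
    Submodule.span ℝ (insert v (F : Set W)) = Submodule.span ℝ (H : Set W) := by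
  have : Module.Finite ℝ (Submodule.span ℝ (H : Set W)) :=
    FiniteDimensional.span_of_finite ℝ H.finite_toSet
  have : Module.Finite ℝ (Submodule.span ℝ (insert v (F : Set W))) :=
    FiniteDimensional.span_of_finite ℝ (F.finite_toSet.insert v)
  apply Submodule.eq_of_le_of_finrank_le
  · apply Submodule.span_mono
    intro x hx
    rcases Set.mem_insert_iff.1 hx with rfl | hx
    · exact hv
    · exact hFH hx
  · have h1 : Submodule.span ℝ (F : Set W) < Submodule.span ℝ (insert v (F : Set W)) := by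
      refine lt_of_le_of_ne (Submodule.span_mono (Set.subset_insert _ _)) ?_
      intro h
      rw [h] at hvF
      exact hvF (Submodule.subset_span (Set.mem_insert _ _))
    have h2 := Submodule.finrank_lt_finrank_of_lt h1
    unfold rank at hr
    omega

lemma norm_unique {F H : Finset W} {v : W} (hFH : F ⊆ H) (hv : v ∈ H)
    (hvF : v ∉ Submodule.span ℝ (F : Set W)) (hr : rank F + 1 = rank H) {φ φ' : W →ₗ[ℝ] ℝ}
    (h : Norm H F v φ) (h' : Norm H F v φ') {w : W} (hw : w ∈ Submodule.span ℝ (H : Set W)) :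
    φ w = φ' w := by
  rw [← span_insert_eq hFH hv hvF hr] at hw
  have h1 : Submodule.span ℝ (insert v (F : Set W)) ≤ LinearMap.ker (φ - φ') := by
    rw [Submodule.span_le]
    intro x hx
    rw [SetLike.mem_coe, LinearMap.mem_ker, LinearMap.sub_apply]
    rcases Set.mem_insert_iff.1 hx with rfl | hx
    · rw [h.2.1, h'.2.1, sub_self]
    · rw [(h.2.2 x (hFH hx)).2 hx, (h'.2.2 x (hFH hx)).2 hx, sub_self]
  have h2 := h1 hw
  rw [LinearMap.mem_ker, LinearMap.sub_apply, sub_eq_zero] at h2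
  exact h2

lemma Norm.notMem_span {F H : Finset W} {v : W} (hFH : F ⊆ H) {φ : W →ₗ[ℝ] ℝ}
    (h : Norm H F v φ) : v ∉ Submodule.span ℝ (F : Set W) := by
  intro hv
  have := zero_of_mem_span (fun w hw => (h.2.2 w (hFH hw)).2 hw) hv
  rw [h.2.1] at this
  norm_num at this

open Classical in
/-- The improvement step. -/
lemma improve {V : Finset W} {E P H F₁ F₂ : Face V} {v : W} (hvP : v ∈ P.1) (hPH : P ≤ H)
    (hF₁ : IsFac (fun F : Face V => rank F.1) E P H F₁)
    (hF₂ : IsFac (fun F : Face V => rank F.1) E P H F₂)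
    {φ₁ φ₂ : W →ₗ[ℝ] ℝ} (n1 : Norm H.1 F₁.1 v φ₁) (n2 : Norm H.1 F₂.1 v φ₂) (hne : F₁ ≠ F₂) :
    ∃ F' : Face V, IsFac (fun F : Face V => rank F.1) E P H F' ∧
      rank (F₁ ⊓ F').1 + 2 = rank H.1 ∧ ∃ ψ : W →ₗ[ℝ] ℝ, Norm H.1 F'.1 v ψ ∧
      φ₁ (∑ x ∈ F₂.1, x) < ψ (∑ x ∈ F₂.1, x) := by
  obtain ⟨a1, a2, a3, a4⟩ := hF₁
  obtain ⟨b1, b2, b3, b4⟩ := hF₂
  simp only at a3 b3
  have a2' : F₁.1 ⊆ H.1 := a2
  have b2' : F₂.1 ⊆ H.1 := b2
  have hvH : v ∈ H.1 := hPH hvP
  have hvF₁ := n1.notMem_span a2'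
  have hvF₂ := n2.notMem_span b2'
  set w₂ : W := ∑ x ∈ F₂.1, x with hw₂
  have hw₂H : w₂ ∈ Submodule.span ℝ (H.1 : Set W) :=
    Submodule.sum_mem _ (fun x hx => Submodule.subset_span (b2' hx))
  have h1 : φ₂ w₂ = 0 := by
    rw [hw₂, map_sum]
    exact Finset.sum_eq_zero (fun x hx => (n2.2.2 x (b2' hx)).2 hx)
  have h2 : φ₁ w₂ < 0 := by
    rw [hw₂, map_sum]
    apply Finset.sum_neg' (fun x hx => n1.1 x (b2' hx))
    by_contra hno
    push Not at hno
    have hsub : F₂ ≤ F₁ := by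
      intro x hx
      exact (n1.2.2 x (b2' hx)).1 (le_antisymm (n1.1 x (b2' hx)) (hno x hx))
    rcases eq_or_lt_of_le hsub with h | h
    · exact hne h.symm
    · have := face_rank_lt h
      omega
  set l : ℝ := -φ₁ w₂ with hl
  have hl0 : 0 < l := by rw [hl]; linarith
  set w' : W := w₂ - l • v with hw'
  have h3 : φ₁ w' = 0 := by
    rw [hw', map_sub, map_smul, n1.2.1, hl]
    simp
  have h4 : φ₂ w' = l := by
    rw [hw', map_sub, map_smul, n2.2.1, h1]
    simp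
  have h5 : w' ∈ Submodule.span ℝ (F₁.1 : Set W) := by
    have hw'H : w' ∈ Submodule.span ℝ (H.1 : Set W) :=
      Submodule.sub_mem _ hw₂H (Submodule.smul_mem _ _ (Submodule.subset_span hvH))
    rw [← span_insert_eq a2' hvH hvF₁ a3, Submodule.mem_span_insert] at hw'H
    obtain ⟨c, u, hu, hcu⟩ := hw'H
    have hu0 : φ₁ u = 0 := zero_of_mem_span (fun w hw => (n1.2.2 w (a2' hw)).2 hw) hu
    rw [hcu, map_add, map_smul, n1.2.1, hu0] at h3
    have hc : c = 0 := by
      simpa using h3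
    rw [hcu, hc, zero_smul, zero_add]
    exact hu
  obtain ⟨θ, t1, t2, t3, t4⟩ := rot F₁.1 φ₂ (fun x hx => n2.1 x (a2' hx)) w' h5
    (by rw [h4]; exact hl0.ne')
  set η : W →ₗ[ℝ] ℝ := θ + (θ v) • φ₁ with hη
  have e1 : η v = 0 := by
    rw [hη]; simp [n1.2.1]
  have e2 : ∀ x ∈ F₁.1, η x = θ x := by
    intro x hx
    rw [hη]; simp [(n1.2.2 x (a2' hx)).2 hx]
  have e3 : η w₂ = l := by
    have : w₂ = w' + l • v := by rw [hw']; abel
    rw [this, map_add, map_smul, e1, smul_zero, add_zero, hη]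
    simp only [LinearMap.add_apply, LinearMap.smul_apply, smul_eq_mul]
    rw [h3, mul_zero, add_zero, t2, h4]
  have e4 : ∃ x ∈ H.1, 0 < η x := by
    by_contra hno
    push Not at hno
    have : η w₂ ≤ 0 := by
      rw [hw₂, map_sum]
      exact Finset.sum_nonpos (fun x hx => hno x (b2' hx))
    linarith
  obtain ⟨t, ht, s1, w, s2, s3, s4⟩ := push H.1 φ₁ η n1.1 e4 (fun x hx h => by
    have hx1 := (n1.2.2 x hx).1 h
    rw [e2 x hx1]
    exact t1 x hx1)
  set ψ : W →ₗ[ℝ] ℝ := φ₁ + t • η with hψ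
  have ψap : ∀ x, ψ x = φ₁ x + t * η x := fun x => by rw [hψ]; simp
  have ψle : ∀ x ∈ H.1, ψ x ≤ 0 := fun x hx => by rw [ψap]; exact s1 x hx
  have ψv : ψ v = -1 := by rw [ψap, e1, n1.2.1]; simp
  set F' : Face V := ⟨H.1.filter (fun x => ψ x = 0), H.2.of_face ψ ψle⟩ with hF'
  have memF' : ∀ x, x ∈ F'.1 ↔ x ∈ H.1 ∧ ψ x = 0 := fun x => by
    rw [hF']; exact Finset.mem_filter
  have nψ : Norm H.1 F'.1 v ψ := ⟨ψle, ψv, fun x hx => by rw [memF']; exact ⟨fun h => ⟨hx, h⟩,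
    fun h => h.2⟩⟩
  have hF'H : F'.1 ⊆ H.1 := fun x hx => ((memF' x).1 hx).1
  have hint : (F₁ ⊓ F').1 = F₁.1.filter (fun x => θ x = 0) := by
    rw [face_inf]
    ext x
    rw [Finset.mem_inter, memF', Finset.mem_filter]
    constructor
    · rintro ⟨hx1, hx2, hx3⟩
      refine ⟨hx1, ?_⟩
      rw [ψap, (n1.2.2 x hx2).2 hx1, e2 x hx1, zero_add] at hx3
      rcases mul_eq_zero.1 hx3 with h | h
      · exact absurd h ht.ne'
      · exact h
    · rintro ⟨hx1, hx2⟩
      refine ⟨hx1, a2' hx1, ?_⟩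
      rw [ψap, (n1.2.2 x (a2' hx1)).2 hx1, e2 x hx1, hx2]
      ring
  have hrJ : rank (F₁ ⊓ F').1 + 2 = rank H.1 := by
    rw [hint]; omega
  have hup : rank F'.1 < rank H.1 :=
    rank_lt_of_mem hF'H (Submodule.subset_span hvH) (nψ.notMem_span hF'H)
  have hlow : rank (F₁ ⊓ F').1 < rank F'.1 := by
    apply rank_lt_of_mem (p := w)
    · rw [face_inf]; exact Finset.inter_subset_right
    · exact Submodule.subset_span ((memF' w).2 ⟨s2, by rw [ψap]; exact s4⟩)
    · intro hmem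
      have := zero_of_mem_span (φ := η) (by
        intro x hx
        rw [hint, Finset.mem_filter] at hx
        rw [e2 x hx.1, hx.2]) hmem
      linarith
  refine ⟨F', ⟨?_, hF'H, ?_, ?_⟩, hrJ, ψ, nψ, ?_⟩
  · intro x hx
    have hx1 : x ∈ F₁.1 := a1 hx
    have hx2 : x ∈ F₂.1 := b1 hx
    have hθx := t3 x hx1 ((n2.2.2 x (b2' hx2)).2 hx2)
    have : x ∈ (F₁ ⊓ F').1 := by rw [hint, Finset.mem_filter]; exact ⟨hx1, hθx⟩
    rw [face_inf] at this
    exact (Finset.mem_inter.1 this).2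
  · simp only
    omega
  · intro h
    have := (memF' v).1 (h hvP)
    rw [ψv] at this
    norm_num at this
  · rw [ψap, e3]
    have := mul_pos ht hl0
    linarith

open Classical in
lemma face_conn {V : Finset W} {E P H F₁ F₂ : Face V} (hEP : E ≤ P) (hPH : P ≤ H)
    (hr : rank P.1 = rank E.1 + 1)
    (hF₁ : IsFac (fun F : Face V => rank F.1) E P H F₁)
    (hF₂ : IsFac (fun F : Face V => rank F.1) E P H F₂) :
    ReflTransGen (fun F F' => IsFac (fun F : Face V => rank F.1) E P H F ∧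
      IsFac (fun F : Face V => rank F.1) E P H F' ∧ rank (F ⊓ F').1 + 2 = rank H.1) F₁ F₂ := by
  -- a vector in `P` outside `E`
  obtain ⟨v, hvP, hvE⟩ : ∃ v ∈ P.1, v ∉ E.1 := by
    by_contra hno
    push Not at hno
    have := rank_mono hno
    omega
  have hvH : v ∈ H.1 := hPH hvP
  have hvF : ∀ F, IsFac (fun F : Face V => rank F.1) E P H F → v ∉ F.1 := by
    intro F hF hv
    obtain ⟨a1, a2, a3, a4⟩ := hF
    have h1 : E < F ⊓ P := by
      refine lt_of_le_of_ne (le_inf a1 hEP) (fun h => hvE ?_)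
      rw [h, face_inf, Finset.mem_inter]
      exact ⟨hv, hvP⟩
    have h2 := face_rank_lt h1
    rcases eq_or_lt_of_le (inf_le_right : F ⊓ P ≤ P) with h | h
    · exact a4 (h ▸ inf_le_left)
    · have := face_rank_lt h
      omega
  have hex : ∀ F : Face V, ∃ φ : W →ₗ[ℝ] ℝ,
      IsFac (fun F : Face V => rank F.1) E P H F → Norm H.1 F.1 v φ := by
    intro F
    by_cases h : IsFac (fun F : Face V => rank F.1) E P H F
    · obtain ⟨φ, hφ⟩ := exists_norm hvH (hvF F h)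
      exact ⟨φ, fun _ => hφ⟩
    · exact ⟨0, fun h' => absurd h' h⟩
  choose Φ hΦ using hex
  set R := (Finset.univ : Finset (Face V)).filter (fun F => IsFac (fun F : Face V => rank F.1) E P H F ∧
    ReflTransGen (fun F F' => IsFac (fun F : Face V => rank F.1) E P H F ∧
      IsFac (fun F : Face V => rank F.1) E P H F' ∧ rank (F ⊓ F').1 + 2 = rank H.1) F₁ F) with hR
  have hRne : R.Nonempty := ⟨F₁, by
    rw [hR, Finset.mem_filter]; exact ⟨Finset.mem_univ _, hF₁, ReflTransGen.refl⟩⟩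
  obtain ⟨F, hF, hmax⟩ := Finset.exists_max_image R (fun F => Φ F (∑ x ∈ F₂.1, x)) hRne
  rw [hR, Finset.mem_filter] at hF
  obtain ⟨_, hFac, hreach⟩ := hF
  by_cases heq : F = F₂
  · rw [← heq]; exact hreach
  · exfalso
    obtain ⟨F', f1, f2, ψ, f3, f4⟩ := improve hvP hPH hFac hF₂ (hΦ F hFac) (hΦ F₂ hF₂) heq
    have hmem : F' ∈ R := by
      rw [hR, Finset.mem_filter]
      exact ⟨Finset.mem_univ _, f1, hreach.tail ⟨hFac, f1, f2⟩⟩
    have h1 := hmax F' hmem
    have h2 : Φ F' (∑ x ∈ F₂.1, x) = ψ (∑ x ∈ F₂.1, x) := by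
      have hF'H : F'.1 ⊆ H.1 := f1.2.1
      apply norm_unique hF'H hvH (f3.notMem_span hF'H) f1.2.2.1 (hΦ F' f1) f3
      exact Submodule.sum_mem _ (fun x hx => Submodule.subset_span (hF₂.2.1 hx))
    linarith

/-- The face lattice of a configuration. -/
noncomputable def faceLat (V : Finset W) : FaceLat (Face V) where
  rk F := rank F.1
  rk_lt h := face_rank_lt h
  facet h1 h2 h3 := face_facet h1 h2 h3
  conn h1 h2 h3 h4 h5 := face_conn h1 h2 h3 h4 h5

end Config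

end Pool.Agent.Sallee
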