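import Mathlib
import Pool.Agent.Lib.MP_db3372_co.Config

/-!
# Configurations whose mixed atoms have small rank
-/

set_option autoImplicit false

namespace Pool.Agent.Sallee

open Finset Relation

namespace FaceLat

variable {L : Type*} [SemilatticeInf L] (S : FaceLat L)

/-- `V` is a mixed atom of `[E, H]`. -/
def MixAtom (A B : L → Prop) (t : ℕ) (E H V : L) : Prop :=
  E ≤ V ∧ V ≤ H ∧ S.rk V = S.rk E + 1 ∧ S.Mixed A B t H V

variable {S} in
lemma MixAtom.symm {A B : L → Prop} {t : ℕ} {E H V : L} (h : S.MixAtom A B t E H V) :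
    S.MixAtom B A t E H V := ⟨h.1, h.2.1, h.2.2.1, h.2.2.2.symm⟩

/-- If there are few independent mixed atoms, every face of corank one avoiding `V` has a
non-mixed atom. -/
lemma exists_nonmixed {A B : L → Prop} {t k : ℕ} {E H V J : L}
    (hk : k + 1 ≤ t - S.rk E) (hV : S.MixAtom A B t E H V)
    (hl : ∀ l : List L, Indep E l → (∀ V ∈ l, S.MixAtom A B t E H V) → l.length ≤ k)
    (hEJ : E ≤ J) (hJH : J ≤ H) (hJ : S.rk J + 1 = t) (hVJ : ¬ V ≤ J) :
    ∃ R, E ≤ R ∧ R ≤ J ∧ S.rk R = S.rk E + 1 ∧ ¬ S.Mixed A B t H R := by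
  by_contra hno
  push Not at hno
  obtain ⟨l, l1, l2, l3⟩ := S.exists_indep hEJ
  have h1 : Indep E (V :: l) := Indep.cons l1 hEJ (fun W hW => (l3 W hW).2.1) hVJ
  have h2 := hl (V :: l) h1 (by
    intro W hW
    rcases List.mem_cons.1 hW with rfl | hW
    · exact hV
    · obtain ⟨a, b, c⟩ := l3 W hW
      exact ⟨a, b.trans hJH, c, hno W a b c⟩)
  rw [List.length_cons] at h2
  omega

variable [Fintype L]

open Classical in
lemma kay_pure {A B : L → Prop} {t k : ℕ} {E H V : L} (htH : t < S.rk H)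
    (hk : k + 1 ≤ t - S.rk E) (hV : S.MixAtom A B t E H V)
    (hl : ∀ l : List L, Indep E l → (∀ V ∈ l, S.MixAtom A B t E H V) → l.length ≤ k)
    (hall : ∀ F, IsFac S.rk E V H F → ¬ S.Sees B t F E) :
    (S.rk H - S.rk E - 2).choose (t - S.rk E - 1) ≤
      ((S.unc A B t E H).filter (fun G => ¬ V ≤ G)).card := by
  obtain ⟨v1, v2, v3, v4⟩ := id hV
  obtain ⟨hB, G, J, F, g1, g2, g3, g4, j1, j2, j3, j4, f1, f2⟩ :=
    S.pure_case v1 v2 v3 v4.2 hall
  obtain ⟨u, u1, u2, u3, u4⟩ := S.exists_nonmixed hk hV hl j1 (j2.trans g3) j3 j4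
  have hsB : S.Sees B t H u := ⟨G, g1, u2.trans j2, g3, g4⟩
  apply S.card_avoid A B t v2 u1 ((u2.trans j2).trans g3) u3 (fun h => j4 (h.trans u2))
    (by omega) htH
  intro G' h1 h2 h3 h4
  exact ⟨fun h => u4 ⟨⟨G', h, h1, h2, h3⟩, hsB⟩, fun h => h4 (hB G' h (u1.trans h1) h2 h3)⟩

open Classical in
theorem kay (A B : L → Prop) (hAB : ∀ G, A G → ¬ B G) (t : ℕ) (n : ℕ) : ∀ (E H : L) (k : ℕ),
    S.rk H - S.rk E = n → E ≤ H → S.rk E < t → t < S.rk H → S.Mixed A B t H E →
    k + 1 ≤ t - S.rk E →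
    (∀ l : List L, Indep E l → (∀ V ∈ l, S.MixAtom A B t E H V) → l.length ≤ k) →
    (n - 1).choose (t - S.rk E - 1) ≤ (S.unc A B t E H).card + k.choose (t - S.rk E - 1) := by
  induction n with
  | zero =>
    intro E H k hn hEH h1 h2
    omega
  | succ n ih =>
    intro E H k hn hEH hEt htH hmix hk hl
    rcases Nat.lt_or_ge (t - S.rk E) 2 with hσ | hσ
    · rw [show t - S.rk E - 1 = 0 by omega, Nat.choose_zero_right, Nat.choose_zero_right]
      omega
    by_cases hM : ∃ V, S.MixAtom A B t E H V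
    · obtain ⟨V, hV⟩ := hM
      obtain ⟨v1, v2, v3, v4⟩ := id hV
      have hk1 : 1 ≤ k := by
        have := hl [V] (Indep.cons Indep.nil (le_refl E) (by simp) (S.not_le_of_rk_lt (by omega)))
          (by simpa using hV)
        simpa using this
      -- above `V`
      have i1 := ih V H (k - 1) (by omega) v2 (by omega) htH v4 (by omega) (by
        intro l hl1 hl2
        obtain ⟨l', a1, a2, a3, a4⟩ := hl1.lift S v1 v3
          (fun W hW => ⟨(hl2 W hW).1, (hl2 W hW).2.2.1⟩)
        have := hl l' a1 (by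
          intro U hU
          obtain ⟨b1, b2, b3⟩ := a3 U hU
          rcases b3 with rfl | ⟨W, hW, hUW⟩
          · exact hV
          · exact ⟨b1, hUW.trans (hl2 W hW).2.1, b2, (hl2 W hW).2.2.2.anti hUW⟩)
        omega)
      rw [S.unc_above A B t v1, show t - S.rk V - 1 = t - S.rk E - 1 - 1 by omega] at i1
      -- avoiding `V`
      have i2 : (n - 1).choose (t - S.rk E - 1) ≤
          ((S.unc A B t E H).filter (fun G => ¬ V ≤ G)).card +
            (k - 1).choose (t - S.rk E - 1) := by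
        have hn2 : n - 1 = S.rk H - S.rk E - 2 := by omega
        rcases S.facet_cases A B t v1 v2 v3 with ⟨F, hF, hm⟩ | ⟨F, hF, hA, hB⟩ |
          ⟨F₁, F₂, hF₁, hF₂, hK, h1, h2⟩ | hall | hall
        · have htF : t < S.rk F := by
            by_contra hcon
            obtain ⟨⟨G, a, b, c, d⟩, ⟨G', a', b', c', d'⟩⟩ := hm
            have e1 := S.eq_of_le_of_rk_le c (by omega)
            have e2 := S.eq_of_le_of_rk_le c' (by omega)
            rw [e1] at a
            rw [e2] at a'
            exact hAB _ a a'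
          have := ih E F (k - 1) (by have := hF.2.2.1; omega) hF.1 hEt htF hm (by omega) (by
            intro l hl1 hl2
            have h1 : Indep E (V :: l) :=
              Indep.cons hl1 hF.1 (fun W hW => (hl2 W hW).2.1) hF.2.2.2
            have h2 := hl (V :: l) h1 (by
              intro W hW
              rcases List.mem_cons.1 hW with rfl | hW
              · exact hV
              · obtain ⟨a, b, c, d⟩ := hl2 W hW
                exact ⟨a, b.trans hF.2.1, c, d.mono hF.2.1⟩)
            rw [List.length_cons] at h2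
            omega)
          have h3 := Finset.card_le_card (S.unc_below A B t hF)
          omega
        · have := S.card_neutral A B t hEt.le htH hF hA hB
          have h4 : (n - 1).choose (t - S.rk E - 1) ≤ (S.rk H - S.rk E - 1).choose (t - S.rk E) := by
            obtain ⟨m, hm⟩ : ∃ m, n = m + 1 := ⟨n - 1, by omega⟩
            obtain ⟨j, hj⟩ : ∃ j, t - S.rk E = j + 1 := ⟨t - S.rk E - 1, by omega⟩
            rw [hj, show S.rk H - S.rk E - 1 = m + 1 by omega, hm, Nat.choose_succ_succ]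
            simp
          omega
        · rw [hn2]
          have := S.card_ridge A B t hEt htH hF₁ hF₂ hK h1 h2 (by
            intro J j1 j2 j3
            obtain ⟨R, r1, r2, _, r4⟩ := S.exists_nonmixed hk hV hl j1
              ((j2.trans inf_le_left).trans hF₁.2.1) j3
              (fun h => hF₁.2.2.2 ((h.trans j2).trans inf_le_left))
            exact ⟨R, r1, r2, r4⟩)
          omega
        · rw [hn2]
          have := S.kay_pure htH hk hV hl hall
          omega
        · rw [hn2]
          have := S.kay_pure htH hk hV.symm (fun l h1 h2 => hl l h1 (fun V hV => (h2 V hV).symm))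
            hall
          rw [S.unc_comm] at this
          omega
      have h5 := Finset.card_filter_add_card_filter_not (s := S.unc A B t E H)
        (fun G => V ≤ G)
      have hp : (n + 1 - 1).choose (t - S.rk E - 1) =
          (n - 1).choose (t - S.rk E - 1 - 1) + (n - 1).choose (t - S.rk E - 1) := by
        obtain ⟨m, hm⟩ : ∃ m, n = m + 1 := ⟨n - 1, by omega⟩
        obtain ⟨j, hj⟩ : ∃ j, t - S.rk E - 1 = j + 1 := ⟨t - S.rk E - 2, by omega⟩
        rw [hj, hm]
        simp only [Nat.add_sub_cancel]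
        rw [Nat.choose_succ_succ]
      have hp2 : k.choose (t - S.rk E - 1) =
          (k - 1).choose (t - S.rk E - 1 - 1) + (k - 1).choose (t - S.rk E - 1) := by
        obtain ⟨m, hm⟩ : ∃ m, k = m + 1 := ⟨k - 1, by omega⟩
        obtain ⟨j, hj⟩ : ∃ j, t - S.rk E - 1 = j + 1 := ⟨t - S.rk E - 2, by omega⟩
        rw [hj, hm]
        simp only [Nat.add_sub_cancel]
        rw [Nat.choose_succ_succ]
      omega
    · push Not at hM
      have hb := S.bitype (n + 1) (fun u => S.Sees A t H u) E H t hn hEH (by omega) htH.le (by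
        obtain ⟨⟨G, a1, a2, a3, a4⟩, ⟨G', b1, b2, b3, b4⟩⟩ := hmix
        obtain ⟨u, u1, u2, u3⟩ := S.exists_atom (S.lt_of_rk_lt a2 (by omega))
        obtain ⟨w, w1, w2, w3⟩ := S.exists_atom (S.lt_of_rk_lt b2 (by omega))
        refine ⟨⟨u, u1, u2.trans a3, u3, ⟨G, a1, u2, a3, a4⟩⟩, ⟨w, w1, w2.trans b3, w3, ?_⟩⟩
        intro hw
        exact hM w ⟨w1, w2.trans b3, w3, hw, ⟨G', b1, w2, b3, b4⟩⟩)
      refine hb.trans (le_trans (Finset.card_le_card ?_) (Nat.le_add_right _ _))
      intro G hG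
      rw [Finset.mem_filter, S.mem_lev] at hG
      obtain ⟨⟨g1, g2, g3⟩, ⟨u, u1, u2, u3, u4⟩, ⟨w, w1, w2, w3, w4⟩⟩ := hG
      simp only [unc, Finset.mem_filter, S.mem_lev]
      refine ⟨⟨g1, g2, g3⟩, fun h => w4 ⟨G, h, w2, g2, g3⟩, fun h => ?_⟩
      exact hM u ⟨u1, u2.trans g2, u3, u4, ⟨G, h, u2, g2, g3⟩⟩

end FaceLat

end Pool.Agent.Sallee
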