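import Mathlib
import Pool.Agent.Lib.MP_db3372_co.Kay

/-!
# The two-coloured LYM-type inequality
-/

set_option autoImplicit false

namespace Pool.Agent.Sallee

open Finset Relation

/-- The coefficient `ρ(N-1)/(σ(σ-1))` is at most one. -/
lemma alpha_le_one (N σ ρ : ℝ) (hρ : 0 < ρ) (hρσ : ρ + 1 ≤ σ) (hb : N - σ ≤ σ - ρ) :
    ρ * (N - 1) ≤ σ * (σ - 1) := by
  nlinarith [mul_nonneg (show 0 ≤ σ - ρ by linarith) (show 0 ≤ σ - ρ - 1 by linarith),
    mul_le_mul_of_nonneg_left hb hρ.le]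

/-- Numerical part of the pure case. -/
lemma light_aux2 (N σ ρ xV xa yV ya : ℝ) (hρ : 0 < ρ) (hρσ : ρ + 1 ≤ σ)
    (hσN : σ + 1 ≤ N) (hb : N - σ ≤ σ - ρ)
    (h1 : 1 ≤ (N - 1) / (σ - 1) * xV + σ / ρ * yV)
    (h2 : 1 ≤ σ / (N - σ) * xa + σ / (σ - ρ) * ya)
    (hlt : xV + xa < 1 - (yV + ya)) (hx : 0 ≤ xV + xa) :
    (N - σ) / (N - 1) * (1 - (yV + ya)) ≤ xa := by
  by_contra hcon
  rw [not_le] at hcon
  set W := 1 - (yV + ya) with hW
  have hσ : 0 < σ := by linarith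
  have hσ1 : 0 < σ - 1 := by linarith
  have hN1 : 0 < N - 1 := by linarith
  have hNσ : 0 < N - σ := by linarith
  have hσρ : 0 < σ - ρ := by linarith
  have hW0 : 0 < W := by linarith
  set a₁ := ρ * (N - 1) / (σ * (σ - 1)) with ha₁
  set a₂ := (σ - ρ) / (N - σ) with ha₂
  have h1' : ρ / σ ≤ a₁ * xV + yV := by
    have := mul_le_mul_of_nonneg_left h1 (show 0 ≤ ρ / σ by positivity)
    have e : ρ / σ * ((N - 1) / (σ - 1) * xV + σ / ρ * yV) = a₁ * xV + yV := by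
      rw [ha₁]; field_simp
    rw [mul_one, e] at this
    exact this
  have h2' : (σ - ρ) / σ ≤ a₂ * xa + ya := by
    have := mul_le_mul_of_nonneg_left h2 (show 0 ≤ (σ - ρ) / σ by positivity)
    have e : (σ - ρ) / σ * (σ / (N - σ) * xa + σ / (σ - ρ) * ya) = a₂ * xa + ya := by
      rw [ha₂]; field_simp
    rw [mul_one, e] at this
    exact this
  have hsum : ρ / σ + (σ - ρ) / σ = 1 := by field_simp; ring
  have hWle : W ≤ a₁ * xV + a₂ * xa := by rw [hW]; linarith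
  have ha₁le : a₁ ≤ 1 := by
    rw [ha₁, div_le_one (by positivity)]
    exact alpha_le_one N σ ρ hρ hρσ hb
  have ha₂le : 1 ≤ a₂ := by
    rw [ha₂, one_le_div hNσ]; exact hb
  have ha₁pos : 0 < a₁ := by positivity
  have e1 : a₁ * (xV + xa) < a₁ * W := mul_lt_mul_of_pos_left hlt ha₁pos
  have e2 : (a₂ - a₁) * xa ≤ (a₂ - a₁) * ((N - σ) / (N - 1) * W) :=
    mul_le_mul_of_nonneg_left hcon.le (by linarith)
  have e3 : a₁ * W + (a₂ - a₁) * ((N - σ) / (N - 1) * W) =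
      (ρ / σ + (σ - ρ) / (N - 1)) * W := by
    rw [ha₁, ha₂]
    field_simp
    ring
  have e4 : (σ - ρ) / (N - 1) ≤ (σ - ρ) / σ :=
    div_le_div_of_nonneg_left hσρ.le hσ (by linarith)
  have e5 : (ρ / σ + (σ - ρ) / (N - 1)) * W ≤ 1 * W :=
    mul_le_mul_of_nonneg_right (by linarith) hW0.le
  nlinarith

namespace FaceLat

variable {L : Type*} [SemilatticeInf L] (S : FaceLat L) [Fintype L]

open Classical in
/-- The one-coloured inequality in the pure case. -/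
lemma pure_lym1 (A B : L → Prop) {t q : ℕ} {E V H : L} (hqt : q < t) (hEq : S.rk E ≤ q)
    (hV : S.MixAtom A B t E H V)
    (hall : ∀ F, IsFac S.rk E V H F → ¬ S.Sees B t F E) {r' : ℕ} (ht : t ≤ r')
    (hr' : r' + 1 ≤ S.rk H) (hr2 : r' + q + 1 ≤ 2 * t) :
    (1 : ℝ) ≤ (((S.unc A B t E H).filter (fun G => ¬ V ≤ G)).card : ℝ) /
        ((r' - S.rk E).choose (t - S.rk E) : ℕ) +
      (((S.mix A B t q E H).filter (fun G => ¬ V ≤ G)).card : ℝ) /
        ((t - S.rk E - 1).choose (q - S.rk E) : ℕ) := by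
  obtain ⟨v1, v2, v3, v4⟩ := id hV
  obtain ⟨hB, G, J, F, g1, g2, g3, g4, j1, j2, j3, j4, f1, f2⟩ :=
    S.pure_case v1 v2 v3 v4.2 hall
  obtain ⟨F', k1, k2, k3⟩ := S.exists_rank f1 (show S.rk J ≤ r' by omega)
    (show r' ≤ S.rk F by have := f2.2.2.1; omega)
  have hVF' : ¬ V ≤ F' := fun h => f2.2.2.2 (h.trans k2)
  have hF'H : F' ≤ H := k2.trans f2.2.1
  have h := S.lym1 A t q _ E J F' rfl j1 k1 hEq (by omega) (by omega) (by omega) (by omega)
  rw [k3, show S.rk J - S.rk E = t - S.rk E - 1 by omega] at h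
  have sz : ((S.zset A t E F').card : ℝ) ≤
      (((S.unc A B t E H).filter (fun G => ¬ V ≤ G)).card : ℝ) := by
    have : (S.zset A t E F').card ≤ ((S.unc A B t E H).filter (fun G => ¬ V ≤ G)).card := by
      apply Finset.card_le_card
      intro G'
      simp only [zset, unc, Finset.mem_filter, S.mem_lev]
      rintro ⟨⟨a, b, c⟩, e⟩
      have hVG' : ¬ V ≤ G' := fun h => hVF' (h.trans b)
      exact ⟨⟨⟨a, b.trans hF'H, c⟩, e, fun h => hVG' (hB G' h a (b.trans hF'H) c)⟩, hVG'⟩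
    exact_mod_cast this
  have sy : ((S.yset A t q E J F').card : ℝ) ≤
      (((S.mix A B t q E H).filter (fun G => ¬ V ≤ G)).card : ℝ) := by
    have : (S.yset A t q E J F').card ≤ ((S.mix A B t q E H).filter (fun G => ¬ V ≤ G)).card := by
      apply Finset.card_le_card
      intro R
      simp only [yset, mix, Finset.mem_filter, S.mem_lev]
      rintro ⟨⟨a, b, c⟩, e⟩
      exact ⟨⟨⟨a, (b.trans j2).trans g3, c⟩, ⟨e.mono hF'H, ⟨G, g1, b.trans j2, g3, g4⟩⟩⟩,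
        fun h => j4 (h.trans b)⟩
    exact_mod_cast this
  refine h.trans (add_le_add ?_ ?_)
  · exact div_le_div_of_nonneg_right sz (by positivity)
  · exact div_le_div_of_nonneg_right sy (by positivity)

open Classical in
/-- What happens away from a mixed atom. -/
lemma avoid_cases (A B : L → Prop) (hAB : ∀ G, A G → ¬ B G) {t q : ℕ} {E V H : L}
    (hqt : q < t) (hEq : S.rk E ≤ q) (htH : t < S.rk H) (hV : S.MixAtom A B t E H V) :
    (∃ F, IsFac S.rk E V H F ∧ S.Mixed A B t F E ∧ t < S.rk F) ∨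
    ((S.rk H - S.rk E - 2).choose (t - S.rk E - 1) ≤
      ((S.unc A B t E H).filter (fun G => ¬ V ≤ G)).card) ∨
    ((t - S.rk E - 1).choose (q - S.rk E) ≤
      ((S.mix A B t q E H).filter (fun G => ¬ V ≤ G)).card) ∨
    (∀ r', t ≤ r' → r' + 1 ≤ S.rk H → r' + q + 1 ≤ 2 * t →
      (1 : ℝ) ≤ (((S.unc A B t E H).filter (fun G => ¬ V ≤ G)).card : ℝ) /
        ((r' - S.rk E).choose (t - S.rk E) : ℕ) +
      (((S.mix A B t q E H).filter (fun G => ¬ V ≤ G)).card : ℝ) /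
        ((t - S.rk E - 1).choose (q - S.rk E) : ℕ)) := by
  obtain ⟨v1, v2, v3, v4⟩ := id hV
  rcases S.facet_cases A B t v1 v2 v3 with ⟨F, hF, hm⟩ | ⟨F, hF, hA, hB⟩ |
    ⟨F₁, F₂, hF₁, hF₂, hK, h1, h2⟩ | hall | hall
  · refine Or.inl ⟨F, hF, hm, ?_⟩
    by_contra hcon
    obtain ⟨⟨G, a, b, c, d⟩, ⟨G', a', b', c', d'⟩⟩ := hm
    have := hF.2.2.1
    have e1 := S.eq_of_le_of_rk_le c (by omega)
    have e2 := S.eq_of_le_of_rk_le c' (by omega)
    rw [e1] at a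
    rw [e2] at a'
    exact hAB _ a a'
  · refine Or.inr (Or.inl ?_)
    refine le_trans ?_ (S.card_neutral A B t (by omega) htH hF hA hB)
    obtain ⟨m, hm⟩ : ∃ m, S.rk H - S.rk E - 1 = m + 1 := ⟨S.rk H - S.rk E - 2, by omega⟩
    obtain ⟨j, hj⟩ : ∃ j, t - S.rk E = j + 1 := ⟨t - S.rk E - 1, by omega⟩
    rw [hm, hj, show S.rk H - S.rk E - 2 = m by omega, Nat.choose_succ_succ]
    simp
  · by_cases hR : ∀ J, E ≤ J → J ≤ F₁ ⊓ F₂ → S.rk J + 1 = t → ∃ R, E ≤ R ∧ R ≤ J ∧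
      ¬ S.Mixed A B t H R
    · exact Or.inr (Or.inl (S.card_ridge A B t (by omega) htH hF₁ hF₂ hK h1 h2 hR))
    · refine Or.inr (Or.inr (Or.inl ?_))
      push Not at hR
      obtain ⟨J, j1, j2, j3, j4⟩ := hR
      have hVJ : ¬ V ≤ J := fun h => hF₁.2.2.2 ((h.trans j2).trans inf_le_left)
      have hc := S.card_lev j1 hEq (show q ≤ S.rk J by omega)
      rw [show S.rk J - S.rk E = t - S.rk E - 1 by omega] at hc
      refine hc.trans (Finset.card_le_card ?_)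
      intro R
      simp only [mix, Finset.mem_filter, S.mem_lev]
      rintro ⟨a, b, c⟩
      exact ⟨⟨⟨a, (b.trans j2).trans (inf_le_left.trans hF₁.2.1), c⟩, j4 R a b⟩,
        fun h => hVJ (h.trans b)⟩
  · exact Or.inr (Or.inr (Or.inr (fun r' a b c => S.pure_lym1 A B hqt hEq hV hall a b c)))
  · refine Or.inr (Or.inr (Or.inr (fun r' a b c => ?_)))
    have := S.pure_lym1 B A hqt hEq hV.symm hall a b c
    rwa [S.unc_comm, S.mix_comm] at this

end FaceLat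

end Pool.Agent.Sallee
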