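import Mathlib
import Pool.Agent.Lib.MP_db3372_co.Lym

/-!
# The two-coloured LYM-type inequality: main theorem
-/

set_option autoImplicit false

namespace Pool.Agent.Sallee

open Finset Relation

lemma frac_aux1 (a b x D : ℝ) (ha : a ≠ 0) (hb : b ≠ 0) (hD : D ≠ 0) :
    a / b * (x / D) = x / (D * (b / a)) := by
  field_simp

/-- The averaging step, numerically. -/
lemma avg_aux (N σ ρ M X Y W : ℝ) (hρ : 0 < ρ) (hσ1 : 0 < σ - 1) (hN1 : 0 < N - 1)
    (hM : 0 < M) (hW : W = 1 - Y)
    (havg : σ * (M * (ρ / σ) * (1 - (N - 1) / (σ - 1) * (X - (N - σ) / (N - 1) * W))) ≤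
      ρ * (Y * M)) : W ≤ X := by
  have hσ : 0 < σ := by linarith
  have h5 : 1 - (N - 1) / (σ - 1) * (X - (N - σ) / (N - 1) * W) ≤ Y := by
    have e : σ * (M * (ρ / σ) * (1 - (N - 1) / (σ - 1) * (X - (N - σ) / (N - 1) * W))) =
      (ρ * M) * (1 - (N - 1) / (σ - 1) * (X - (N - σ) / (N - 1) * W)) := by field_simp
    rw [e, show ρ * (Y * M) = (ρ * M) * Y by ring] at havg
    exact le_of_mul_le_mul_left havg (by positivity)
  have h6 : W ≤ (N - 1) / (σ - 1) * (X - (N - σ) / (N - 1) * W) := by linarith
  have h7 : (N - 1) / (σ - 1) * (X - (N - σ) / (N - 1) * W) =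
      ((N - 1) * X - (N - σ) * W) / (σ - 1) := by field_simp
  rw [h7, le_div_iff₀ hσ1] at h6
  have h8 : (N - 1) * W ≤ (N - 1) * X := by linarith
  exact le_of_mul_le_mul_left h8 hN1

lemma frac_aux2 (N σ ρ D M Y : ℝ) (hρ : 0 < ρ) (hσ1 : 0 < σ - 1) (hN1 : 0 < N - 1)
    (hσN : σ ≤ N - 1) (hM : 0 < M) (hD : 0 < D)
    (havg : (σ - 1) * ((M * (ρ / σ)) / (D * ((σ - 1) / (N - 1)))) ≤ ρ * (Y * M)) :
    1 / D ≤ Y := by
  have hσ : 0 < σ := by linarith
  have e1 : (σ - 1) * ((M * (ρ / σ)) / (D * ((σ - 1) / (N - 1)))) =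
      (ρ * M) * ((N - 1) / (σ * D)) := by field_simp
  rw [e1, show ρ * (Y * M) = (ρ * M) * Y by ring] at havg
  have h17 : (N - 1) / (σ * D) ≤ Y := le_of_mul_le_mul_left havg (by positivity)
  have h18 : 1 / D ≤ (N - 1) / (σ * D) := by
    rw [div_le_div_iff₀ hD (by positivity)]
    nlinarith
  linarith

/-- The case of a closed face, numerically. -/
lemma closed_aux (N σ ρ xV xa yV ya : ℝ) (hρ : 0 < ρ) (hρσ : ρ + 1 ≤ σ)
    (hσN : σ + 1 ≤ N) (hb : N - σ ≤ σ - ρ)
    (h1 : 1 ≤ (N - 1) / (σ - 1) * xV + σ / ρ * yV) (h4 : (σ - ρ) / σ ≤ ya)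
    (hxV : 0 ≤ xV) (hxa : 0 ≤ xa) : 1 ≤ xV + xa + (yV + ya) := by
  have hσ : 0 < σ := by linarith
  have hσ1 : 0 < σ - 1 := by linarith
  have hN1 : 0 < N - 1 := by linarith
  have h5 : ρ / σ ≤ ρ * (N - 1) / (σ * (σ - 1)) * xV + yV := by
    have := mul_le_mul_of_nonneg_left h1 (show 0 ≤ ρ / σ by positivity)
    have e : ρ / σ * ((N - 1) / (σ - 1) * xV + σ / ρ * yV) =
      ρ * (N - 1) / (σ * (σ - 1)) * xV + yV := by
      field_simp
    rw [mul_one, e] at this
    exact this
  have h6 : ρ * (N - 1) / (σ * (σ - 1)) ≤ 1 := by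
    rw [div_le_one (by positivity)]
    exact alpha_le_one N σ ρ hρ hρσ hb
  have h7 : ρ / σ + (σ - ρ) / σ = 1 := by field_simp; ring
  have h8 := mul_le_mul_of_nonneg_right h6 hxV
  linarith

namespace FaceLat

variable {L : Type*} [SemilatticeInf L] (S : FaceLat L) [Fintype L]

theorem lym (A B : L → Prop) (hAB : ∀ G, A G → ¬ B G) (t q : ℕ) (hqt : q < t) (n : ℕ) :
    ∀ (E H : L), S.rk H - S.rk E = n → E ≤ H → S.rk E ≤ q → t < S.rk H →
    S.rk H + q ≤ 2 * t → S.Mixed A B t H E →
    (1 : ℝ) ≤ ((S.unc A B t E H).card : ℝ) /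
        ((S.rk H - S.rk E - 1).choose (t - S.rk E - 1) : ℕ) +
      ((S.mix A B t q E H).card : ℝ) / ((t - S.rk E).choose (q - S.rk E) : ℕ) := by
  classical
  induction n with
  | zero =>
    intro E H hn hEH h1 h2
    omega
  | succ n ih =>
    intro E H hn hEH hEq htH hcond hmix
    have hDpos : (0 : ℝ) < ((S.rk H - S.rk E - 1).choose (t - S.rk E - 1) : ℕ) := by
      exact_mod_cast Nat.choose_pos (by omega)
    have hMpos : (0 : ℝ) < ((t - S.rk E).choose (q - S.rk E) : ℕ) := by
      exact_mod_cast Nat.choose_pos (by omega)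
    rcases eq_or_lt_of_le hEq with hq0 | hq0
    · -- `E` itself is mixed of rank `q`
      have hy : 1 ≤ (S.mix A B t q E H).card := by
        rw [Finset.one_le_card]
        exact ⟨E, by rw [mix, Finset.mem_filter, S.mem_lev]; exact ⟨⟨le_rfl, hEH, hq0⟩, hmix⟩⟩
      have hM1 : ((t - S.rk E).choose (q - S.rk E) : ℕ) = 1 := by
        rw [show q - S.rk E = 0 by omega, Nat.choose_zero_right]
      rw [hM1, Nat.cast_one, div_one]
      have : (0 : ℝ) ≤ ((S.unc A B t E H).card : ℝ) /
          ((S.rk H - S.rk E - 1).choose (t - S.rk E - 1) : ℕ) := by positivity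
      have h1 : (1 : ℝ) ≤ ((S.mix A B t q E H).card : ℝ) := by exact_mod_cast hy
      linarith
    -- real parameters
    set N : ℝ := ((S.rk H - S.rk E : ℕ) : ℝ) with hN
    set σ : ℝ := ((t - S.rk E : ℕ) : ℝ) with hσ
    set ρ : ℝ := ((q - S.rk E : ℕ) : ℝ) with hρ
    set D : ℝ := (((S.rk H - S.rk E - 1).choose (t - S.rk E - 1) : ℕ) : ℝ) with hD
    set M : ℝ := (((t - S.rk E).choose (q - S.rk E) : ℕ) : ℝ) with hM
    have hρ0 : 0 < ρ := by rw [hρ]; exact_mod_cast (show 0 < q - S.rk E by omega)
    have hρσ : ρ + 1 ≤ σ := by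
      rw [hρ, hσ]; exact_mod_cast (show q - S.rk E + 1 ≤ t - S.rk E by omega)
    have hσN : σ + 1 ≤ N := by
      rw [hN, hσ]; exact_mod_cast (show t - S.rk E + 1 ≤ S.rk H - S.rk E by omega)
    have hb : N - σ ≤ σ - ρ := by
      have : (S.rk H - S.rk E) + (q - S.rk E) ≤ (t - S.rk E) + (t - S.rk E) := by omega
      have : N + ρ ≤ σ + σ := by
        rw [hN, hρ, hσ]; exact_mod_cast this
      linarith
    have hσ0 : 0 < σ := by linarith
    have hσ1 : 0 < σ - 1 := by linarith
    have hN1 : 0 < N - 1 := by linarith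
    have hNσ : 0 < N - σ := by linarith
    have hσρ : 0 < σ - ρ := by linarith
    have cN1 : ((S.rk H - S.rk E - 1 : ℕ) : ℝ) = N - 1 := by
      rw [hN, Nat.cast_sub (by omega), Nat.cast_one]
    have cσ1 : ((t - S.rk E - 1 : ℕ) : ℝ) = σ - 1 := by
      rw [hσ, Nat.cast_sub (by omega), Nat.cast_one]
    -- binomial identities
    have c1 : (((S.rk H - S.rk E - 2).choose (t - S.rk E - 2) : ℕ) : ℝ) =
        D * ((σ - 1) / (N - 1)) := by
      have := choose_pred_pred (S.rk H - S.rk E - 1) (t - S.rk E - 1) (by omega) (by omega)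
      rw [cN1, cσ1] at this
      rw [← this]
      rfl
    have c2 : (((S.rk H - S.rk E - 2).choose (t - S.rk E - 1) : ℕ) : ℝ) =
        D * ((N - σ) / (N - 1)) := by
      have := choose_pred (S.rk H - S.rk E - 1) (t - S.rk E - 1) (by omega) (by omega)
      rw [cN1, cσ1, show N - 1 - (σ - 1) = N - σ by ring] at this
      rw [← this]
      rfl
    have c3 : (((t - S.rk E - 1).choose (q - S.rk E - 1) : ℕ) : ℝ) = M * (ρ / σ) := by
      exact choose_pred_pred _ _ (by omega) (by omega)
    have c4 : (((t - S.rk E - 1).choose (q - S.rk E) : ℕ) : ℝ) = M * ((σ - ρ) / σ) := by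
      exact choose_pred _ _ (by omega) (by omega)
    have c5 : (((S.rk H - S.rk E - 1).choose (t - S.rk E) : ℕ) : ℝ) =
        D * ((N - σ) / σ) := by
      have h1 := choose_pred_pred (S.rk H - S.rk E) (t - S.rk E) (by omega) (by omega)
      have h2 := choose_pred (S.rk H - S.rk E) (t - S.rk E) (by omega) (by omega)
      rw [← hN, ← hσ] at h1 h2
      rw [h2, hD, h1]
      field_simp
    by_contra hcon
    rw [not_le] at hcon
    set X : ℝ := ((S.unc A B t E H).card : ℝ) / D with hX
    set Y : ℝ := ((S.mix A B t q E H).card : ℝ) / M with hY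
    have hX0 : 0 ≤ X := by positivity
    have hY0 : 0 ≤ Y := by positivity
    set W : ℝ := 1 - Y with hW
    have hXW : X < W := by rw [hW]; linarith
    -- what happens at a mixed atom
    have hsplitX : ∀ V : L, X =
        ((((S.unc A B t E H).filter (fun R => V ≤ R)).card : ℝ) / D) +
          ((((S.unc A B t E H).filter (fun R => ¬ V ≤ R)).card : ℝ) / D) := by
      intro V
      rw [hX, ← add_div, ← Nat.cast_add, Finset.card_filter_add_card_filter_not]
    have hsplitY : ∀ V : L, Y =
        ((((S.mix A B t q E H).filter (fun R => V ≤ R)).card : ℝ) / M) +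
          ((((S.mix A B t q E H).filter (fun R => ¬ V ≤ R)).card : ℝ) / M) := by
      intro V
      rw [hY, ← add_div, ← Nat.cast_add, Finset.card_filter_add_card_filter_not]
    have habove : ∀ V, S.MixAtom A B t E H V →
        (1 : ℝ) ≤ (N - 1) / (σ - 1) *
          ((((S.unc A B t E H).filter (fun G => V ≤ G)).card : ℝ) / D) +
          σ / ρ * ((((S.mix A B t q E H).filter (fun R => V ≤ R)).card : ℝ) / M) := by
      intro V hV
      obtain ⟨v1, v2, v3, v4⟩ := hV
      have i1 := ih V H (by omega) v2 (by omega) htH hcond v4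
      rw [S.unc_above A B t v1, S.mix_above A B t q v1,
        show S.rk H - S.rk V - 1 = S.rk H - S.rk E - 2 by omega,
        show t - S.rk V - 1 = t - S.rk E - 2 by omega,
        show t - S.rk V = t - S.rk E - 1 by omega,
        show q - S.rk V = q - S.rk E - 1 by omega, c1, c3] at i1
      refine i1.trans (le_of_eq ?_)
      field_simp
    have hlight : ∀ V, S.MixAtom A B t E H V →
        (N - σ) / (N - 1) * W ≤
          ((((S.unc A B t E H).filter (fun G => ¬ V ≤ G)).card : ℝ) / D) := by
      intro V hV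
      have h1 := habove V hV
      rcases S.avoid_cases A B hAB hqt hEq htH hV with ⟨F, hF, hm, htF⟩ | h2 | h2 | h2
      · -- a mixed facet
        have i2 := ih E F (by have := hF.2.2.1; omega) hF.1 hEq htF
          (by have := hF.2.2.1; omega) hm
        rw [show S.rk F - S.rk E - 1 = S.rk H - S.rk E - 2 by have := hF.2.2.1; omega, c2] at i2
        have sx : ((S.unc A B t E F).card : ℝ) ≤
            (((S.unc A B t E H).filter (fun G => ¬ V ≤ G)).card : ℝ) := by
          exact_mod_cast Finset.card_le_card (S.unc_below A B t hF)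
        have sy : ((S.mix A B t q E F).card : ℝ) ≤ ((S.mix A B t q E H).card : ℝ) := by
          have := (Finset.card_le_card (S.mix_below A B t q hF)).trans
            (Finset.card_filter_le _ _)
          exact_mod_cast this
        have i3 : (1 : ℝ) ≤ (((S.unc A B t E H).filter (fun G => ¬ V ≤ G)).card : ℝ) /
            (D * ((N - σ) / (N - 1))) + Y := by
          refine i2.trans (add_le_add ?_ ?_)
          · exact div_le_div_of_nonneg_right sx (by positivity)
          · exact div_le_div_of_nonneg_right sy (by positivity)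
        have i4 : W ≤ (((S.unc A B t E H).filter (fun G => ¬ V ≤ G)).card : ℝ) /
            (D * ((N - σ) / (N - 1))) := by rw [hW]; linarith
        have := mul_le_mul_of_nonneg_left i4 (show 0 ≤ (N - σ) / (N - 1) by positivity)
        refine this.trans (le_of_eq ?_)
        field_simp
      · have h3 : D * ((N - σ) / (N - 1)) ≤
            (((S.unc A B t E H).filter (fun G => ¬ V ≤ G)).card : ℝ) := by
          rw [← c2]; exact_mod_cast h2
        rw [le_div_iff₀ hDpos]
        refine le_trans ?_ h3
        have hW1 : W ≤ 1 := by rw [hW]; linarith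
        have := mul_le_mul_of_nonneg_left hW1 (show 0 ≤ D * ((N - σ) / (N - 1)) by positivity)
        calc (N - σ) / (N - 1) * W * D = D * ((N - σ) / (N - 1)) * W := by ring
          _ ≤ D * ((N - σ) / (N - 1)) * 1 := this
          _ = D * ((N - σ) / (N - 1)) := by ring
      · exfalso
        have h3 : M * ((σ - ρ) / σ) ≤
            (((S.mix A B t q E H).filter (fun G => ¬ V ≤ G)).card : ℝ) := by
          rw [← c4]; exact_mod_cast h2
        have h4 : (σ - ρ) / σ ≤
            (((S.mix A B t q E H).filter (fun G => ¬ V ≤ G)).card : ℝ) / M := by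
          rw [le_div_iff₀ hMpos]; linarith
        have hx := hsplitX V
        have hy := hsplitY V
        have h9 := closed_aux N σ ρ _ _ _ _ hρ0 hρσ hσN hb h1 h4
          (show (0 : ℝ) ≤ (((S.unc A B t E H).filter (fun G => V ≤ G)).card : ℝ) / D by positivity)
          (show (0 : ℝ) ≤ (((S.unc A B t E H).filter (fun G => ¬ V ≤ G)).card : ℝ) / D by
            positivity)
        rw [← hx, ← hy] at h9
        linarith
      · -- the pure case
        have h3 := h2 (S.rk H - 1) (by omega) (by omega) (by omega)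
        rw [show S.rk H - 1 - S.rk E = S.rk H - S.rk E - 1 by omega, c5, c4] at h3
        have hx := hsplitX V
        have hy := hsplitY V
        have h4 := light_aux2 N σ ρ
          ((((S.unc A B t E H).filter (fun G => V ≤ G)).card : ℝ) / D)
          ((((S.unc A B t E H).filter (fun G => ¬ V ≤ G)).card : ℝ) / D)
          ((((S.mix A B t q E H).filter (fun G => V ≤ G)).card : ℝ) / M)
          ((((S.mix A B t q E H).filter (fun G => ¬ V ≤ G)).card : ℝ) / M)
          hρ0 hρσ hσN hb h1 (h3.trans (le_of_eq (by field_simp)))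
          (by rw [← hx, ← hy]; exact hXW) (by rw [← hx]; exact hX0)
        rw [← hy] at h4
        exact h4
    -- is there an independent list of `σ` mixed atoms?
    by_cases hlong : ∃ l : List L, Indep E l ∧ (∀ V ∈ l, S.MixAtom A B t E H V) ∧
        t - S.rk E ≤ l.length
    · obtain ⟨l₀, a1, a2, a3⟩ := hlong
      obtain ⟨l, l1, l2, l3⟩ : ∃ l : List L, Indep E l ∧ (∀ V ∈ l, S.MixAtom A B t E H V) ∧
          l.length = t - S.rk E := by
        refine ⟨l₀.drop (l₀.length - (t - S.rk E)), a1.drop _,
          fun V hV => a2 V (List.mem_of_mem_drop hV), ?_⟩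
        rw [List.length_drop]; omega
      have hlen : (l.length : ℝ) = σ := by rw [l3]
      have hbnd : ∀ V ∈ l, M * (ρ / σ) * (1 - (N - 1) / (σ - 1) * (X - (N - σ) / (N - 1) * W)) ≤
          (((S.mix A B t q E H).filter (fun R => V ≤ R)).card : ℝ) := by
        intro V hV
        have h1 := habove V (l2 V hV)
        have h2 := hlight V (l2 V hV)
        have hx := hsplitX V
        set xV := (((S.unc A B t E H).filter (fun G => V ≤ G)).card : ℝ) / D
        have hxle : xV ≤ X - (N - σ) / (N - 1) * W := by linarith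
        have h3 : 1 - (N - 1) / (σ - 1) * (X - (N - σ) / (N - 1) * W) ≤
            σ / ρ * ((((S.mix A B t q E H).filter (fun R => V ≤ R)).card : ℝ) / M) := by
          have := mul_le_mul_of_nonneg_left hxle (show 0 ≤ (N - 1) / (σ - 1) by positivity)
          linarith
        have h4 := mul_le_mul_of_nonneg_left h3 (show 0 ≤ M * (ρ / σ) by positivity)
        refine h4.trans (le_of_eq ?_)
        field_simp
      have havg := S.length_mul_le l1 (S.mix A B t q E H) (q - S.rk E) (by
        intro R hR
        simp only [mix, Finset.mem_filter, S.mem_lev] at hR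
        exact ⟨hR.1.1, by rw [hR.1.2.2]⟩) _ hbnd
      rw [hlen] at havg
      have hYM : ((S.mix A B t q E H).card : ℝ) = Y * M := by
        rw [hY, div_mul_cancel₀ _ hMpos.ne']
      rw [hYM, ← hρ] at havg
      have h9 : W ≤ X := avg_aux N σ ρ M X Y W hρ0 hσ1 hN1 hMpos hW havg
      linarith
    · push Not at hlong
      -- few independent mixed atoms
      have hk1 := S.kay A B hAB t (n + 1) E H (t - S.rk E - 1) hn hEH (by omega) htH hmix
        (by omega) (fun l h1 h2 => by have := hlong l h1 h2; omega)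
      rw [show n + 1 - 1 = S.rk H - S.rk E - 1 by omega, Nat.choose_self] at hk1
      have hxD : ((S.unc A B t E H).card : ℝ) = X * D := by
        rw [hX, div_mul_cancel₀ _ hDpos.ne']
      have hlt1 : X < 1 := by linarith
      have hxlt : (S.unc A B t E H).card < (S.rk H - S.rk E - 1).choose (t - S.rk E - 1) := by
        have : ((S.unc A B t E H).card : ℝ) < D := by rw [hxD]; nlinarith
        rw [hD] at this
        exact_mod_cast this
      have hxeq : (S.unc A B t E H).card + 1 =
          (S.rk H - S.rk E - 1).choose (t - S.rk E - 1) := by omega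
      -- an independent list of length `σ - 1`
      obtain ⟨l, l1, l2, l3⟩ : ∃ l : List L, Indep E l ∧ (∀ V ∈ l, S.MixAtom A B t E H V) ∧
          l.length = t - S.rk E - 1 := by
        by_contra hno
        push Not at hno
        have hk2 := S.kay A B hAB t (n + 1) E H (t - S.rk E - 2) hn hEH (by omega) htH hmix
          (by omega) (fun l h1 h2 => by
            have h3 := hlong l h1 h2
            have h4 := hno l h1 h2
            omega)
        rw [show n + 1 - 1 = S.rk H - S.rk E - 1 by omega,
          Nat.choose_eq_zero_of_lt (show t - S.rk E - 2 < t - S.rk E - 1 by omega)] at hk2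
        omega
      have hxR : ((S.unc A B t E H).card : ℝ) + 1 = D := by
        rw [hD, ← hxeq]; push_cast; ring
      have hbnd : ∀ V ∈ l, (M * (ρ / σ)) / (D * ((σ - 1) / (N - 1))) ≤
          (((S.mix A B t q E H).filter (fun R => V ≤ R)).card : ℝ) := by
        intro V hV
        have h1 := habove V (l2 V hV)
        have h2 := hlight V (l2 V hV)
        -- integrality
        have h3 : ((S.rk H - S.rk E - 2).choose (t - S.rk E - 1)) ≤
            ((S.unc A B t E H).filter (fun G => ¬ V ≤ G)).card := by
          rw [le_div_iff₀ hDpos] at h2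
          have h4 : ((N - σ) / (N - 1)) * (D - 1) <
              (((S.unc A B t E H).filter (fun G => ¬ V ≤ G)).card : ℝ) := by
            have h5 : (D - 1) < W * D := by
              have : D - 1 = X * D := by rw [← hxD]; linarith
              rw [this]
              exact mul_lt_mul_of_pos_right hXW hDpos
            have h6 := mul_lt_mul_of_pos_left h5 (show 0 < (N - σ) / (N - 1) by positivity)
            nlinarith
          have h7 : (N - σ) / (N - 1) ≤ 1 := by
            rw [div_le_one hN1]; linarith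
          have h8 : (((S.rk H - S.rk E - 2).choose (t - S.rk E - 1) : ℕ) : ℝ) - 1 <
              (((S.unc A B t E H).filter (fun G => ¬ V ≤ G)).card : ℝ) := by
            rw [c2]; nlinarith
          have h9 : (((S.rk H - S.rk E - 2).choose (t - S.rk E - 1) : ℕ) : ℝ) <
              (((S.unc A B t E H).filter (fun G => ¬ V ≤ G)).card : ℝ) + 1 := by linarith
          have h10 : (S.rk H - S.rk E - 2).choose (t - S.rk E - 1) <
              ((S.unc A B t E H).filter (fun G => ¬ V ≤ G)).card + 1 := by exact_mod_cast h9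
          omega
        have hsum := Finset.card_filter_add_card_filter_not (s := S.unc A B t E H)
          (fun G => V ≤ G)
        have hpas : (S.rk H - S.rk E - 1).choose (t - S.rk E - 1) =
            (S.rk H - S.rk E - 2).choose (t - S.rk E - 2) +
              (S.rk H - S.rk E - 2).choose (t - S.rk E - 1) := by
          obtain ⟨m, hm⟩ : ∃ m, S.rk H - S.rk E - 1 = m + 1 := ⟨S.rk H - S.rk E - 2, by omega⟩
          obtain ⟨j, hj⟩ : ∃ j, t - S.rk E - 1 = j + 1 := ⟨t - S.rk E - 2, by omega⟩
          rw [hm, hj, show S.rk H - S.rk E - 2 = m by omega,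
            show t - S.rk E - 2 = j by omega, Nat.choose_succ_succ]
        have h11 : ((S.unc A B t E H).filter (fun G => V ≤ G)).card + 1 ≤
            (S.rk H - S.rk E - 2).choose (t - S.rk E - 2) := by omega
        have h12 : (((S.unc A B t E H).filter (fun G => V ≤ G)).card : ℝ) + 1 ≤
            D * ((σ - 1) / (N - 1)) := by
          rw [← c1]; exact_mod_cast h11
        have hD' : 0 < D * ((σ - 1) / (N - 1)) := by positivity
        set yV := (((S.mix A B t q E H).filter (fun G => V ≤ G)).card : ℝ)
        set xV := (((S.unc A B t E H).filter (fun G => V ≤ G)).card : ℝ)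
        rw [div_le_iff₀ hD']
        rw [frac_aux1 _ _ _ _ hN1.ne' hσ1.ne' hDpos.ne',
          frac_aux1 _ _ _ _ hσ0.ne' hρ0.ne' hMpos.ne'] at h1
        have hM' : 0 < M * (ρ / σ) := by positivity
        have h15 : xV / (D * ((σ - 1) / (N - 1))) ≤ 1 - 1 / (D * ((σ - 1) / (N - 1))) := by
          rw [div_le_iff₀ hD', sub_mul, one_mul, one_div, inv_mul_cancel₀ hD'.ne']
          linarith
        have h16 : 1 / (D * ((σ - 1) / (N - 1))) ≤ yV / (M * (ρ / σ)) := by linarith
        rw [div_le_div_iff₀ hD' hM'] at h16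
        linarith
      have havg := S.length_mul_le l1 (S.mix A B t q E H) (q - S.rk E) (by
        intro R hR
        simp only [mix, Finset.mem_filter, S.mem_lev] at hR
        exact ⟨hR.1.1, by rw [hR.1.2.2]⟩) _ hbnd
      have hlen : (l.length : ℝ) = σ - 1 := by rw [l3, cσ1]
      have hYM : ((S.mix A B t q E H).card : ℝ) = Y * M := by
        rw [hY, div_mul_cancel₀ _ hMpos.ne']
      rw [hlen, hYM, ← hρ] at havg
      have h18 : 1 / D ≤ Y :=
        frac_aux2 N σ ρ D M Y hρ0 hσ1 hN1 (by linarith) hMpos hDpos havg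
      have h19 : X = 1 - 1 / D := by
        rw [hX, eq_sub_iff_add_eq, ← add_div, hxR, div_self hDpos.ne']
      linarith

end FaceLat

end Pool.Agent.Sallee
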