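import Mathlib
import Pool.Agent.Lib.MP_db3372_co.Lym2

/-!
# The main inequality
-/

set_option autoImplicit false

namespace Pool.Agent.Sallee

open Finset Relation

/-- `C(m, s - 1) ≥ C(s, r)` for `m ≥ 2 s - r - 1`. -/
lemma choose_bound1 {m s r : ℕ} (hrs : r < s) (hm : 2 * s ≤ m + r + 1) :
    s.choose r ≤ m.choose (s - 1) := by
  have h1 : s.choose r = s.choose (s - r) := by
    rw [Nat.choose_symm hrs.le]
  have h2 : (2 * s - r - 1).choose (s - 1) = (2 * s - r - 1).choose (s - r) := by
    apply Nat.choose_symm_of_eq_add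
    omega
  calc s.choose r = s.choose (s - r) := h1
    _ ≤ (2 * s - r - 1).choose (s - r) := Nat.choose_le_choose _ (by omega)
    _ = (2 * s - r - 1).choose (s - 1) := h2.symm
    _ ≤ m.choose (s - 1) := Nat.choose_le_choose _ (by omega)

/-- `C(2 s - 1 - r, s) ≥ C(s - 1, r)`. -/
lemma choose_bound2 {s r : ℕ} (hrs : r < s) :
    (s - 1).choose r ≤ (2 * s - 1 - r).choose s := by
  have h1 : (s - 1).choose r = (s - 1).choose (s - 1 - r) := by
    rw [Nat.choose_symm (by omega)]
  have h2 : (2 * s - 1 - r).choose s = (2 * s - 1 - r).choose (s - 1 - r) := by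
    apply Nat.choose_symm_of_eq_add
    omega
  rw [h1, h2]
  exact Nat.choose_le_choose _ (by omega)

/-- From the weighted inequality to the plain one. -/
lemma le_add_of_weighted {x y D M m : ℕ} (hD : 0 < D) (hM : 0 < M) (hmD : m ≤ D) (hmM : m ≤ M)
    (h : (1 : ℝ) ≤ (x : ℝ) / (D : ℝ) + (y : ℝ) / (M : ℝ)) : m ≤ x + y := by
  rcases Nat.eq_zero_or_pos m with hm | hm
  · omega
  have hm' : (0 : ℝ) < m := by exact_mod_cast hm
  have hD' : (0 : ℝ) < D := by exact_mod_cast hD
  have hM' : (0 : ℝ) < M := by exact_mod_cast hM
  have h1 : (x : ℝ) / D ≤ x / m :=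
    div_le_div_of_nonneg_left (by positivity) hm' (by exact_mod_cast hmD)
  have h2 : (y : ℝ) / M ≤ y / m :=
    div_le_div_of_nonneg_left (by positivity) hm' (by exact_mod_cast hmM)
  have h3 : (1 : ℝ) ≤ ((x + y : ℕ) : ℝ) / m := by
    push_cast
    rw [add_div]
    linarith
  rw [one_le_div hm'] at h3
  exact_mod_cast h3

namespace FaceLat

variable {L : Type*} [SemilatticeInf L] (S : FaceLat L) [Fintype L]

theorem high (A B : L → Prop) (hAB : ∀ G, A G → ¬ B G) (t q : ℕ) (hqt : q < t) (n : ℕ) :
    ∀ (E H : L), S.rk H - S.rk E = n → E ≤ H → S.rk E ≤ q → t < S.rk H →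
    2 * t ≤ S.rk H + q → S.Mixed A B t H E →
    (t - S.rk E).choose (q - S.rk E) ≤ (S.unc A B t E H).card + (S.mix A B t q E H).card := by
  classical
  induction n with
  | zero =>
    intro E H hn hEH h1 h2
    omega
  | succ n ih =>
    intro E H hn hEH hEq htH hcond hmix
    rcases eq_or_lt_of_le hcond with hcond' | hcond'
    · -- equality: the weighted inequality
      exact le_add_of_weighted (Nat.choose_pos (by omega)) (Nat.choose_pos (by omega))
        (choose_bound1 (by omega) (by omega)) le_rfl
        (S.lym A B hAB t q hqt (n + 1) E H hn hEH hEq htH hcond'.ge hmix)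
    rcases eq_or_lt_of_le hEq with hq0 | hq0
    · have hy : 1 ≤ (S.mix A B t q E H).card := by
        rw [Finset.one_le_card]
        exact ⟨E, by rw [mix, Finset.mem_filter, S.mem_lev]; exact ⟨⟨le_rfl, hEH, hq0⟩, hmix⟩⟩
      rw [show q - S.rk E = 0 by omega, Nat.choose_zero_right]
      omega
    by_cases hM : ∃ V, S.MixAtom A B t E H V
    · obtain ⟨V, hV⟩ := hM
      obtain ⟨v1, v2, v3, v4⟩ := id hV
      have i1 := ih V H (by omega) v2 (by omega) htH hcond v4
      rw [S.unc_above A B t v1, S.mix_above A B t q v1,
        show t - S.rk V = t - S.rk E - 1 by omega,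
        show q - S.rk V = q - S.rk E - 1 by omega] at i1
      have hx := Finset.card_filter_add_card_filter_not (s := S.unc A B t E H)
        (fun G => V ≤ G)
      have hy := Finset.card_filter_add_card_filter_not (s := S.mix A B t q E H)
        (fun G => V ≤ G)
      have hpas : (t - S.rk E).choose (q - S.rk E) =
          (t - S.rk E - 1).choose (q - S.rk E - 1) + (t - S.rk E - 1).choose (q - S.rk E) := by
        obtain ⟨m, hm⟩ : ∃ m, t - S.rk E = m + 1 := ⟨t - S.rk E - 1, by omega⟩
        obtain ⟨j, hj⟩ : ∃ j, q - S.rk E = j + 1 := ⟨q - S.rk E - 1, by omega⟩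
        rw [hm, hj]
        simp only [Nat.add_sub_cancel]
        rw [Nat.choose_succ_succ]
      rcases S.avoid_cases A B hAB hqt hEq htH hV with ⟨F, hF, hm, htF⟩ | h2 | h2 | h2
      · have i2 := ih E F (by have := hF.2.2.1; omega) hF.1 hEq htF
          (by have := hF.2.2.1; omega) hm
        have sx := (Finset.card_le_card (S.unc_below A B t hF)).trans
          (Finset.card_filter_le _ _)
        have sy := (Finset.card_le_card (S.mix_below A B t q hF)).trans
          (Finset.card_filter_le _ _)
        omega
      · have h3 : (t - S.rk E).choose (q - S.rk E) ≤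
            (S.rk H - S.rk E - 2).choose (t - S.rk E - 1) :=
          choose_bound1 (by omega) (by omega)
        have h4 := Finset.card_filter_le (S.unc A B t E H) (fun G => ¬ V ≤ G)
        omega
      · omega
      · have h3 := h2 (2 * t - 1 - q) (by omega) (by omega) (by omega)
        have h4 : (t - S.rk E - 1).choose (q - S.rk E) ≤
            (2 * t - 1 - q - S.rk E).choose (t - S.rk E) := by
          have := choose_bound2 (show q - S.rk E < t - S.rk E by omega)
          rwa [show 2 * (t - S.rk E) - 1 - (q - S.rk E) = 2 * t - 1 - q - S.rk E by omega] at this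
        have h5 := le_add_of_weighted (Nat.choose_pos (by omega)) (Nat.choose_pos (by omega))
          h4 le_rfl h3
        omega
    · push Not at hM
      have hk := S.kay A B hAB t (n + 1) E H 0 hn hEH (by omega) htH hmix (by omega)
        (fun l h1 h2 => by
          cases l with
          | nil => simp
          | cons V l => exact absurd (h2 V List.mem_cons_self) (hM V))
      rw [Nat.choose_eq_zero_of_lt (show 0 < t - S.rk E - 1 by omega)] at hk
      have h3 : (t - S.rk E).choose (q - S.rk E) ≤ (n + 1 - 1).choose (t - S.rk E - 1) :=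
        choose_bound1 (by omega) (by omega)
      omega

/-- The main inequality: a separated configuration has many blocking faces. -/
theorem main_ineq (A B : L → Prop) (hAB : ∀ G, A G → ¬ B G) {d s r : ℕ} (hrs : r < s)
    (hsd : s < d) {E H : L} (hEH : E ≤ H) (hE : S.rk E = 0) (hH : S.rk H = d + 1)
    (hmix : S.Mixed A B (s + 1) H E) :
    min ((s + 1).choose (r + 1)) (d.choose s) ≤
      (S.unc A B (s + 1) E H).card + (S.mix A B (s + 1) (r + 1) E H).card := by
  rcases Nat.lt_or_ge (S.rk H + (r + 1)) (2 * (s + 1)) with h | h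
  · have := S.lym A B hAB (s + 1) (r + 1) (by omega) _ E H rfl hEH (by omega) (by omega) h.le hmix
    rw [hE, hH] at this
    simp only [Nat.sub_zero, Nat.add_sub_cancel] at this
    exact le_add_of_weighted (Nat.choose_pos (by omega)) (Nat.choose_pos (by omega))
      (min_le_right _ _) (min_le_left _ _) this
  · have := S.high A B hAB (s + 1) (r + 1) (by omega) _ E H rfl hEH (by omega) (by omega) h hmix
    rw [hE] at this
    simp only [Nat.sub_zero] at this
    exact (min_le_left _ _).trans this

end FaceLat

end Pool.Agent.Sallee
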