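import Mathlib
import Pool.Agent.Lib.MP_db3372_co.Conn

/-!
# Polytopes: exposed faces as faces of a configuration
-/

set_option autoImplicit false

namespace Pool.Agent.Sallee

open Finset Relation

namespace Config

section Lift

variable {E : Type*} [AddCommGroup E] [Module ℝ E]

/-- Homogenisation. -/
def lift (x : E) : E × ℝ := (x, 1)

omit [AddCommGroup E] [Module ℝ E] in
lemma lift_injective : Function.Injective (lift : E → E × ℝ) :=
  fun _ _ h => congrArg Prod.fst h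

lemma lift_combo {x y : E} {a b : ℝ} (hab : a + b = 1) :
    lift (a • x + b • y) = a • lift x + b • lift y := by
  ext
  · simp [lift]
  · simp [lift, hab]

lemma finrank_lift [FiniteDimensional ℝ E] {T : Set E} {x₀ : E} (hx₀ : x₀ ∈ T) :
    Module.finrank ℝ (Submodule.span ℝ (lift '' T)) = Module.finrank ℝ (vectorSpan ℝ T) + 1 := by
  set D := (vectorSpan ℝ T).map (LinearMap.inl ℝ E ℝ) with hD
  have h1 : Submodule.span ℝ (lift '' T) = D ⊔ Submodule.span ℝ {lift x₀} := by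
    apply le_antisymm
    · rw [Submodule.span_le]
      rintro _ ⟨x, hx, rfl⟩
      have : lift x = LinearMap.inl ℝ E ℝ (x -ᵥ x₀) + lift x₀ := by
        simp [lift]
      rw [this]
      exact Submodule.add_mem_sup (Submodule.mem_map_of_mem (vsub_mem_vectorSpan ℝ hx hx₀))
        (Submodule.mem_span_singleton_self _)
    · apply sup_le
      · rw [hD, vectorSpan_eq_span_vsub_set_right ℝ hx₀, Submodule.map_span, Submodule.span_le]
        rintro _ ⟨_, ⟨x, hx, rfl⟩, rfl⟩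
        have : LinearMap.inl ℝ E ℝ (x -ᵥ x₀) = lift x - lift x₀ := by simp [lift]
        simp only
        rw [this]
        exact Submodule.sub_mem _ (Submodule.subset_span ⟨x, hx, rfl⟩)
          (Submodule.subset_span ⟨x₀, hx₀, rfl⟩)
      · rw [Submodule.span_le, Set.singleton_subset_iff]
        exact Submodule.subset_span ⟨x₀, hx₀, rfl⟩
  have h2 : D ⊓ Submodule.span ℝ {lift x₀} = ⊥ := by
    rw [Submodule.eq_bot_iff]
    rintro y ⟨hy1, hy2⟩
    obtain ⟨c, rfl⟩ := Submodule.mem_span_singleton.1 hy2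
    obtain ⟨u, _, hu⟩ := hy1
    have h3 : (0 : ℝ) = c := by
      have := congrArg Prod.snd hu
      simpa [lift] using this
    rw [← h3, zero_smul]
  have h4 := Submodule.finrank_sup_add_finrank_inf_eq D (Submodule.span ℝ {lift x₀})
  rw [← h1, h2, finrank_bot, add_zero] at h4
  have h5 : Module.finrank ℝ D = Module.finrank ℝ (vectorSpan ℝ T) := by
    rw [hD]
    exact (Submodule.equivMapOfInjective _ LinearMap.inl_injective _).finrank_eq.symm
  have h6 : Module.finrank ℝ (Submodule.span ℝ {lift x₀}) = 1 := by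
    apply finrank_span_singleton
    intro h
    have := congrArg Prod.snd h
    simp [lift] at this
  rw [h4, h5, h6]

lemma vectorSpan_convexHull (T : Set E) : vectorSpan ℝ (convexHull ℝ T) = vectorSpan ℝ T := by
  rw [← direction_affineSpan, affineSpan_convexHull, direction_affineSpan]

lemma lift_nonpos {T : Set E} {φ : E × ℝ →ₗ[ℝ] ℝ} (h : ∀ x ∈ T, φ (lift x) ≤ 0) {x : E}
    (hx : x ∈ convexHull ℝ T) : φ (lift x) ≤ 0 := by
  have : convexHull ℝ T ⊆ {x | φ (lift x) ≤ 0} := by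
    apply convexHull_min h
    intro x hx y hy a b ha hb hab
    change φ (lift x) ≤ 0 at hx
    change φ (lift y) ≤ 0 at hy
    change φ (lift (a • x + b • y)) ≤ 0
    rw [lift_combo hab, map_add, map_smul, map_smul, smul_eq_mul, smul_eq_mul]
    have := mul_nonpos_of_nonneg_of_nonpos ha hx
    have := mul_nonpos_of_nonneg_of_nonpos hb hy
    linarith
  exact this hx

lemma lift_zero {T : Set E} {φ : E × ℝ →ₗ[ℝ] ℝ} (h : ∀ x ∈ T, φ (lift x) = 0) {x : E}
    (hx : x ∈ convexHull ℝ T) : φ (lift x) = 0 := by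
  apply le_antisymm
  · exact lift_nonpos (fun x hx => (h x hx).le) hx
  · have := lift_nonpos (φ := -φ) (fun x hx => by simp [h x hx]) hx
    simpa using this

/-- The zero set of a functional on a polytope. -/
lemma convexHull_zero (S : Finset E) (φ : E × ℝ →ₗ[ℝ] ℝ) (hφ : ∀ x ∈ S, φ (lift x) ≤ 0) {x : E} :
    (x ∈ convexHull ℝ (S : Set E) ∧ φ (lift x) = 0) ↔
      x ∈ convexHull ℝ {x | x ∈ S ∧ φ (lift x) = 0} := by
  classical
  constructor
  · rintro ⟨hx, h0⟩
    rw [Finset.mem_convexHull'] at hx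
    obtain ⟨w, hw0, hw1, hwx⟩ := hx
    have hlift : lift x = ∑ y ∈ S, w y • lift y := by
      rw [← hwx]
      ext
      · simp [lift, Prod.fst_sum]
      · simp [lift, Prod.snd_sum, hw1]
    rw [hlift, map_sum] at h0
    have hterm : ∀ y ∈ S, φ (w y • lift y) = 0 := by
      have hle : ∀ y ∈ S, φ (w y • lift y) ≤ 0 := fun y hy => by
        rw [map_smul, smul_eq_mul]
        exact mul_nonpos_of_nonneg_of_nonpos (hw0 y hy) (hφ y hy)
      exact (Finset.sum_eq_zero_iff_of_nonpos hle).1 h0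
    have hT : {x | x ∈ S ∧ φ (lift x) = 0} =
        ((S.filter (fun x => φ (lift x) = 0) : Finset E) : Set E) := by
      ext y; simp
    rw [hT, Finset.mem_convexHull']
    have hout : ∀ y ∈ S, y ∉ S.filter (fun x => φ (lift x) = 0) → w y = 0 := by
      intro y hy hy'
      have h1 := hterm y hy
      rw [map_smul, smul_eq_mul, mul_eq_zero] at h1
      rcases h1 with h1 | h1
      · exact h1
      · exact absurd (Finset.mem_filter.2 ⟨hy, h1⟩) hy'
    refine ⟨w, fun y hy => hw0 y (Finset.mem_filter.1 hy).1, ?_, ?_⟩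
    · rw [← hw1]
      exact Finset.sum_subset (Finset.filter_subset _ _) hout
    · rw [← hwx]
      exact Finset.sum_subset (Finset.filter_subset _ _)
        (fun y hy hy' => by rw [hout y hy hy', zero_smul])
  · intro hx
    refine ⟨convexHull_mono (fun y hy => hy.1) hx, lift_zero (fun y hy => hy.2) hx⟩

end Lift

lemma rank_empty {W : Type*} [AddCommGroup W] [Module ℝ W] : rank (∅ : Finset W) = 0 := by
  rw [rank, Finset.coe_empty, Submodule.span_empty, finrank_bot]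

section Poly

variable {d : ℕ}

open Classical in
/-- The configuration of a polytope. -/
noncomputable def cfg (S : Finset (EuclideanSpace ℝ (Fin d))) :
    Finset (EuclideanSpace ℝ (Fin d) × ℝ) := S.image lift

lemma mem_cfg {S : Finset (EuclideanSpace ℝ (Fin d))} {v : EuclideanSpace ℝ (Fin d) × ℝ} :
    v ∈ cfg S ↔ ∃ x ∈ S, lift x = v := by
  classical
  rw [cfg, Finset.mem_image]

/-- The polytope face of a configuration face. -/
def real (Z : Finset (EuclideanSpace ℝ (Fin d) × ℝ)) : Set (EuclideanSpace ℝ (Fin d)) :=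
  convexHull ℝ {x | lift x ∈ Z}

lemma real_mono {Z Z' : Finset (EuclideanSpace ℝ (Fin d) × ℝ)} (h : Z ⊆ Z') :
    real Z ⊆ real Z' := convexHull_mono (fun _ hx => h hx)

variable {S : Finset (EuclideanSpace ℝ (Fin d))} {Z : Finset (EuclideanSpace ℝ (Fin d) × ℝ)}

lemma face_lift_image (hZ : Z ⊆ cfg S) : lift '' {x | lift x ∈ Z} = (Z : Set _) := by
  ext v
  constructor
  · rintro ⟨x, hx, rfl⟩
    exact hx
  · intro hv
    obtain ⟨x, _, rfl⟩ := mem_cfg.1 (hZ hv)
    exact ⟨x, hv, rfl⟩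

lemma real_nonempty_iff (hZ : Z ⊆ cfg S) : (real Z).Nonempty ↔ Z.Nonempty := by
  rw [real, convexHull_nonempty_iff]
  constructor
  · rintro ⟨x, hx⟩
    exact ⟨lift x, hx⟩
  · rintro ⟨v, hv⟩
    obtain ⟨x, _, rfl⟩ := mem_cfg.1 (hZ hv)
    exact ⟨x, hv⟩

lemma rank_real (hZ : Z ⊆ cfg S) (hne : Z.Nonempty) :
    rank Z = Module.finrank ℝ (vectorSpan ℝ (real Z)) + 1 := by
  obtain ⟨v, hv⟩ := hne
  obtain ⟨x, _, rfl⟩ := mem_cfg.1 (hZ hv)
  rw [real, vectorSpan_convexHull, ← finrank_lift (show x ∈ {x | lift x ∈ Z} from hv),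
    face_lift_image hZ, rank]

/-- Membership in the real face, in terms of a functional. -/
lemma mem_real_iff {φ : EuclideanSpace ℝ (Fin d) × ℝ →ₗ[ℝ] ℝ} (h1 : ∀ v ∈ cfg S, φ v ≤ 0)
    (h2 : ∀ v, v ∈ Z ↔ v ∈ cfg S ∧ φ v = 0) {x : EuclideanSpace ℝ (Fin d)} :
    x ∈ real Z ↔ x ∈ convexHull ℝ (S : Set (EuclideanSpace ℝ (Fin d))) ∧ φ (lift x) = 0 := by
  rw [convexHull_zero S φ (fun x hx => h1 _ (mem_cfg.2 ⟨x, hx, rfl⟩)), real]
  have : {x | lift x ∈ Z} = {x | x ∈ S ∧ φ (lift x) = 0} := by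
    ext y
    simp only [Set.mem_ofPred_eq]
    rw [h2, mem_cfg]
    constructor
    · rintro ⟨⟨z, hz, hzy⟩, h⟩
      rw [← lift_injective hzy]
      exact ⟨hz, by rw [lift_injective hzy]; exact h⟩
    · rintro ⟨hy, h⟩
      exact ⟨⟨y, hy, rfl⟩, h⟩
  rw [this]

lemma real_inj {F G : Face (cfg S)} (h : real F.1 = real G.1) : F = G := by
  have key : ∀ F : Face (cfg S), ∀ x, lift x ∈ F.1 ↔ x ∈ S ∧ x ∈ real F.1 := by
    intro F x
    obtain ⟨φ, h1, h2⟩ := F.2
    rw [mem_real_iff h1 h2, h2, mem_cfg]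
    constructor
    · rintro ⟨⟨z, hz, hzy⟩, h⟩
      rw [← lift_injective hzy]
      exact ⟨hz, subset_convexHull ℝ _ hz, by rw [lift_injective hzy]; exact h⟩
    · rintro ⟨hx, _, h⟩
      exact ⟨⟨x, hx, rfl⟩, h⟩
  apply Subtype.ext
  ext v
  constructor
  · intro hv
    obtain ⟨x, _, rfl⟩ := mem_cfg.1 (F.2.subset hv)
    rw [key G, ← h, ← key F]
    exact hv
  · intro hv
    obtain ⟨x, _, rfl⟩ := mem_cfg.1 (G.2.subset hv)
    rw [key F, h, ← key G]
    exact hv

lemma real_isExposed (F : Face (cfg S)) (hne : F.1.Nonempty) :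
    IsExposed ℝ (convexHull ℝ (S : Set (EuclideanSpace ℝ (Fin d)))) (real F.1) := by
  intro _
  obtain ⟨φ, h1, h2⟩ := F.2
  obtain ⟨v, hv⟩ := hne
  obtain ⟨x₀, hx₀, rfl⟩ := mem_cfg.1 (F.2.subset hv)
  have h3 := ((h2 _).1 hv).2
  set l : EuclideanSpace ℝ (Fin d) →ₗ[ℝ] ℝ := φ.comp (LinearMap.inl ℝ _ ℝ) with hl
  have hφ : ∀ x, φ (lift x) = l x + φ (0, 1) := by
    intro x
    rw [hl, LinearMap.comp_apply, LinearMap.inl_apply, ← map_add]
    simp [lift]
  refine ⟨LinearMap.toContinuousLinearMap l, ?_⟩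
  ext x
  rw [mem_real_iff h1 h2]
  simp only [Set.mem_ofPred_eq, LinearMap.coe_toContinuousLinearMap']
  have hle : ∀ y ∈ convexHull ℝ (S : Set (EuclideanSpace ℝ (Fin d))), φ (lift y) ≤ 0 :=
    fun y hy => lift_nonpos (fun z hz => h1 _ (mem_cfg.2 ⟨z, hz, rfl⟩)) hy
  constructor
  · rintro ⟨a, b⟩
    refine ⟨a, fun y hy => ?_⟩
    have := hle y hy
    rw [hφ] at this b
    linarith
  · rintro ⟨a, b⟩
    refine ⟨a, ?_⟩
    have e1 := b x₀ (subset_convexHull ℝ _ hx₀)
    have e2 := hle x a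
    rw [hφ] at e2 h3 ⊢
    linarith

lemma exists_face {F : Set (EuclideanSpace ℝ (Fin d))} (hne : F.Nonempty)
    (hF : IsExposed ℝ (convexHull ℝ (S : Set (EuclideanSpace ℝ (Fin d)))) F) :
    ∃ Z : Face (cfg S), real Z.1 = F := by
  classical
  obtain ⟨l, hl⟩ := hF hne
  obtain ⟨x₀, hx₀⟩ := hne
  have hx₀' := hx₀
  rw [hl] at hx₀'
  set φ : EuclideanSpace ℝ (Fin d) × ℝ →ₗ[ℝ] ℝ :=
    (l : EuclideanSpace ℝ (Fin d) →ₗ[ℝ] ℝ).comp (LinearMap.fst ℝ _ ℝ) -
      (l x₀) • LinearMap.snd ℝ _ ℝ with hφ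
  have hφa : ∀ x, φ (lift x) = l x - l x₀ := by
    intro x
    rw [hφ]
    simp [lift]
  have h1 : ∀ v ∈ cfg S, φ v ≤ 0 := by
    intro v hv
    obtain ⟨x, hx, rfl⟩ := mem_cfg.1 hv
    rw [hφa]
    have := hx₀'.2 x (subset_convexHull ℝ _ hx)
    linarith
  have h2 : ∀ v, v ∈ (cfg S).filter (fun v => φ v = 0) ↔ v ∈ cfg S ∧ φ v = 0 := fun v =>
    Finset.mem_filter
  refine ⟨⟨(cfg S).filter (fun v => φ v = 0), φ, h1, h2⟩, ?_⟩
  ext x
  rw [mem_real_iff h1 h2, hl, hφa]
  simp only [Set.mem_ofPred_eq]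
  constructor
  · rintro ⟨a, b⟩
    refine ⟨a, fun y hy => ?_⟩
    have := hx₀'.2 y hy
    linarith
  · rintro ⟨a, b⟩
    refine ⟨a, ?_⟩
    have e1 := b x₀ hx₀'.1
    have e2 := hx₀'.2 x a
    linarith

/-- The model of the faces of a polytope. -/
theorem exists_model (S : Finset (EuclideanSpace ℝ (Fin d))) (hS : S.Nonempty)
    (hd : Module.finrank ℝ (vectorSpan ℝ
      (convexHull ℝ (S : Set (EuclideanSpace ℝ (Fin d))))) = d) :
    ∃ (L : Type) (_ : SemilatticeInf L) (_ : Fintype L) (K : FaceLat L) (bot top : L)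
      (e : L → Set (EuclideanSpace ℝ (Fin d))),
      (∀ x, bot ≤ x ∧ x ≤ top) ∧ K.rk bot = 0 ∧ K.rk top = d + 1 ∧ Function.Injective e ∧
      (∀ x y, x ≤ y → e x ⊆ e y) ∧
      (∀ x k, K.rk x = k + 1 → (e x).Nonempty ∧
        IsExposed ℝ (convexHull ℝ (S : Set (EuclideanSpace ℝ (Fin d)))) (e x) ∧
        Module.finrank ℝ (vectorSpan ℝ (e x)) = k) ∧
      (∀ F k, (F.Nonempty ∧
        IsExposed ℝ (convexHull ℝ (S : Set (EuclideanSpace ℝ (Fin d)))) F ∧
        Module.finrank ℝ (vectorSpan ℝ F) = k) → ∃ x, e x = F ∧ K.rk x = k + 1) := by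
  classical
  have hbot : IsFace (cfg S) ∅ := by
    refine ⟨-LinearMap.snd ℝ _ ℝ, ?_, ?_⟩
    · intro v hv
      obtain ⟨x, _, rfl⟩ := mem_cfg.1 hv
      simp [lift]
    · intro v
      simp only [Finset.notMem_empty, false_iff, not_and]
      intro hv
      obtain ⟨x, _, rfl⟩ := mem_cfg.1 hv
      simp [lift]
  have htop : IsFace (cfg S) (cfg S) := ⟨0, fun v _ => by simp, fun v => by simp⟩
  have hne : (cfg S).Nonempty := by
    obtain ⟨x, hx⟩ := hS
    exact ⟨lift x, mem_cfg.2 ⟨x, hx, rfl⟩⟩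
  refine ⟨Face (cfg S), inferInstance, inferInstance, faceLat (cfg S), ⟨∅, hbot⟩, ⟨cfg S, htop⟩,
    fun F => real F.1, ?_, ?_, ?_, fun F G h => real_inj h, fun F G h => real_mono h, ?_, ?_⟩
  · intro F
    exact ⟨Finset.empty_subset _, F.2.subset⟩
  · simp [faceLat, rank]
  · have h1 : real (cfg S) = convexHull ℝ (S : Set (EuclideanSpace ℝ (Fin d))) := by
      rw [real]
      congr 1
      ext x
      simp only [Set.mem_ofPred_eq, Finset.mem_coe]
      rw [mem_cfg]
      exact ⟨fun ⟨y, hy, h⟩ => lift_injective h ▸ hy, fun h => ⟨x, h, rfl⟩⟩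
    change rank (cfg S) = d + 1
    rw [rank_real (Finset.Subset.refl _) hne, h1, hd]
  · intro F k hk
    have hFne : F.1.Nonempty := by
      rw [Finset.nonempty_iff_ne_empty]
      intro h
      have h1 : rank F.1 = k + 1 := hk
      rw [h, rank_empty] at h1
      omega
    refine ⟨(real_nonempty_iff F.2.subset).2 hFne, real_isExposed F hFne, ?_⟩
    change Module.finrank ℝ (vectorSpan ℝ (real F.1)) = k
    have h1 := rank_real F.2.subset hFne
    have h2 : rank F.1 = k + 1 := hk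
    omega
  · rintro F k ⟨h1, h2, h3⟩
    obtain ⟨Z, hZ⟩ := exists_face h1 h2
    refine ⟨Z, hZ, ?_⟩
    change rank Z.1 = k + 1
    rw [rank_real Z.2.subset ((real_nonempty_iff Z.2.subset).1 (by rw [hZ]; exact h1)), hZ, h3]

end Poly

end Config

end Pool.Agent.Sallee
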