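import Mathlib
import Pool.Agent.Lib.MP_db3372_co.Polytope
import Pool.Agent.Lib.MP_db3372_co.MainIneq

/-!
# The lower bound in Sallee's conjecture
-/

set_option autoImplicit false

namespace Pool.Agent.Sallee

open Finset Relation

/-- Reachability in the incidence graph, abstractly. -/
lemma reach_of_edge {α : Type*} {R : α → α → Prop} {a b c : α} (hne : b ≠ c)
    (h : (SimpleGraph.fromRel R).Reachable a b) (hbc : R b c ∨ R c b) :
    (SimpleGraph.fromRel R).Reachable a c := by
  refine h.trans (SimpleGraph.Adj.reachable ?_)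
  rw [SimpleGraph.fromRel_adj]
  exact ⟨hne, hbc⟩

lemma FaceLat.mem_unc {L : Type*} [SemilatticeInf L] (S : FaceLat L) [Fintype L]
    {A B : L → Prop} {t : ℕ} {E H G : L} :
    G ∈ S.unc A B t E H ↔ (E ≤ G ∧ G ≤ H ∧ S.rk G = t) ∧ ¬ A G ∧ ¬ B G := by
  classical
  rw [FaceLat.unc, Finset.mem_filter, S.mem_lev]

lemma FaceLat.mem_mix {L : Type*} [SemilatticeInf L] (S : FaceLat L) [Fintype L]
    {A B : L → Prop} {t q : ℕ} {E H R : L} :
    R ∈ S.mix A B t q E H ↔ (E ≤ R ∧ R ≤ H ∧ S.rk R = q) ∧ S.Mixed A B t H R := by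
  classical
  rw [FaceLat.mix, Finset.mem_filter, S.mem_lev]

theorem lower (d r s : ℕ) (hrs : r < s) (hsd : s < d) (P : Set (EuclideanSpace ℝ (Fin d)))
    (hP : ∃ S : Finset (EuclideanSpace ℝ (Fin d)),
      P = convexHull ℝ (S : Set (EuclideanSpace ℝ (Fin d))))
    (hd : Module.finrank ℝ (vectorSpan ℝ P) = d) :
    (min (Nat.choose (s + 1) (r + 1)) (Nat.choose d s) + 1 ≤
        {F : Set (EuclideanSpace ℝ (Fin d)) |
          F.Nonempty ∧ IsExposed ℝ P F ∧ Module.finrank ℝ (vectorSpan ℝ F) = s}.ncard ∧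
      ∀ X : Finset (Set (EuclideanSpace ℝ (Fin d))),
        X.card ≤ min (Nat.choose (s + 1) (r + 1)) (Nat.choose d s) - 1 →
        ∀ A B : Set (EuclideanSpace ℝ (Fin d)),
          (A.Nonempty ∧ IsExposed ℝ P A ∧ Module.finrank ℝ (vectorSpan ℝ A) = s) →
          (B.Nonempty ∧ IsExposed ℝ P B ∧ Module.finrank ℝ (vectorSpan ℝ B) = s) →
          A ∉ X → B ∉ X →
          (SimpleGraph.fromRel (fun F G : Set (EuclideanSpace ℝ (Fin d)) =>
            F ∉ X ∧ G ∉ X ∧
            (F.Nonempty ∧ IsExposed ℝ P F ∧ Module.finrank ℝ (vectorSpan ℝ F) = r) ∧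
            (G.Nonempty ∧ IsExposed ℝ P G ∧ Module.finrank ℝ (vectorSpan ℝ G) = s) ∧
            F ⊆ G)).Reachable A B) := by
  classical
  obtain ⟨S, rfl⟩ := hP
  have hS : S.Nonempty := by
    rw [Finset.nonempty_iff_ne_empty]
    rintro rfl
    rw [Finset.coe_empty, convexHull_empty, vectorSpan_empty, finrank_bot] at hd
    omega
  obtain ⟨L, _, _, K, bot, top, e, h1, h2, h3, h4, h5, h6, h7⟩ := Config.exists_model S hS hd
  have hbt : bot ≤ top := (h1 bot).2
  constructor
  · -- the number of `s`-faces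
    have hset : {F : Set (EuclideanSpace ℝ (Fin d)) | F.Nonempty ∧
        IsExposed ℝ (convexHull ℝ (S : Set (EuclideanSpace ℝ (Fin d)))) F ∧
        Module.finrank ℝ (vectorSpan ℝ F) = s} =
        (((K.lev bot top (s + 1)).image e : Finset _) : Set _) := by
      ext F
      simp only [Set.mem_ofPred_eq, Finset.coe_image, Set.mem_image, Finset.mem_coe, K.mem_lev]
      constructor
      · intro hF
        obtain ⟨x, hx, hx'⟩ := h7 F s hF
        exact ⟨x, ⟨(h1 x).1, (h1 x).2, hx'⟩, hx⟩
      · rintro ⟨x, ⟨_, _, hx⟩, rfl⟩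
        exact h6 x s hx
    rw [hset, Set.ncard_coe_finset, Finset.card_image_of_injective _ h4]
    have hc := K.card_lev hbt (show K.rk bot ≤ s + 1 by omega) (show s + 1 ≤ K.rk top by omega)
    rw [h2, h3, Nat.sub_zero, Nat.sub_zero, Nat.choose_succ_succ] at hc
    have hpos : 0 < d.choose (s + 1) := Nat.choose_pos (by omega)
    have := min_le_right (Nat.choose (s + 1) (r + 1)) (Nat.choose d s)
    simp only [Nat.succ_eq_add_one] at hc
    omega
  · intro X hX A B hA hB hAX hBX
    by_contra hreach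
    set Γ := SimpleGraph.fromRel (fun F G : Set (EuclideanSpace ℝ (Fin d)) =>
            F ∉ X ∧ G ∉ X ∧
            (F.Nonempty ∧ IsExposed ℝ (convexHull ℝ (S : Set (EuclideanSpace ℝ (Fin d)))) F ∧
              Module.finrank ℝ (vectorSpan ℝ F) = r) ∧
            (G.Nonempty ∧ IsExposed ℝ (convexHull ℝ (S : Set (EuclideanSpace ℝ (Fin d)))) G ∧
              Module.finrank ℝ (vectorSpan ℝ G) = s) ∧
            F ⊆ G) with hΓ
    set cA : L → Prop := fun x => e x ∉ X ∧ Γ.Reachable A (e x) with hcA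
    set cB : L → Prop := fun x => e x ∉ X ∧ ¬ Γ.Reachable A (e x) with hcB
    have hdisj : ∀ x, cA x → ¬ cB x := fun x hx hx' => hx'.2 hx.2
    obtain ⟨a, ha, ha'⟩ := h7 A s hA
    obtain ⟨b, hb, hb'⟩ := h7 B s hB
    have hmix : K.Mixed cA cB (s + 1) top bot := by
      refine ⟨⟨a, ⟨?_, ?_⟩, (h1 a).1, (h1 a).2, ha'⟩, ⟨b, ⟨?_, ?_⟩, (h1 b).1, (h1 b).2, hb'⟩⟩
      · rw [ha]; exact hAX
      · rw [ha]
      · rw [hb]; exact hBX
      · rw [hb]; exact hreach
    have hmain := K.main_ineq cA cB hdisj hrs hsd hbt h2 h3 hmix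
    -- both counted families embed in `X`
    have hunc : ∀ x ∈ K.unc cA cB (s + 1) bot top, e x ∈ X := by
      intro x hx
      rw [FaceLat.mem_unc] at hx
      by_contra hxX
      by_cases hre : Γ.Reachable A (e x)
      · exact hx.2.1 ⟨hxX, hre⟩
      · exact hx.2.2 ⟨hxX, hre⟩
    have hmixX : ∀ x ∈ K.mix cA cB (s + 1) (r + 1) bot top, e x ∈ X := by
      intro x hx
      rw [FaceLat.mem_mix] at hx
      obtain ⟨⟨_, _, hxr⟩, ⟨⟨g, g1, g2, g3, g4⟩, ⟨g', g1', g2', g3', g4'⟩⟩⟩ := hx
      by_contra hxX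
      have ex := h6 x r hxr
      have eg := h6 g s g4
      have eg' := h6 g' s g4'
      have hne : e g ≠ e x := by
        intro h
        have := h4 h
        rw [this] at g4
        omega
      have hne' : e x ≠ e g' := by
        intro h
        have := h4 h
        rw [← this] at g4'
        omega
      have r1 : Γ.Reachable A (e x) := reach_of_edge hne g1.2
        (Or.inr ⟨hxX, g1.1, ex, eg, h5 _ _ g2⟩)
      have r2 : Γ.Reachable A (e g') := reach_of_edge hne' r1
        (Or.inl ⟨hxX, g1'.1, ex, eg', h5 _ _ g2'⟩)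
      exact g1'.2 r2
    have hcard : (K.unc cA cB (s + 1) bot top).card +
        (K.mix cA cB (s + 1) (r + 1) bot top).card ≤ X.card := by
      rw [← Finset.card_union_of_disjoint]
      · apply Finset.card_le_card_of_injOn e
        · intro x hx
          rcases Finset.mem_union.1 hx with hx | hx
          · exact hunc x hx
          · exact hmixX x hx
        · exact h4.injOn
      · rw [Finset.disjoint_left]
        intro x hx hx'
        rw [FaceLat.mem_unc] at hx
        rw [FaceLat.mem_mix] at hx'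
        omega
    have hpos : 0 < min (Nat.choose (s + 1) (r + 1)) (Nat.choose d s) :=
      lt_min (Nat.choose_pos (by omega)) (Nat.choose_pos (by omega))
    omega

end Pool.Agent.Sallee
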