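import Mathlib
import Pool.Agent.Lib.MP_db3372_co.Polytope

/-!
# Exposed faces of the convex hull of a finite family of points
-/

set_option autoImplicit false

namespace Pool.Agent.Sallee

open Finset

section General

variable {d : ℕ} {ι : Type*} [Fintype ι]

lemma zero_eq (p : ι → EuclideanSpace ℝ (Fin d)) (l : EuclideanSpace ℝ (Fin d) →ₗ[ℝ] ℝ) (M : ℝ)
    (h : ∀ i, l (p i) ≤ M) (x : EuclideanSpace ℝ (Fin d)) :
    (x ∈ convexHull ℝ (Set.range p) ∧ l x = M) ↔ x ∈ convexHull ℝ (p '' {i | l (p i) = M}) := by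
  classical
  set φ : EuclideanSpace ℝ (Fin d) × ℝ →ₗ[ℝ] ℝ :=
    l.comp (LinearMap.fst ℝ _ ℝ) - M • LinearMap.snd ℝ _ ℝ with hφ
  have hφa : ∀ x, φ (Config.lift x) = l x - M := by
    intro x
    rw [hφ]
    simp [Config.lift]
  have h1 := Config.convexHull_zero (Finset.univ.image p) φ (by
    intro x hx
    obtain ⟨i, _, rfl⟩ := Finset.mem_image.1 hx
    rw [hφa]
    linarith [h i]) (x := x)
  rw [Finset.coe_image, Finset.coe_univ, Set.image_univ, hφa, sub_eq_zero] at h1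
  rw [h1]
  have : {x | x ∈ Finset.univ.image p ∧ φ (Config.lift x) = 0} = p '' {i | l (p i) = M} := by
    ext y
    simp only [Set.mem_ofPred_eq, Finset.mem_image, Finset.mem_univ, true_and, Set.mem_image]
    constructor
    · rintro ⟨⟨i, rfl⟩, hi⟩
      rw [hφa, sub_eq_zero] at hi
      exact ⟨i, hi, rfl⟩
    · rintro ⟨i, hi, rfl⟩
      exact ⟨⟨i, rfl⟩, by rw [hφa, hi, sub_self]⟩
  rw [this]

omit [Fintype ι] in
lemma le_of_mem_hull (p : ι → EuclideanSpace ℝ (Fin d)) (l : EuclideanSpace ℝ (Fin d) →ₗ[ℝ] ℝ)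
    (M : ℝ) (h : ∀ i, l (p i) ≤ M) {x : EuclideanSpace ℝ (Fin d)}
    (hx : x ∈ convexHull ℝ (Set.range p)) : l x ≤ M := by
  have : convexHull ℝ (Set.range p) ⊆ {x | l x ≤ M} := by
    apply convexHull_min
    · rintro _ ⟨i, rfl⟩
      exact h i
    · exact convex_halfSpace_le l.isLinear M
  exact this hx

/-- Faces from functionals. -/
lemma exposed_of_functional (p : ι → EuclideanSpace ℝ (Fin d))
    (l : EuclideanSpace ℝ (Fin d) →ₗ[ℝ] ℝ) (M : ℝ) (h : ∀ i, l (p i) ≤ M)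
    (hne : ∃ i, l (p i) = M) :
    (convexHull ℝ (p '' {i | l (p i) = M})).Nonempty ∧
    IsExposed ℝ (convexHull ℝ (Set.range p)) (convexHull ℝ (p '' {i | l (p i) = M})) ∧
    ∀ i, p i ∈ convexHull ℝ (p '' {i | l (p i) = M}) → l (p i) = M := by
  obtain ⟨i₀, hi₀⟩ := hne
  refine ⟨⟨p i₀, subset_convexHull ℝ _ ⟨i₀, hi₀, rfl⟩⟩, ?_, ?_⟩
  · intro _
    refine ⟨LinearMap.toContinuousLinearMap l, ?_⟩
    ext x
    rw [← zero_eq p l M h]
    simp only [Set.mem_ofPred_eq, LinearMap.coe_toContinuousLinearMap']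
    constructor
    · rintro ⟨a, b⟩
      refine ⟨a, fun y hy => ?_⟩
      rw [b]
      exact le_of_mem_hull p l M h hy
    · rintro ⟨a, b⟩
      refine ⟨a, le_antisymm (le_of_mem_hull p l M h a) ?_⟩
      rw [← hi₀]
      exact b _ (subset_convexHull ℝ _ ⟨i₀, rfl⟩)
  · intro i hi
    exact ((zero_eq p l M h _).2 hi).2

/-- Functionals from faces. -/
lemma functional_of_exposed (p : ι → EuclideanSpace ℝ (Fin d))
    {F : Set (EuclideanSpace ℝ (Fin d))} (hne : F.Nonempty)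
    (hF : IsExposed ℝ (convexHull ℝ (Set.range p)) F) :
    ∃ (l : EuclideanSpace ℝ (Fin d) →ₗ[ℝ] ℝ) (M : ℝ), (∀ i, l (p i) ≤ M) ∧
      (∃ i, l (p i) = M) ∧ F = convexHull ℝ (p '' {i | l (p i) = M}) := by
  obtain ⟨l, hl⟩ := hF hne
  obtain ⟨x₀, hx₀⟩ := hne
  have hx₀' := hx₀
  rw [hl] at hx₀'
  have h : ∀ i, (l : EuclideanSpace ℝ (Fin d) →ₗ[ℝ] ℝ) (p i) ≤ l x₀ := fun i =>
    hx₀'.2 _ (subset_convexHull ℝ _ ⟨i, rfl⟩)
  have hFeq : F = convexHull ℝ
      (p '' {i | (l : EuclideanSpace ℝ (Fin d) →ₗ[ℝ] ℝ) (p i) = l x₀}) := by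
    ext x
    rw [← zero_eq p _ _ h, hl]
    simp only [Set.mem_ofPred_eq]
    constructor
    · rintro ⟨a, b⟩
      exact ⟨a, le_antisymm (hx₀'.2 x a) (b x₀ hx₀'.1)⟩
    · rintro ⟨a, b⟩
      refine ⟨a, fun y hy => ?_⟩
      have b' : l x = l x₀ := b
      rw [b']
      exact hx₀'.2 y hy
  refine ⟨l, l x₀, h, ?_, hFeq⟩
  have h2 : (convexHull ℝ
      (p '' {i | (l : EuclideanSpace ℝ (Fin d) →ₗ[ℝ] ℝ) (p i) = l x₀})).Nonempty := by
    rw [← hFeq]; exact ⟨x₀, hx₀⟩
  rw [convexHull_nonempty_iff] at h2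
  obtain ⟨_, i, hi, _⟩ := h2
  exact ⟨i, hi⟩

end General

section Simplex

variable {d : ℕ}

/-- The vertices of the standard simplex. -/
noncomputable def pt (d : ℕ) : Option (Fin d) → EuclideanSpace ℝ (Fin d)
  | none => 0
  | some i => (EuclideanSpace.basisFun (Fin d) ℝ).toBasis i

lemma pt_affineIndependent (d : ℕ) : AffineIndependent ℝ (pt d) := by
  rw [affineIndependent_iff_linearIndependent_vsub ℝ (pt d) none]
  have hsome : ∀ x : {x : Option (Fin d) // x ≠ none}, (x.1).isSome := fun x =>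
    Option.isSome_iff_ne_none.2 x.2
  have := (EuclideanSpace.basisFun (Fin d) ℝ).toBasis.linearIndependent.comp
    (fun x : {x : Option (Fin d) // x ≠ none} => (x.1).get (hsome x)) (by
      intro x y hxy
      apply Subtype.ext
      have h1 := Option.some_get (hsome x)
      have h2 := Option.some_get (hsome y)
      rw [← h1, ← h2]
      exact congrArg some hxy)
  have heq : (fun i : {x : Option (Fin d) // x ≠ none} => (pt d i -ᵥ pt d none)) =
      (EuclideanSpace.basisFun (Fin d) ℝ).toBasis ∘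
        (fun x : {x : Option (Fin d) // x ≠ none} => (x.1).get (hsome x)) := by
    funext x
    obtain ⟨x, hx⟩ := x
    cases x with
    | none => exact absurd rfl hx
    | some i => simp [pt]
  rw [heq]
  exact this

lemma exists_functional_pt (d : ℕ) (f : Option (Fin d) → ℝ) :
    ∃ l : EuclideanSpace ℝ (Fin d) →ₗ[ℝ] ℝ, ∀ j, l (pt d j) = f j - f none := by
  refine ⟨(EuclideanSpace.basisFun (Fin d) ℝ).toBasis.constr ℝ (fun i => f (some i) - f none), ?_⟩
  intro j
  cases j with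
  | none => simp [pt]
  | some i => simp only [pt]; rw [Module.Basis.constr_basis]

end Simplex

end Pool.Agent.Sallee
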