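import Mathlib
import Pool.Agent.Lib.MP_db3372_co.SharpGen

/-!
# The simplex example
-/

set_option autoImplicit false

namespace Pool.Agent.Sallee

open Finset

variable {d : ℕ}

/-- `F` is a (nonempty, exposed) `k`-face of `P`. -/
def IsF (P : Set (EuclideanSpace ℝ (Fin d))) (k : ℕ) (F : Set (EuclideanSpace ℝ (Fin d))) : Prop :=
  F.Nonempty ∧ IsExposed ℝ P F ∧ Module.finrank ℝ (vectorSpan ℝ F) = k

/-- The relation whose symmetrisation is the incidence graph without the nodes in `X`. -/
def IncRel (P : Set (EuclideanSpace ℝ (Fin d))) (r s : ℕ)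
    (X : Finset (Set (EuclideanSpace ℝ (Fin d)))) (F G : Set (EuclideanSpace ℝ (Fin d))) : Prop :=
  F ∉ X ∧ G ∉ X ∧ IsF P r F ∧ IsF P s G ∧ F ⊆ G

/-- `k` nodes can separate two `s`-faces of `P`. -/
def Bad (P : Set (EuclideanSpace ℝ (Fin d))) (r s k : ℕ) : Prop :=
  ∃ X : Finset (Set (EuclideanSpace ℝ (Fin d))), X.card ≤ k ∧
    ∃ A B, IsF P s A ∧ IsF P s B ∧ A ∉ X ∧ B ∉ X ∧
      ¬ (SimpleGraph.fromRel (IncRel P r s X)).Reachable A B

lemma not_reachable_of_isolated {α : Type*} {G : SimpleGraph α} {a b : α} (hne : a ≠ b)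
    (h : ∀ c, ¬ G.Adj a c) : ¬ G.Reachable a b := by
  rintro ⟨w⟩
  cases w with
  | nil => exact hne rfl
  | cons h' _ => exact h _ h'

/-- A face of the simplex. -/
noncomputable def sf (J : Finset (Option (Fin d))) : Set (EuclideanSpace ℝ (Fin d)) :=
  convexHull ℝ (pt d '' (J : Set (Option (Fin d))))

lemma finrank_simplexFace {I : Finset (Option (Fin d))} {k : ℕ} (hI : I.card = k + 1) :
    Module.finrank ℝ (vectorSpan ℝ (sf I)) = k := by
  classical
  rw [sf, Config.vectorSpan_convexHull]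
  have := (pt_affineIndependent d).finrank_vectorSpan_image_finset (s := I) (n := k) hI
  rwa [Finset.coe_image] at this

lemma simplexFace_isF {I : Finset (Option (Fin d))} {k : ℕ} (hI : I.card = k + 1) :
    IsF (convexHull ℝ (Set.range (pt d))) k (sf I) ∧
    ∀ i, pt d i ∈ sf I → i ∈ I := by
  classical
  obtain ⟨l, hl⟩ := exists_functional_pt d (fun j => if j ∈ I then (0 : ℝ) else -1)
  set M : ℝ := -(if (none : Option (Fin d)) ∈ I then (0 : ℝ) else -1) with hM
  have hle : ∀ j, l (pt d j) ≤ M := by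
    intro j
    rw [hl, hM]
    have : (if j ∈ I then (0 : ℝ) else -1) ≤ 0 := by split_ifs <;> norm_num
    linarith
  have hset : {i | l (pt d i) = M} = (I : Set (Option (Fin d))) := by
    ext j
    simp only [Set.mem_ofPred_eq, Finset.mem_coe]
    rw [hl, hM]
    by_cases hj : j ∈ I
    · simp [hj]
    · rw [if_neg hj]
      constructor
      · intro h
        exfalso
        linarith
      · intro h
        exact absurd h hj
  obtain ⟨i₀, hi₀⟩ : I.Nonempty := Finset.card_pos.1 (by omega)
  have h := exposed_of_functional (pt d) l M hle ⟨i₀, by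
    have : i₀ ∈ {i | l (pt d i) = M} := by rw [hset]; exact hi₀
    exact this⟩
  rw [hset] at h
  rw [← sf] at h
  refine ⟨⟨h.1, h.2.1, finrank_simplexFace hI⟩, fun i hi => ?_⟩
  have h1 : i ∈ {i | l (pt d i) = M} := h.2.2 i hi
  rw [hset] at h1
  exact h1

lemma exists_simplexFace {F : Set (EuclideanSpace ℝ (Fin d))} {k : ℕ}
    (hF : IsF (convexHull ℝ (Set.range (pt d))) k F) :
    ∃ I : Finset (Option (Fin d)), I.card = k + 1 ∧
      F = sf I := by
  classical
  obtain ⟨l, M, h1, ⟨i, hi⟩, h3⟩ := functional_of_exposed (pt d) hF.1 hF.2.1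
  have hset : {i | l (pt d i) = M} =
      ((Finset.univ.filter (fun i => l (pt d i) = M) : Finset _) : Set (Option (Fin d))) := by
    ext j; simp
  rw [hset, ← sf] at h3
  refine ⟨_, ?_, h3⟩
  obtain ⟨c, hc⟩ : ∃ c, (Finset.univ.filter (fun i => l (pt d i) = M)).card = c + 1 := by
    refine ⟨(Finset.univ.filter (fun i => l (pt d i) = M)).card - 1, ?_⟩
    have : 0 < (Finset.univ.filter (fun i => l (pt d i) = M)).card :=
      Finset.card_pos.2 ⟨i, by simp [hi]⟩
    omega
  have h4 := finrank_simplexFace hc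
  rw [← h3, hF.2.2] at h4
  rw [hc, h4]

lemma finrank_simplex (d : ℕ) :
    Module.finrank ℝ (vectorSpan ℝ (convexHull ℝ (Set.range (pt d)))) = d := by
  rw [Config.vectorSpan_convexHull]
  exact (pt_affineIndependent d).finrank_vectorSpan (by simp)

theorem simplex_bad (d r s : ℕ) (hrs : r < s) (hsd : s < d) :
    Bad (convexHull ℝ (Set.range (pt d))) r s ((s + 1).choose (r + 1)) := by
  classical
  obtain ⟨I₀, _, hI₀⟩ := Finset.exists_subset_card_eq
    (show s + 1 ≤ (Finset.univ : Finset (Option (Fin d))).card by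
      rw [Finset.card_univ, Fintype.card_option, Fintype.card_fin]; omega)
  obtain ⟨j, hj⟩ : ∃ j, j ∉ I₀ := by
    by_contra hno
    push Not at hno
    have : I₀ = Finset.univ := Finset.eq_univ_iff_forall.2 hno
    rw [this, Finset.card_univ, Fintype.card_option, Fintype.card_fin] at hI₀
    omega
  obtain ⟨i₀, hi₀⟩ : I₀.Nonempty := Finset.card_pos.1 (by omega)
  have hI₁ : (insert j (I₀.erase i₀)).card = s + 1 := by
    rw [Finset.card_insert_of_notMem (fun h => hj (Finset.mem_of_mem_erase h)),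
      Finset.card_erase_of_mem hi₀, hI₀]
    omega
  obtain ⟨hA, hA'⟩ := simplexFace_isF hI₀
  obtain ⟨hB, hB'⟩ := simplexFace_isF hI₁
  set A := sf I₀ with hAdef
  set B := sf (insert j (I₀.erase i₀)) with hBdef
  obtain ⟨X, hX⟩ : ∃ X : Finset (Set (EuclideanSpace ℝ (Fin d))), X =
    (I₀.powersetCard (r + 1)).image
      (fun J => sf J) := ⟨_, rfl⟩
  have hXdim : ∀ F ∈ X, Module.finrank ℝ (vectorSpan ℝ F) = r := by
    intro F hF
    rw [hX, Finset.mem_image] at hF
    obtain ⟨J, hJ, hJF⟩ := hF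
    rw [← hJF]
    exact finrank_simplexFace (Finset.mem_powersetCard.1 hJ).2
  refine ⟨X, ?_, A, B, hA, hB, ?_, ?_, ?_⟩
  · rw [hX]
    refine Finset.card_image_le.trans ?_
    rw [Finset.card_powersetCard, hI₀]
  · intro h
    have := hXdim A h
    rw [hA.2.2] at this
    omega
  · intro h
    have := hXdim B h
    rw [hB.2.2] at this
    omega
  · apply not_reachable_of_isolated
    · intro h
      have h1 : pt d j ∈ B := subset_convexHull ℝ _ ⟨j, by simp, rfl⟩
      rw [← h] at h1
      exact hj (hA' j h1)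
    · intro C hC
      rw [SimpleGraph.fromRel_adj] at hC
      rcases hC.2 with h | h
      · have := h.2.2.1.2.2
        rw [hA.2.2] at this
        omega
      · obtain ⟨h1, _, h2, _, h3⟩ := h
        apply h1
        obtain ⟨J, hJ, rfl⟩ := exists_simplexFace h2
        rw [hX, Finset.mem_image]
        refine ⟨J, Finset.mem_powersetCard.2 ⟨fun i hi => ?_, hJ⟩, rfl⟩
        exact hA' i (h3 (subset_convexHull ℝ _ ⟨i, hi, rfl⟩))

end Pool.Agent.Sallee
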