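import Mathlib
import Pool.Agent.Lib.MP_db3372_co.SharpSimplex

/-!
# The prism example
-/

set_option autoImplicit false

namespace Pool.Agent.Sallee

open Finset
open scoped Pointwise

variable {d : ℕ}

/-- Base vertices. -/
def sg (z : Fin d) (i : Fin d) : Option (Fin d) := if i = z then none else some i

lemma sg_injective (z : Fin d) : Function.Injective (sg z) := by
  intro i j h
  unfold sg at h
  by_cases hi : i = z
  · by_cases hj : j = z
    · rw [hi, hj]
    · rw [if_pos hi, if_neg hj] at h
      exact absurd h (by simp)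
  · by_cases hj : j = z
    · rw [if_neg hi, if_pos hj] at h
      exact absurd h (by simp)
    · rw [if_neg hi, if_neg hj] at h
      exact Option.some_injective _ h

/-- The vertices of the prism. -/
noncomputable def pr (z : Fin d) (x : Fin d × Bool) : EuclideanSpace ℝ (Fin d) :=
  pt d (sg z x.1) + (if x.2 then pt d (some z) else 0)

lemma exists_functional_pr (z : Fin d) (g : Fin d → ℝ) (c : ℝ) :
    ∃ l : EuclideanSpace ℝ (Fin d) →ₗ[ℝ] ℝ,
      (∀ x, l (pr z x) = g x.1 - g z + (if x.2 then c else 0)) ∧ l (pt d (some z)) = c ∧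
      ∀ i, l (pt d (sg z i)) = g i - g z := by
  obtain ⟨l, hl⟩ := exists_functional_pt d (fun j => match j with
    | none => g z
    | some i => if i = z then g z + c else g i)
  have h1 : l (pt d (some z)) = c := by
    rw [hl]
    simp
  have h2 : ∀ i, l (pt d (sg z i)) = g i - g z := by
    intro i
    rw [hl]
    by_cases hi : i = z
    · rw [sg, if_pos hi, hi]
    · rw [sg, if_neg hi]
      simp [hi]
  refine ⟨l, ?_, h1, h2⟩
  rintro ⟨i, b⟩
  rw [pr, map_add, h2]
  cases b
  · simp
  · simp [h1]

/-- The horizontal faces. -/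
noncomputable def flat (z : Fin d) (b : Bool) (J : Finset (Fin d)) :
    Set (EuclideanSpace ℝ (Fin d)) :=
  convexHull ℝ (pr z '' {x | x.1 ∈ J ∧ x.2 = b})

/-- The vertical faces. -/
noncomputable def vert (z : Fin d) (J : Finset (Fin d)) : Set (EuclideanSpace ℝ (Fin d)) :=
  convexHull ℝ (pr z '' {x | x.1 ∈ J})

lemma finrank_base (z : Fin d) {J : Finset (Fin d)} {k : ℕ} (hJ : J.card = k + 1) :
    Module.finrank ℝ (vectorSpan ℝ ((fun i => pt d (sg z i)) '' (J : Set (Fin d)))) = k := by
  classical
  have h1 : AffineIndependent ℝ (fun i => pt d (sg z i)) :=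
    (pt_affineIndependent d).comp_embedding ⟨sg z, sg_injective z⟩
  have := h1.finrank_vectorSpan_image_finset (s := J) (n := k) hJ
  rwa [Finset.coe_image] at this

lemma finrank_flat (z : Fin d) (b : Bool) {J : Finset (Fin d)} {k : ℕ} (hJ : J.card = k + 1) :
    Module.finrank ℝ (vectorSpan ℝ (flat z b J)) = k := by
  rw [flat, Config.vectorSpan_convexHull]
  have : pr z '' {x | x.1 ∈ J ∧ x.2 = b} =
      (if b then pt d (some z) else 0) +ᵥ ((fun i => pt d (sg z i)) '' (J : Set (Fin d))) := by
    ext y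
    rw [Set.mem_vadd_set]
    constructor
    · rintro ⟨⟨i, b'⟩, ⟨hi, hb⟩, rfl⟩
      simp only at hi hb
      subst hb
      exact ⟨_, ⟨i, hi, rfl⟩, by rw [vadd_eq_add, add_comm, pr]⟩
    · rintro ⟨_, ⟨i, hi, rfl⟩, rfl⟩
      exact ⟨(i, b), ⟨hi, rfl⟩, by rw [vadd_eq_add, add_comm, pr]⟩
  rw [this, vectorSpan_vadd]
  exact finrank_base z hJ

lemma finrank_vert (z : Fin d) {J : Finset (Fin d)} {k : ℕ} (hJ : J.card = k + 1) :
    Module.finrank ℝ (vectorSpan ℝ (vert z J)) = k + 1 := by
  rw [vert, Config.vectorSpan_convexHull]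
  obtain ⟨j₀, hj₀⟩ : J.Nonempty := Finset.card_pos.1 (by omega)
  set D := vectorSpan ℝ ((fun i => pt d (sg z i)) '' (J : Set (Fin d))) with hD
  have hprf : ∀ i, pr z (i, false) = pt d (sg z i) := fun i => by simp [pr]
  have hprt : ∀ i, pr z (i, true) = pt d (sg z i) + pt d (some z) := fun i => by simp [pr]
  have h1 : vectorSpan ℝ (pr z '' {x | x.1 ∈ J}) = D ⊔ Submodule.span ℝ {pt d (some z)} := by
    apply le_antisymm
    · rw [vectorSpan_eq_span_vsub_set_right ℝ
        (show pr z (j₀, false) ∈ pr z '' {x | x.1 ∈ J} from ⟨(j₀, false), hj₀, rfl⟩),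
        Submodule.span_le]
      rintro _ ⟨_, ⟨⟨i, b⟩, hi, rfl⟩, rfl⟩
      have hi' : i ∈ J := hi
      have e1 : pt d (sg z i) -ᵥ pt d (sg z j₀) ∈ D :=
        vsub_mem_vectorSpan ℝ ⟨i, hi', rfl⟩ ⟨j₀, hj₀, rfl⟩
      cases b
      · simp only [hprf]
        exact Submodule.mem_sup_left e1
      · have : pr z (i, true) -ᵥ pr z (j₀, false) =
            (pt d (sg z i) -ᵥ pt d (sg z j₀)) + pt d (some z) := by
          rw [hprf, hprt, vsub_eq_sub, vsub_eq_sub]
          abel
        simp only [this]
        exact Submodule.add_mem_sup e1 (Submodule.mem_span_singleton_self _)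
    · apply sup_le
      · apply vectorSpan_mono
        rintro _ ⟨i, hi, rfl⟩
        exact ⟨(i, false), hi, hprf i⟩
      · rw [Submodule.span_le, Set.singleton_subset_iff]
        have : pt d (some z) = pr z (j₀, true) -ᵥ pr z (j₀, false) := by
          rw [hprf, hprt, vsub_eq_sub]
          abel
        rw [this]
        exact vsub_mem_vectorSpan ℝ ⟨(j₀, true), hj₀, rfl⟩ ⟨(j₀, false), hj₀, rfl⟩
  obtain ⟨l, _, hl1, hl2⟩ := exists_functional_pr z (fun _ => 0) 1
  have hDl : ∀ y ∈ D, l y = 0 := by
    have : D ≤ LinearMap.ker l := by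
      rw [hD, vectorSpan_def, Submodule.span_le]
      rintro _ ⟨_, ⟨i, _, rfl⟩, _, ⟨j, _, rfl⟩, rfl⟩
      rw [SetLike.mem_coe, LinearMap.mem_ker]
      simp only [vsub_eq_sub, map_sub, hl2]
      ring
    exact fun y hy => this hy
  have hne : pt d (some z) ≠ 0 := by
    intro h
    rw [h, map_zero] at hl1
    norm_num at hl1
  have h2 : D ⊓ Submodule.span ℝ {pt d (some z)} = ⊥ := by
    rw [Submodule.eq_bot_iff]
    rintro y ⟨hy1, hy2⟩
    obtain ⟨c, rfl⟩ := Submodule.mem_span_singleton.1 hy2
    have := hDl _ hy1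
    rw [map_smul, hl1, smul_eq_mul, mul_one] at this
    rw [this, zero_smul]
  have h4 := Submodule.finrank_sup_add_finrank_inf_eq D (Submodule.span ℝ {pt d (some z)})
  rw [← h1, h2, finrank_bot, add_zero, finrank_span_singleton hne, hD, finrank_base z hJ] at h4
  exact h4

lemma finrank_prism (z : Fin d) :
    Module.finrank ℝ (vectorSpan ℝ (convexHull ℝ (Set.range (pr z)))) = d := by
  rw [Config.vectorSpan_convexHull]
  apply le_antisymm
  · refine (Submodule.finrank_le _).trans ?_
    rw [finrank_euclideanSpace_fin]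
  · have h1 : Set.range (pt d) ⊆ Set.range (pr z) := by
      rintro _ ⟨j, rfl⟩
      cases j with
      | none => exact ⟨(z, false), by simp [pr, sg]⟩
      | some i =>
        by_cases hi : i = z
        · exact ⟨(z, true), by simp [pr, sg, pt, hi]⟩
        · exact ⟨(i, false), by simp [pr, sg, hi]⟩
    have h2 := Submodule.finrank_mono (vectorSpan_mono ℝ h1)
    have h3 : Module.finrank ℝ (vectorSpan ℝ (Set.range (pt d))) = d :=
      (pt_affineIndependent d).finrank_vectorSpan (by simp)
    omega

lemma flat_isF (z : Fin d) (b : Bool) {J : Finset (Fin d)} {k : ℕ} (hJ : J.card = k + 1) :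
    IsF (convexHull ℝ (Set.range (pr z))) k (flat z b J) := by
  classical
  obtain ⟨j₀, hj₀⟩ : J.Nonempty := Finset.card_pos.1 (by omega)
  set g : Fin d → ℝ := fun i => if i ∈ J then (0 : ℝ) else -1 with hg
  set c : ℝ := if b then 1 else -1 with hc
  obtain ⟨l, hl, _, _⟩ := exists_functional_pr z g c
  set M : ℝ := -g z + (if b then 1 else 0) with hM
  have hgle : ∀ i, g i ≤ 0 := by
    intro i
    simp only [hg]
    split_ifs <;> norm_num
  have hle : ∀ x, l (pr z x) ≤ M := by
    rintro ⟨i, b'⟩
    rw [hl, hM, hc]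
    have := hgle i
    cases b <;> cases b' <;> simp <;> linarith
  have hset : {x | l (pr z x) = M} = {x : Fin d × Bool | x.1 ∈ J ∧ x.2 = b} := by
    ext ⟨i, b'⟩
    simp only [Set.mem_ofPred_eq]
    rw [hl, hM, hc]
    have h1 := hgle i
    have h2 : g i = 0 ↔ i ∈ J := by
      simp only [hg]
      split_ifs with h
      · simp [h]
      · simp [h]
    rw [← h2]
    cases b <;> cases b' <;> simp only [if_true, if_false, Bool.false_eq_true]
    · constructor
      · intro h
        exact ⟨by linarith, by trivial⟩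
      · rintro ⟨h, _⟩
        rw [h]; ring
    · constructor
      · intro h
        exfalso
        linarith
      · rintro ⟨_, h⟩
        exact absurd h (by simp)
    · constructor
      · intro h
        exfalso
        linarith
      · rintro ⟨_, h⟩
        exact absurd h (by simp)
    · constructor
      · intro h
        exact ⟨by linarith, by trivial⟩
      · rintro ⟨h, _⟩
        rw [h]; ring
  have h := exposed_of_functional (pr z) l M hle ⟨(j₀, b), by
    have : (j₀, b) ∈ {x | l (pr z x) = M} := by rw [hset]; exact ⟨hj₀, rfl⟩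
    exact this⟩
  rw [hset, ← flat] at h
  exact ⟨h.1, h.2.1, finrank_flat z b hJ⟩

end Pool.Agent.Sallee
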