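import Mathlib
import Pool.Agent.Lib.MP_db3372_co.SharpPrism

/-!
# Sharpness in Sallee's conjecture
-/

set_option autoImplicit false

namespace Pool.Agent.Sallee

open Finset

variable {d : ℕ}

lemma reachable_invariant {α : Type*} {G : SimpleGraph α} {Q : α → Prop}
    (h : ∀ a b, G.Adj a b → (Q a ↔ Q b)) {a b : α} (hab : G.Reachable a b) : Q a ↔ Q b := by
  obtain ⟨w⟩ := hab
  induction w with
  | nil => exact Iff.rfl
  | cons h' _ ih => exact (h _ _ h').trans ih

/-- Faces that are not horizontal are vertical. -/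
lemma vertical_of (z : Fin d) (l₀ : EuclideanSpace ℝ (Fin d) →ₗ[ℝ] ℝ)
    (hl₀ : ∀ x, l₀ (pr z x) = if x.2 then 1 else 0) {s : ℕ}
    {F : Set (EuclideanSpace ℝ (Fin d))} (hF : IsF (convexHull ℝ (Set.range (pr z))) s F)
    (h0 : ¬ ∀ x ∈ F, l₀ x = 0) (h1 : ¬ ∀ x ∈ F, l₀ x = 1) :
    ∃ J : Finset (Fin d), J.card = s ∧ F = vert z J := by
  classical
  obtain ⟨l, M, m1, m2, m3⟩ := functional_of_exposed (pr z) hF.1 hF.2.1
  have hconv : ∀ c : ℝ, (∀ x, l (pr z x) = M → l₀ (pr z x) = c) → ∀ x ∈ F, l₀ x = c := by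
    intro c hc x hx
    rw [m3] at hx
    have hsub : convexHull ℝ (pr z '' {x | l (pr z x) = M}) ⊆ {x | l₀ x = c} := by
      apply convexHull_min
      · rintro _ ⟨y, hy, rfl⟩
        exact hc y hy
      · exact convex_hyperplane l₀.isLinear c
    exact hsub hx
  obtain ⟨⟨i, bi⟩, hi, hbi⟩ : ∃ x, l (pr z x) = M ∧ x.2 = true := by
    by_contra hno
    push Not at hno
    apply h0
    apply hconv
    intro x hx
    rw [hl₀, if_neg (hno x hx)]
  obtain ⟨⟨j, bj⟩, hj, hbj⟩ : ∃ x, l (pr z x) = M ∧ x.2 = false := by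
    by_contra hno
    push Not at hno
    apply h1
    apply hconv
    intro x hx
    have : x.2 = true := by
      have := hno x hx
      cases hx2 : x.2
      · exact absurd hx2 this
      · rfl
    rw [hl₀, if_pos this]
  simp only at hbi hbj
  subst hbi hbj
  have ap : ∀ i b, l (pr z (i, b)) = l (pt d (sg z i)) + (if b then l (pt d (some z)) else 0) := by
    intro i b
    rw [pr, map_add]
    cases b <;> simp
  have hz : l (pt d (some z)) = 0 := by
    have e1 := m1 (i, false)
    have e2 := m1 (j, true)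
    rw [ap] at hi hj e1 e2
    simp only [if_true, if_false, Bool.false_eq_true] at hi hj e1 e2
    linarith
  have hset : {x | l (pr z x) = M} = {x : Fin d × Bool | x.1 ∈
      (Finset.univ.filter (fun i => l (pt d (sg z i)) = M) : Finset (Fin d))} := by
    ext ⟨i, b⟩
    simp only [Set.mem_ofPred_eq, Finset.mem_filter, Finset.mem_univ, true_and]
    rw [ap, hz]
    simp
  rw [hset, ← vert] at m3
  refine ⟨_, ?_, m3⟩
  obtain ⟨c, hc⟩ : ∃ c, (Finset.univ.filter (fun i => l (pt d (sg z i)) = M)).card = c + 1 := by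
    refine ⟨(Finset.univ.filter (fun i => l (pt d (sg z i)) = M)).card - 1, ?_⟩
    have : 0 < (Finset.univ.filter (fun i => l (pt d (sg z i)) = M)).card := by
      apply Finset.card_pos.2
      refine ⟨i, Finset.mem_filter.2 ⟨Finset.mem_univ _, ?_⟩⟩
      rw [ap, hz] at hi
      simpa using hi
    omega
  have h4 := finrank_vert z hc
  rw [← m3, hF.2.2] at h4
  omega

theorem prism_bad (r s : ℕ) (z : Fin d) (hrs : r < s) (hsd : s < d) :
    Bad (convexHull ℝ (Set.range (pr z))) r s (d.choose s) := by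
  classical
  obtain ⟨l₀, hl₀', _, _⟩ := exists_functional_pr z (fun _ => 0) 1
  have hl₀ : ∀ x, l₀ (pr z x) = if x.2 then 1 else 0 := fun x => by rw [hl₀']; simp
  obtain ⟨I₀, _, hI₀⟩ := Finset.exists_subset_card_eq
    (show s + 1 ≤ (Finset.univ : Finset (Fin d)).card by
      rw [Finset.card_univ, Fintype.card_fin]; omega)
  have hflat : ∀ b (J : Finset (Fin d)), ∀ x ∈ flat z b J, l₀ x = if b then 1 else 0 := by
    intro b J x hx
    have hsub : flat z b J ⊆ {x | l₀ x = if b then 1 else 0} := by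
      apply convexHull_min
      · rintro _ ⟨y, hy, rfl⟩
        rw [Set.mem_ofPred_eq, hl₀, hy.2]
      · exact convex_hyperplane l₀.isLinear _
    exact hsub hx
  obtain ⟨X, hX⟩ : ∃ X : Finset (Set (EuclideanSpace ℝ (Fin d))), X =
    ((Finset.univ : Finset (Fin d)).powersetCard s).image (fun J => vert z J) := ⟨_, rfl⟩
  have hXv : ∀ F ∈ X, ∀ b : Bool, ∃ x ∈ F, l₀ x = if b then 1 else 0 := by
    intro F hF b
    rw [hX, Finset.mem_image] at hF
    obtain ⟨J, hJ, hJF⟩ := hF
    have hJc := (Finset.mem_powersetCard.1 hJ).2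
    obtain ⟨j, hj⟩ : J.Nonempty := Finset.card_pos.1 (by omega)
    rw [← hJF]
    refine ⟨pr z (j, b), subset_convexHull ℝ _ ⟨(j, b), hj, rfl⟩, ?_⟩
    rw [hl₀]
  refine ⟨X, ?_, flat z false I₀, flat z true I₀, flat_isF z false hI₀, flat_isF z true hI₀,
    ?_, ?_, ?_⟩
  · rw [hX]
    refine Finset.card_image_le.trans ?_
    rw [Finset.card_powersetCard, Finset.card_univ, Fintype.card_fin]
  · intro h
    obtain ⟨x, hx, hx1⟩ := hXv _ h true
    rw [hflat false I₀ x hx] at hx1
    simp at hx1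
  · intro h
    obtain ⟨x, hx, hx1⟩ := hXv _ h false
    rw [hflat true I₀ x hx] at hx1
    simp at hx1
  · intro hreach
    -- the invariant
    have key : ∀ F G, IncRel (convexHull ℝ (Set.range (pr z))) r s X F G →
        ((∀ x ∈ F, l₀ x = 0) ↔ ∀ x ∈ G, l₀ x = 0) := by
      rintro F G ⟨_, hG, hF1, hG1, hFG⟩
      by_cases h0 : ∀ x ∈ G, l₀ x = 0
      · exact ⟨fun _ => h0, fun _ x hx => h0 x (hFG hx)⟩
      · by_cases h1 : ∀ x ∈ G, l₀ x = 1
        · constructor
          · intro h
            obtain ⟨x, hx⟩ := hF1.1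
            have e1 := h x hx
            have e2 := h1 x (hFG hx)
            rw [e1] at e2
            norm_num at e2
          · intro h
            exact absurd h h0
        · exfalso
          obtain ⟨J, hJ, hJG⟩ := vertical_of z l₀ hl₀ hG1 h0 h1
          apply hG
          rw [hX, Finset.mem_image]
          exact ⟨J, Finset.mem_powersetCard.2 ⟨Finset.subset_univ _, hJ⟩, hJG.symm⟩
    have hiff := reachable_invariant (Q := fun F => ∀ x ∈ F, l₀ x = 0) (by
      intro F G hFG
      rw [SimpleGraph.fromRel_adj] at hFG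
      rcases hFG.2 with h | h
      · exact key F G h
      · exact (key G F h).symm) hreach
    have hA : ∀ x ∈ flat z false I₀, l₀ x = 0 := fun x hx => by
      rw [hflat false I₀ x hx]; simp
    obtain ⟨x, hx⟩ := (flat_isF z true hI₀).1
    have e1 := hiff.1 hA x hx
    rw [hflat true I₀ x hx] at e1
    simp at e1

/-- Sharpness. -/
theorem sharp (d r s : ℕ) (hrs : r < s) (hsd : s < d) :
    (∃ P : Set (EuclideanSpace ℝ (Fin d)),
        (∃ S : Finset (EuclideanSpace ℝ (Fin d)), P = convexHull ℝ (S : Set (EuclideanSpace ℝ (Fin d)))) ∧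
        Module.finrank ℝ (vectorSpan ℝ P) = d ∧
        ¬ (min (Nat.choose (s + 1) (r + 1)) (Nat.choose d s) + 1 + 1 ≤
            {F : Set (EuclideanSpace ℝ (Fin d)) |
              F.Nonempty ∧ IsExposed ℝ P F ∧ Module.finrank ℝ (vectorSpan ℝ F) = s}.ncard ∧
          ∀ X : Finset (Set (EuclideanSpace ℝ (Fin d))),
            X.card ≤ min (Nat.choose (s + 1) (r + 1)) (Nat.choose d s) + 1 - 1 →
            ∀ A B : Set (EuclideanSpace ℝ (Fin d)),
              (A.Nonempty ∧ IsExposed ℝ P A ∧ Module.finrank ℝ (vectorSpan ℝ A) = s) →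
              (B.Nonempty ∧ IsExposed ℝ P B ∧ Module.finrank ℝ (vectorSpan ℝ B) = s) →
              A ∉ X → B ∉ X →
              (SimpleGraph.fromRel (fun F G : Set (EuclideanSpace ℝ (Fin d)) =>
                F ∉ X ∧ G ∉ X ∧
                (F.Nonempty ∧ IsExposed ℝ P F ∧ Module.finrank ℝ (vectorSpan ℝ F) = r) ∧
                (G.Nonempty ∧ IsExposed ℝ P G ∧ Module.finrank ℝ (vectorSpan ℝ G) = s) ∧
                F ⊆ G)).Reachable A B)) := by
  classical
  suffices main : ∃ (P : Set (EuclideanSpace ℝ (Fin d))) (S : Finset (EuclideanSpace ℝ (Fin d))),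
      P = convexHull ℝ (S : Set (EuclideanSpace ℝ (Fin d))) ∧
      Module.finrank ℝ (vectorSpan ℝ P) = d ∧
      Bad P r s (min (Nat.choose (s + 1) (r + 1)) (Nat.choose d s)) by
    obtain ⟨P, S, hP, hd, X, hX, A, B, hA, hB, hAX, hBX, hreach⟩ := main
    refine ⟨P, ⟨S, hP⟩, hd, ?_⟩
    rintro ⟨_, h⟩
    exact hreach (h X (by rw [Nat.add_sub_cancel]; exact hX) A B hA hB hAX hBX)
  rcases le_total (Nat.choose (s + 1) (r + 1)) (Nat.choose d s) with h | h
  · refine ⟨_, Finset.univ.image (pt d), ?_, finrank_simplex d, ?_⟩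
    · rw [Finset.coe_image, Finset.coe_univ, Set.image_univ]
    · rw [min_eq_left h]
      exact simplex_bad d r s hrs hsd
  · obtain ⟨z⟩ : Nonempty (Fin d) := ⟨⟨0, by omega⟩⟩
    refine ⟨convexHull ℝ (Set.range (pr z)), Finset.univ.image (pr z), ?_, finrank_prism z, ?_⟩
    · rw [Finset.coe_image, Finset.coe_univ, Set.image_univ]
    · rw [min_eq_right h]
      exact prism_bad r s z hrs hsd

end Pool.Agent.Sallee
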